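import Mathlib
import Pool.Agent.Helper376.CL.Defs
import Pool.Agent.Helper376.CL.AE
import Pool.Agent.Helper376.CL.Wrap

set_option maxHeartbeats 4000000
set_option synthInstance.maxHeartbeats 400000

/-! Z-structures on products from horospherical systems, that is spaces `P` with a height function `F`
(zero set: the boundary `B`), a flow `κ` upwards and a main ray `q`. -/

namespace Pool.Agent.H872R2.ZB

open Set Topology Pool.Agent.Helper376.CL

/-- A horospherical system for the action of `G` on `Y`. -/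
structure Sys (G Y P E : Type) [Group G] [TopologicalSpace Y] [MulAction G Y] [TopologicalSpace P]
    [NormedAddCommGroup E] [NormedSpace ℝ E] where
  F : P → ℝ
  m : P → ℝ
  κ : P → ℝ → P
  q : ℝ → P
  e : P → E
  j : Y → P
  F_cont : Continuous F
  m_cont : Continuous m
  κ_cont : Continuous fun p : P × ℝ => κ p.1 p.2
  q_cont : Continuous q
  e_cont : Continuous e
  e_inj : Function.Injective e
  F_nonneg : ∀ x, 0 ≤ F x
  F_le : ∀ x, F x ≤ m x
  κ_le : ∀ x s, s ≤ F x → κ x s = x
  F_κ : ∀ x s, F (κ x s) = max (F x) s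
  m_κ : ∀ x s, m (κ x s) = max (m x) s
  κ_q : ∀ x s, m x ≤ s → κ x s = q s
  F_q : ∀ s, 0 ≤ s → F (q s) = s
  m_q : ∀ s, 0 ≤ s → m (q s) = s
  cpt : ∀ R, IsCompact {x | m x ≤ R}
  m_le_e : ∀ x, m x ≤ ‖e x‖
  j_emb : IsOpenEmbedding j
  j_range : range j = {x | 0 < F x}
  ae : IsAE Y
  smul_cont : ∀ g : G, Continuous fun y : Y => g • y
  cov : ∀ y : Y, ∃ U : Set Y, IsOpen U ∧ y ∈ U ∧ ∀ g : G, g ≠ 1 → Disjoint ((fun y => g • y) '' U) U
  coc : ∃ K₀ : Set Y, IsCompact K₀ ∧ ∀ y : Y, ∃ g : G, g • y ∈ K₀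
  proper : ∀ K C : Set Y, IsCompact K → IsCompact C → {g : G | ∃ y ∈ K, g • y ∈ C}.Finite
  null : ∀ K : Set Y, IsCompact K → ∀ ε : ℝ, 0 < ε → ∀ R : ℝ,
    {g : G | ∃ p ∈ K, m (j (g • p)) ≤ R ∧ ∃ p' ∈ K,
      ε ≤ dist (e (j (g • p))) (e (j (g • p'))) ∨
      ε ≤ |Real.log (F (j (g • p))) - Real.log (F (j (g • p')))|}.Finite

/-- first stretching factor -/
noncomputable def E1 (t : ℝ) : ℝ := Real.exp (max t 0)
/-- second stretching factor -/
noncomputable def E2 (t : ℝ) : ℝ := Real.exp (max (-t) 0)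

theorem E1_cont : Continuous E1 := by unfold E1; fun_prop
theorem E2_cont : Continuous E2 := by unfold E2; fun_prop
theorem E1_pos (t : ℝ) : 0 < E1 t := Real.exp_pos _
theorem E2_pos (t : ℝ) : 0 < E2 t := Real.exp_pos _
theorem one_le_E1 (t : ℝ) : 1 ≤ E1 t := Real.one_le_exp (le_max_right _ _)
theorem one_le_E2 (t : ℝ) : 1 ≤ E2 t := Real.one_le_exp (le_max_right _ _)
theorem E1_eq (t : ℝ) : E1 t = Real.exp t * E2 t := by
  unfold E1 E2
  rw [← Real.exp_add]
  congr 1
  rcases le_total t 0 with h | h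
  · rw [max_eq_right h, max_eq_left (by linarith)]; ring
  · rw [max_eq_left h, max_eq_right (by linarith)]; ring

section Two

variable {G Y P E G' Y' P' E' : Type} [Group G] [TopologicalSpace Y] [MulAction G Y]
  [TopologicalSpace P] [NormedAddCommGroup E] [NormedSpace ℝ E]
  [Group G'] [TopologicalSpace Y'] [MulAction G' Y']
  [TopologicalSpace P'] [NormedAddCommGroup E'] [NormedSpace ℝ E']
  (a : Sys G Y P E) (b : Sys G' Y' P' E')

/-- the space `V`: pairs of points together with the logarithm of the ratio of their heights -/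
def V : Type := {v : P × P' × ℝ // a.F v.1 = Real.exp v.2.2 * b.F v.2.1}

instance : TopologicalSpace (V a b) := instTopologicalSpaceSubtype

variable {a b}

/-- the larger of the two sizes -/
noncomputable def M (v : V a b) : ℝ := max (a.m v.1.1) (b.m v.1.2.1)
/-- the size -/
noncomputable def N (v : V a b) : ℝ := max (M v) |v.1.2.2|

theorem v1_cont : Continuous fun v : V a b => v.1.1 := continuous_fst.comp continuous_subtype_val
theorem v2_cont : Continuous fun v : V a b => v.1.2.1 :=
  (continuous_fst.comp continuous_snd).comp continuous_subtype_val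
theorem v3_cont : Continuous fun v : V a b => v.1.2.2 :=
  (continuous_snd.comp continuous_snd).comp continuous_subtype_val

theorem M_cont : Continuous (M : V a b → ℝ) :=
  (a.m_cont.comp v1_cont).max (b.m_cont.comp v2_cont)
theorem N_cont : Continuous (N : V a b → ℝ) := M_cont.max v3_cont.abs

theorem m_nonneg (a : Sys G Y P E) (x : P) : 0 ≤ a.m x := (a.F_nonneg x).trans (a.F_le x)
theorem M_nonneg (v : V a b) : 0 ≤ M v := (m_nonneg a _).trans (le_max_left _ _)
theorem N_nonneg (v : V a b) : 0 ≤ N v := (M_nonneg v).trans (le_max_left _ _)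
theorem M_le_N (v : V a b) : M v ≤ N v := le_max_left _ _
theorem t_le_N (v : V a b) : |v.1.2.2| ≤ N v := le_max_right _ _

/-- points of the main half plane -/
noncomputable def Q (c t : ℝ) : V a b :=
  ⟨(a.q (max c 0 * E1 t), b.q (max c 0 * E2 t), t), by
    have h0 : 0 ≤ max c 0 := le_max_right _ _
    show a.F (a.q (max c 0 * E1 t)) = Real.exp t * b.F (b.q (max c 0 * E2 t))
    rw [a.F_q _ (mul_nonneg h0 (E1_pos t).le), b.F_q _ (mul_nonneg h0 (E2_pos t).le), E1_eq]
    ring⟩

theorem Q_cont : Continuous fun p : ℝ × ℝ => (Q p.1 p.2 : V a b) := by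
  refine Continuous.subtype_mk ?_ _
  refine (a.q_cont.comp ?_).prodMk ((b.q_cont.comp ?_).prodMk continuous_snd)
  · exact (continuous_fst.max continuous_const).mul (E1_cont.comp continuous_snd)
  · exact (continuous_fst.max continuous_const).mul (E2_cont.comp continuous_snd)

/-- raising a point -/
noncomputable def rs (v : V a b) (w : ℝ) : V a b :=
  ⟨(a.κ v.1.1 (w * E1 v.1.2.2), b.κ v.1.2.1 (w * E2 v.1.2.2), v.1.2.2), by
    show a.F (a.κ v.1.1 (w * E1 v.1.2.2)) =
      Real.exp v.1.2.2 * b.F (b.κ v.1.2.1 (w * E2 v.1.2.2))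
    rw [a.F_κ, b.F_κ, mul_max_of_nonneg _ _ (Real.exp_pos _).le, ← v.2, E1_eq]
    congr 1
    ring⟩

theorem rs_cont : Continuous fun p : V a b × ℝ => rs p.1 p.2 := by
  refine Continuous.subtype_mk ?_ _
  have h3 : Continuous fun p : V a b × ℝ => p.1.1.2.2 := v3_cont.comp continuous_fst
  have k1 : Continuous fun p : V a b × ℝ => a.κ p.1.1.1 (p.2 * E1 p.1.1.2.2) :=
    a.κ_cont.comp ((v1_cont.comp continuous_fst).prodMk (continuous_snd.mul (E1_cont.comp h3)))
  have k2 : Continuous fun p : V a b × ℝ => b.κ p.1.1.2.1 (p.2 * E2 p.1.1.2.2) :=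
    b.κ_cont.comp ((v2_cont.comp continuous_fst).prodMk (continuous_snd.mul (E2_cont.comp h3)))
  exact k1.prodMk (k2.prodMk h3)

theorem rs_zero (v : V a b) : rs v 0 = v := by
  apply Subtype.ext
  show (a.κ v.1.1 (0 * E1 v.1.2.2), b.κ v.1.2.1 (0 * E2 v.1.2.2), v.1.2.2) = v.1
  rw [zero_mul, zero_mul, a.κ_le _ _ (a.F_nonneg _), b.κ_le _ _ (b.F_nonneg _)]

theorem rs_Q (v : V a b) (w : ℝ) (h : M v ≤ w) : rs v w = Q w v.1.2.2 := by
  have hw : 0 ≤ w := (M_nonneg v).trans h
  apply Subtype.ext
  show (a.κ v.1.1 (w * E1 v.1.2.2), b.κ v.1.2.1 (w * E2 v.1.2.2), v.1.2.2) =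
    (a.q (max w 0 * E1 v.1.2.2), b.q (max w 0 * E2 v.1.2.2), v.1.2.2)
  rw [max_eq_left hw, a.κ_q, b.κ_q]
  · calc b.m v.1.2.1 ≤ M v := le_max_right _ _
      _ ≤ w := h
      _ = w * 1 := (mul_one w).symm
      _ ≤ _ := mul_le_mul_of_nonneg_left (one_le_E2 _) hw
  · calc a.m v.1.1 ≤ M v := le_max_left _ _
      _ ≤ w := h
      _ = w * 1 := (mul_one w).symm
      _ ≤ _ := mul_le_mul_of_nonneg_left (one_le_E1 _) hw

theorem N_rs (v : V a b) (w : ℝ) : N v ≤ N (rs v w) := by
  refine max_le_max (max_le_max ?_ ?_) le_rfl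
  · show a.m v.1.1 ≤ a.m (a.κ v.1.1 (w * E1 v.1.2.2))
    rw [a.m_κ]; exact le_max_left _ _
  · show b.m v.1.2.1 ≤ b.m (b.κ v.1.2.1 (w * E2 v.1.2.2))
    rw [b.m_κ]; exact le_max_left _ _

theorem N_Q (c t : ℝ) : c ≤ N (Q c t : V a b) := by
  refine le_trans ?_ (M_le_N _)
  refine le_trans ?_ (le_max_left _ _)
  show c ≤ a.m (a.q (max c 0 * E1 t))
  rw [a.m_q _ (mul_nonneg (le_max_right _ _) (E1_pos t).le)]
  calc c ≤ max c 0 := le_max_left _ _
    _ = max c 0 * 1 := (mul_one _).symm
    _ ≤ _ := mul_le_mul_of_nonneg_left (one_le_E1 _) (le_max_right _ _)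

theorem N_Q' (c t : ℝ) : |t| ≤ N (Q c t : V a b) := t_le_N (Q c t : V a b)

/-- the factor `μ` -/
noncomputable def mu (v : V a b) (s : ℝ) : ℝ := 1 / max 1 (s * N v)

theorem mu_cont : Continuous fun p : V a b × ℝ => mu p.1 p.2 := by
  unfold mu
  refine Continuous.div continuous_const ?_ ?_
  · exact continuous_const.max (continuous_snd.mul (N_cont.comp continuous_fst))
  · intro p
    have : (1 : ℝ) ≤ max 1 (p.2 * N p.1) := le_max_left _ _
    positivity

/-- first coordinate of the far part of the push -/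
noncomputable def al (v : V a b) (s : ℝ) : ℝ := max s (M v) * mu v s ^ 2 + N v * mu v s * (1 - mu v s)

theorem al_cont : Continuous fun p : V a b × ℝ => al p.1 p.2 := by
  unfold al
  have h1 : Continuous fun p : V a b × ℝ => M p.1 := M_cont.comp continuous_fst
  have h2 : Continuous fun p : V a b × ℝ => N p.1 := N_cont.comp continuous_fst
  exact ((continuous_snd.max h1).mul (mu_cont.pow 2)).add
    ((h2.mul mu_cont).mul (continuous_const.sub mu_cont))

/-- the height of the near part of the push -/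
noncomputable def wn (v : V a b) (s : ℝ) : ℝ := max s (M v * max 0 (min 1 (2 * (s * N v) - 1)))

theorem wn_cont : Continuous fun p : V a b × ℝ => wn p.1 p.2 := by
  unfold wn
  have h1 : Continuous fun p : V a b × ℝ => M p.1 := M_cont.comp continuous_fst
  have h2 : Continuous fun p : V a b × ℝ => N p.1 := N_cont.comp continuous_fst
  exact continuous_snd.max (h1.mul (continuous_const.max (continuous_const.min
    ((continuous_const.mul (continuous_snd.mul h2)).sub continuous_const))))

open Classical in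
/-- the push on `V` -/
noncomputable def Hv (v : V a b) (s : ℝ) : V a b :=
  if s * N v ≤ 1 then rs v (wn v s) else Q (al v s) (v.1.2.2 * mu v s ^ 2)

theorem Hv_cont : Continuous fun p : V a b × ℝ => Hv p.1 p.2 := by
  unfold Hv
  have h2 : Continuous fun p : V a b × ℝ => N p.1 := N_cont.comp continuous_fst
  have h3 : Continuous fun p : V a b × ℝ => p.1.1.2.2 := v3_cont.comp continuous_fst
  refine Continuous.if_le (f := fun p : V a b × ℝ => p.2 * N p.1) (g := fun _ => (1:ℝ)) ?_ ?_
    (continuous_snd.mul h2) continuous_const ?_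
  · exact rs_cont.comp (continuous_fst.prodMk wn_cont)
  · exact Q_cont.comp (al_cont.prodMk (h3.mul (mu_cont.pow 2)))
  · intro p hp
    have hmu : mu p.1 p.2 = 1 := by unfold mu; rw [hp, max_self, div_one]
    have hwn : wn p.1 p.2 = max p.2 (M p.1) := by
      unfold wn
      rw [hp]
      norm_num
    have hal : al p.1 p.2 = max p.2 (M p.1) := by
      unfold al; rw [hmu]; ring
    rw [hwn, hal, hmu, rs_Q _ _ (le_max_right _ _), one_pow, mul_one]

theorem Hv_zero (v : V a b) : Hv v 0 = v := by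
  unfold Hv
  rw [zero_mul, if_pos zero_le_one]
  have : wn v 0 = 0 := by
    unfold wn
    rw [zero_mul]
    norm_num
  rw [this, rs_zero]

theorem mu_pos (v : V a b) (s : ℝ) : 0 < mu v s := by
  unfold mu
  have : (1 : ℝ) ≤ max 1 (s * N v) := le_max_left _ _
  positivity

theorem mu_le (v : V a b) (s : ℝ) : mu v s ≤ 1 := by
  unfold mu
  have : (1 : ℝ) ≤ max 1 (s * N v) := le_max_left _ _
  exact (div_le_one (by positivity)).2 this

theorem Hv_pos (v : V a b) {s : ℝ} (hs : 0 < s) : 0 < a.F (Hv v s).1.1 := by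
  unfold Hv
  split_ifs with h
  · show 0 < a.F (a.κ v.1.1 (wn v s * E1 v.1.2.2))
    rw [a.F_κ]
    refine lt_of_lt_of_le ?_ (le_max_right _ _)
    exact mul_pos (lt_of_lt_of_le hs (le_max_left _ _)) (E1_pos _)
  · have hN : 0 < N v := by
      by_contra hcon
      have : N v = 0 := le_antisymm (not_lt.1 hcon) (N_nonneg v)
      rw [this, mul_zero] at h
      exact h zero_le_one
    have h1 : mu v s < 1 := by
      unfold mu
      rw [div_lt_one (lt_of_lt_of_le one_pos (le_max_left _ _))]
      exact lt_of_lt_of_le (not_le.1 h) (le_max_right _ _)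
    have hal : 0 < al v s := by
      unfold al
      have e1 : 0 ≤ max s (M v) * mu v s ^ 2 := mul_nonneg (hs.le.trans (le_max_left _ _)) (sq_nonneg _)
      have e2 : 0 < N v * mu v s * (1 - mu v s) :=
        mul_pos (mul_pos hN (mu_pos v s)) (by linarith)
      linarith
    show 0 < a.F (a.q (max (al v s) 0 * E1 (v.1.2.2 * mu v s ^ 2)))
    rw [a.F_q _ (mul_nonneg (le_max_right _ _) (E1_pos _).le)]
    exact mul_pos (lt_of_lt_of_le hal (le_max_left _ _)) (E1_pos _)

/-- the push does not make the size much smaller -/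
theorem N_Hv (v : V a b) {s : ℝ} (hs : 0 < s) : min (N v) (1 / (2 * s)) ≤ N (Hv v s) := by
  unfold Hv
  split_ifs with h
  · exact (min_le_left _ _).trans (N_rs v _)
  · have h' : 1 < s * N v := not_le.1 h
    have hmax : max 1 (s * N v) = s * N v := max_eq_right h'.le
    have hN : 0 < N v := by
      by_contra hcon
      have : s * N v ≤ 0 := mul_nonpos_of_nonneg_of_nonpos hs.le (not_lt.1 hcon)
      linarith
    have hmu : N v * mu v s = 1 / s := by
      unfold mu; rw [hmax]; field_simp
    have hmu0 := mu_pos v s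
    have hmu1 := mu_le v s
    refine (min_le_right _ _).trans ?_
    have e1 : (1 / s) * (1 - mu v s) ≤ al v s := by
      unfold al
      rw [hmu]
      have : 0 ≤ max s (M v) * mu v s ^ 2 := mul_nonneg (hs.le.trans (le_max_left _ _)) (sq_nonneg _)
      linarith
    have hs2 : 1 / (2 * s) = (1 / s) / 2 := by field_simp
    have hs1 : 0 < 1 / s := by positivity
    rcases le_total (M v) |v.1.2.2| with hc | hc
    · have hNt : N v = |v.1.2.2| := max_eq_right hc
      have e2 : |v.1.2.2 * mu v s ^ 2| = (1 / s) * mu v s := by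
        rw [abs_mul, abs_of_nonneg (sq_nonneg (mu v s)), ← hNt, ← hmu]; ring
      rcases le_total (mu v s) (1/2) with hm | hm
      · refine le_trans ?_ ((e1).trans (N_Q _ _))
        rw [hs2]; nlinarith
      · refine le_trans ?_ (N_Q' (al v s) _)
        rw [e2, hs2]; nlinarith
    · have hNM : N v = M v := max_eq_left hc
      have e3 : 1 / s ≤ al v s := by
        unfold al
        rw [hmu]
        have : 1 / s * mu v s ≤ max s (M v) * mu v s ^ 2 := by
          rw [← hmu, hNM]
          have : M v ≤ max s (M v) := le_max_right _ _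
          nlinarith [sq_nonneg (mu v s)]
        linarith
      refine le_trans ?_ (e3.trans (N_Q _ _))
      rw [hs2]; linarith

end Two

end Pool.Agent.H872R2.ZB
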