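import Mathlib
import Pool.Agent.H872R2.ZB.Sys

set_option maxHeartbeats 4000000
set_option synthInstance.maxHeartbeats 400000

namespace Pool.Agent.H872R2.ZB

open Set Topology Filter Pool.Agent.Helper376.CL

section Two

variable {G Y P E G' Y' P' E' : Type} [Group G] [TopologicalSpace Y] [MulAction G Y]
  [TopologicalSpace P] [NormedAddCommGroup E] [NormedSpace ℝ E]
  [Group G'] [TopologicalSpace Y'] [MulAction G' Y']
  [TopologicalSpace P'] [NormedAddCommGroup E'] [NormedSpace ℝ E']
  {a : Sys G Y P E} {b : Sys G' Y' P' E'}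

/-- the inverse size on the one-point compactification -/
noncomputable def nu : OnePoint (V a b) → ℝ
  | none => 0
  | some v => 1 / (1 + N v)

theorem nu_coe (v : V a b) : nu (v : OnePoint (V a b)) = 1 / (1 + N v) := rfl
theorem nu_infty : nu (OnePoint.infty : OnePoint (V a b)) = 0 := rfl

theorem nu_nonneg (x : OnePoint (V a b)) : 0 ≤ nu x := by
  induction x using OnePoint.rec with
  | infty => exact le_rfl
  | coe v =>
    rw [nu_coe]
    have := N_nonneg v
    positivity

theorem isCompact_N (hT : T2Space P) (hT' : T2Space P') (R : ℝ) : IsCompact {v : V a b | N v ≤ R} := by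
  have hemb : IsClosedEmbedding (Subtype.val : V a b → P × P' × ℝ) := by
    apply IsClosed.isClosedEmbedding_subtypeVal
    exact isClosed_eq (a.F_cont.comp continuous_fst)
      ((Real.continuous_exp.comp (continuous_snd.comp continuous_snd)).mul
        (b.F_cont.comp (continuous_fst.comp continuous_snd)))
  have h1 : IsCompact ({x : P | a.m x ≤ R} ×ˢ ({x : P' | b.m x ≤ R} ×ˢ Icc (-R) R)) :=
    (a.cpt R).prod ((b.cpt R).prod isCompact_Icc)
  have h2 := hemb.isCompact_preimage h1
  have h3 : {v : V a b | N v ≤ R} = (Subtype.val : V a b → P × P' × ℝ) ⁻¹'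
      ({x : P | a.m x ≤ R} ×ˢ ({x : P' | b.m x ≤ R} ×ˢ Icc (-R) R)) := by
    apply Set.ext
    intro v
    constructor
    · intro h
      have h' : max (max (a.m v.1.1) (b.m v.1.2.1)) |v.1.2.2| ≤ R := h
      exact ⟨(le_max_left _ _).trans ((le_max_left _ _).trans h'),
        (le_max_right _ _).trans ((le_max_left _ _).trans h'), abs_le.1 ((le_max_right _ _).trans h')⟩
    · rintro ⟨k1, k2, k3⟩
      exact max_le (max_le k1 k2) (abs_le.2 k3)
  rw [h3]
  exact h2

theorem T2_V (hT : T2Space P) (hT' : T2Space P') : T2Space (V a b) :=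
  inferInstanceAs (T2Space {v : P × P' × ℝ // a.F v.1 = Real.exp v.2.2 * b.F v.2.1})

theorem nu_tendsto (hT : T2Space P) (hT' : T2Space P') :
    Tendsto (nu : OnePoint (V a b) → ℝ) (𝓝 OnePoint.infty) (𝓝 0) := by
  have := T2_V (a := a) (b := b) hT hT'
  rw [Metric.tendsto_nhds]
  intro ε hε
  have hC := isCompact_N (a := a) (b := b) hT hT' (1 / ε)
  have h1 : ((↑) '' {v : V a b | N v ≤ 1 / ε} : Set (OnePoint (V a b)))ᶜ ∈ 𝓝 (OnePoint.infty : OnePoint (V a b)) := by
    apply IsOpen.mem_nhds
    · rw [isOpen_compl_iff, OnePoint.isClosed_image_coe]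
      exact ⟨hC.isClosed, hC⟩
    · exact OnePoint.infty_notMem_image_coe
  filter_upwards [h1] with x hx
  induction x using OnePoint.rec with
  | infty => rw [nu_infty, dist_self]; exact hε
  | coe v =>
    rw [nu_coe, Real.dist_eq, sub_zero]
    have hv : ¬ N v ≤ 1 / ε := fun h => hx ⟨v, h, rfl⟩
    have h2 : 1 / ε < N v := not_le.1 hv
    have h3 : 0 < 1 + N v := by have := N_nonneg v; linarith
    rw [abs_of_pos (by positivity)]
    rw [div_lt_iff₀ h3]
    rw [div_lt_iff₀ hε] at h2
    nlinarith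

theorem tendsto_infty_of_nu {Z : Type} {l : Filter Z} {g : Z → OnePoint (V a b)}
    (h : Tendsto (fun z => nu (g z)) l (𝓝 0)) : Tendsto g l (𝓝 OnePoint.infty) := by
  rw [OnePoint.hasBasis_nhds_infty.tendsto_right_iff]
  rintro C ⟨hCc, hC⟩
  -- `N` is bounded on `C`
  obtain ⟨R, hR⟩ := (hC.image N_cont).bddAbove
  have h1 : ∀ᶠ z in l, nu (g z) < 1 / (1 + max R 0) := by
    have hp : (0 : ℝ) < 1 / (1 + max R 0) := by
      have : (0 : ℝ) ≤ max R 0 := le_max_right _ _
      positivity
    exact h.eventually (gt_mem_nhds hp)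
  filter_upwards [h1] with z hz
  generalize g z = x at hz
  induction x using OnePoint.rec with
  | infty => right; rfl
  | coe v =>
    left
    refine ⟨v, ?_, rfl⟩
    intro hv
    have h2 : N v ≤ R := hR ⟨v, hv, rfl⟩
    rw [nu_coe] at hz
    have h3 : 0 < 1 + N v := by have := N_nonneg v; linarith
    have h4 : 0 < 1 + max R 0 := by have : (0:ℝ) ≤ max R 0 := le_max_right _ _; linarith
    rw [div_lt_div_iff_of_pos_left one_pos h3 h4] at hz
    have : R ≤ max R 0 := le_max_left _ _
    linarith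

open Classical in
/-- the push on the compactification -/
noncomputable def Hx (x : OnePoint (V a b)) (s : ℝ) : OnePoint (V a b) :=
  match x with
  | some v => ((Hv v s : V a b) : OnePoint (V a b))
  | none => if s = 0 then OnePoint.infty else ((Q (1 / s) 0 : V a b) : OnePoint (V a b))

theorem Hx_coe (v : V a b) (s : ℝ) : Hx (v : OnePoint (V a b)) s = (Hv v s : V a b) := rfl
theorem Hx_infty_zero : Hx (OnePoint.infty : OnePoint (V a b)) 0 = OnePoint.infty := if_pos rfl
theorem Hx_infty {s : ℝ} (hs : s ≠ 0) :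
    Hx (OnePoint.infty : OnePoint (V a b)) s = ((Q (1 / s) 0 : V a b) : OnePoint (V a b)) := if_neg hs

theorem Hx_zero (x : OnePoint (V a b)) : Hx x 0 = x := by
  induction x using OnePoint.rec with
  | infty => exact Hx_infty_zero
  | coe v => rw [Hx_coe, Hv_zero]

/-- after a positive time the push is at a point of positive height -/
theorem Hx_pos (x : OnePoint (V a b)) {s : ℝ} (hs : 0 < s) :
    ∃ v : V a b, Hx x s = v ∧ 0 < a.F v.1.1 := by
  induction x using OnePoint.rec with
  | infty =>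
    refine ⟨_, Hx_infty hs.ne', ?_⟩
    show 0 < a.F (a.q (max (1 / s) 0 * E1 0))
    have h1 : 0 < max (1 / s) 0 := lt_of_lt_of_le (by positivity) (le_max_left _ _)
    rw [a.F_q _ (mul_nonneg h1.le (E1_pos _).le)]
    exact mul_pos h1 (E1_pos _)
  | coe v => exact ⟨_, Hx_coe v s, Hv_pos v hs⟩

theorem nu_le_of {v : V a b} {c : ℝ} (hc : 0 < c) (h : c ≤ N v) : nu (v : OnePoint (V a b)) ≤ 1 / c := by
  rw [nu_coe]
  exact one_div_le_one_div_of_le hc (by linarith)

theorem nu_Hx (x : OnePoint (V a b)) {s : ℝ} (hs : 0 ≤ s) : nu (Hx x s) ≤ max (nu x) (2 * s) := by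
  rcases hs.eq_or_lt with rfl | hs
  · rw [Hx_zero]; exact le_max_left _ _
  induction x using OnePoint.rec with
  | infty =>
    rw [Hx_infty hs.ne']
    refine le_trans (nu_le_of (c := 1 / s) (by positivity) (N_Q _ _)) ?_
    rw [one_div_one_div]
    exact le_trans (by linarith) (le_max_right _ _)
  | coe v =>
    rw [Hx_coe]
    have h1 := N_Hv v hs
    rcases min_le_iff.1 h1 with h2 | h2
    · refine le_trans ?_ (le_max_left _ _)
      rw [nu_coe, nu_coe]
      have := N_nonneg v
      exact one_div_le_one_div_of_le (by linarith) (by linarith)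
    · refine le_trans (nu_le_of (c := 1 / (2 * s)) (by positivity) h2) ?_
      rw [one_div_one_div]
      exact le_max_right _ _

/-- extension of `al` to the compactification -/
noncomputable def ax (x : OnePoint (V a b)) (s : ℝ) : ℝ :=
  match x with
  | some v => al v s
  | none => 1 / s

/-- extension of the third coordinate to the compactification -/
noncomputable def tx (x : OnePoint (V a b)) (s : ℝ) : ℝ :=
  match x with
  | some v => v.1.2.2 * mu v s ^ 2
  | none => 0

theorem mu_bound (v : V a b) {s : ℝ} (hs : 0 < s) (h : nu (v : OnePoint (V a b)) ≤ 1 / 2)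
    (hN : 1 < s * N v) :
    N v * mu v s = 1 / s ∧ mu v s ≤ 2 * nu (v : OnePoint (V a b)) / s := by
  have hmax : max 1 (s * N v) = s * N v := max_eq_right hN.le
  have hNp : 0 < N v := by
    by_contra hcon
    have : s * N v ≤ 0 := mul_nonpos_of_nonneg_of_nonpos hs.le (not_lt.1 hcon)
    linarith
  rw [nu_coe] at h ⊢
  rw [div_le_div_iff₀ (by linarith) (by norm_num)] at h
  refine ⟨by unfold mu; rw [hmax]; field_simp, ?_⟩
  unfold mu; rw [hmax]
  rw [div_le_div_iff₀ (by positivity) hs]
  have h3 : 2 * (1 / (1 + N v)) * (s * N v) = s * (2 * N v / (1 + N v)) := by ring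
  rw [h3, one_mul]
  have h4 : 1 ≤ 2 * N v / (1 + N v) := by rw [le_div_iff₀ (by linarith)]; linarith
  nlinarith

theorem ax_bound (x : OnePoint (V a b)) {s : ℝ} (hs : 0 < s) (hs1 : s ≤ 1) (h : nu x ≤ 1 / 2)
    (hN : nu x < s / (1 + s)) :
    |ax x s - 1 / s| ≤ 6 * nu x / s ^ 2 ∧ |tx x s| ≤ 2 * nu x / s ^ 2 ∧
      Hx x s = ((Q (ax x s) (tx x s) : V a b) : OnePoint (V a b)) := by
  have hn := nu_nonneg x
  induction x using OnePoint.rec with
  | infty =>
    refine ⟨?_, ?_, ?_⟩
    · show |1 / s - 1 / s| ≤ _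
      rw [sub_self, abs_zero]; positivity
    · show |(0:ℝ)| ≤ _
      rw [abs_zero]; positivity
    · exact Hx_infty hs.ne'
  | coe v =>
    have hN' : 1 < s * N v := by
      rw [nu_coe, div_lt_div_iff₀ (by have := N_nonneg v; linarith) (by linarith)] at hN
      linarith
    obtain ⟨e1, e2⟩ := mu_bound v hs h hN'
    have hmu0 := mu_pos v s
    have hmu1 := mu_le v s
    have hNn := N_nonneg v
    have hM := M_le_N v
    have hM0 := M_nonneg v
    set n := nu (v : OnePoint (V a b)) with hndef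
    set μ := mu v s with hμ
    have hs0 : 0 < s ^ 2 := by positivity
    refine ⟨?_, ?_, ?_⟩
    · have h1 : ax (v : OnePoint (V a b)) s - 1 / s = max s (M v) * μ ^ 2 - (1 / s) * μ := by
        show al v s - 1 / s = _
        unfold al
        rw [← hμ, e1]; ring
      have h2 : max s (M v) * μ ^ 2 ≤ (1 / s) * μ + μ := by
        have : max s (M v) ≤ s + N v := max_le (by linarith) (by linarith)
        have h3 : (s + N v) * μ ^ 2 = s * μ ^ 2 + (1 / s) * μ := by
          rw [← e1]; ring
        have h4 : s * μ ^ 2 ≤ μ := by nlinarith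
        have h5 : max s (M v) * μ ^ 2 ≤ (s + N v) * μ ^ 2 :=
          mul_le_mul_of_nonneg_right this (sq_nonneg _)
        linarith
      have h6 : 0 ≤ max s (M v) * μ ^ 2 := mul_nonneg (hs.le.trans (le_max_left _ _)) (sq_nonneg _)
      have h7 : 1 ≤ 1 / s := by rw [le_div_iff₀ hs]; linarith
      have h8 : μ ≤ (1 / s) * μ := by nlinarith
      have h9 : (1 / s) * μ ≤ 2 * n / s ^ 2 := by
        calc (1 / s) * μ ≤ (1 / s) * (2 * n / s) := mul_le_mul_of_nonneg_left e2 (by positivity)
          _ = 2 * n / s ^ 2 := by field_simp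
      have h10 : 6 * n / s ^ 2 = 3 * (2 * n / s ^ 2) := by ring
      have h11 : 0 ≤ (1 / s) * μ := by positivity
      rw [h1, h10, abs_le]
      constructor <;> linarith
    · show |v.1.2.2 * μ ^ 2| ≤ _
      have h1 : |v.1.2.2 * μ ^ 2| ≤ (1 / s) * μ := by
        rw [abs_mul, abs_of_nonneg (sq_nonneg μ), ← e1]
        have := t_le_N v
        nlinarith [sq_nonneg μ]
      refine h1.trans ?_
      calc (1 / s) * μ ≤ (1 / s) * (2 * n / s) := mul_le_mul_of_nonneg_left e2 (by positivity)
        _ = 2 * n / s ^ 2 := by field_simp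
    · show ((Hv v s : V a b) : OnePoint (V a b)) = _
      unfold Hv
      rw [if_neg (not_le.2 hN')]
      rfl

theorem Hx_cont (hT : T2Space P) (hT' : T2Space P') :
    ContinuousOn (Function.uncurry (Hx (a := a) (b := b))) (univ ×ˢ Icc (0:ℝ) 1) := by
  rintro ⟨x, s⟩ ⟨-, hs0, hs1⟩
  simp only at hs0 hs1
  induction x using OnePoint.rec with
  | coe v =>
    apply ContinuousAt.continuousWithinAt
    have hoe : IsOpenEmbedding (Prod.map ((↑) : V a b → OnePoint (V a b)) (id : ℝ → ℝ)) :=
      OnePoint.isOpenEmbedding_coe.prodMap IsOpenEmbedding.id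
    have h1 : ContinuousAt (Function.uncurry (Hx (a := a) (b := b)) ∘
        Prod.map ((↑) : V a b → OnePoint (V a b)) (id : ℝ → ℝ)) (v, s) := by
      have : (Function.uncurry (Hx (a := a) (b := b)) ∘
        Prod.map ((↑) : V a b → OnePoint (V a b)) (id : ℝ → ℝ)) =
        fun p : V a b × ℝ => ((Hv p.1 p.2 : V a b) : OnePoint (V a b)) := rfl
      rw [this]
      exact (OnePoint.continuous_coe.comp Hv_cont).continuousAt
    exact (hoe.continuousAt_iff (x := (v, s))).1 h1
  | infty =>
    rcases hs0.eq_or_lt with rfl | hs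
    · show Tendsto _ _ (𝓝 (Hx OnePoint.infty 0))
      rw [Hx_infty_zero]
      apply tendsto_infty_of_nu
      have h1 : Tendsto (fun z : OnePoint (V a b) × ℝ => max (nu z.1) (2 * z.2))
          (𝓝 ((OnePoint.infty : OnePoint (V a b)), (0:ℝ))) (𝓝 (max 0 (2 * 0))) := by
        rw [nhds_prod_eq]
        exact ((nu_tendsto hT hT').comp tendsto_fst).max (tendsto_const_nhds.mul tendsto_snd)
      rw [mul_zero, max_self] at h1
      refine squeeze_zero' (Eventually.of_forall fun z => nu_nonneg _) ?_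
        (h1.mono_left nhdsWithin_le_nhds)
      filter_upwards [self_mem_nhdsWithin] with z hz
      exact nu_Hx z.1 hz.2.1
    · show Tendsto _ _ (𝓝 (Hx OnePoint.infty s))
      rw [Hx_infty hs.ne']
      have hnu : Tendsto (fun z : OnePoint (V a b) × ℝ => nu z.1)
          (𝓝[univ ×ˢ Icc (0:ℝ) 1] ((OnePoint.infty : OnePoint (V a b)), s)) (𝓝 0) := by
        have : Tendsto (fun z : OnePoint (V a b) × ℝ => nu z.1)
          (𝓝 ((OnePoint.infty : OnePoint (V a b)), s)) (𝓝 0) := by
          rw [nhds_prod_eq]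
          exact (nu_tendsto hT hT').comp tendsto_fst
        exact this.mono_left nhdsWithin_le_nhds
      have hsn : Tendsto (fun z : OnePoint (V a b) × ℝ => z.2)
          (𝓝[univ ×ˢ Icc (0:ℝ) 1] ((OnePoint.infty : OnePoint (V a b)), s)) (𝓝 s) :=
        (continuous_snd.tendsto _).mono_left nhdsWithin_le_nhds
      have ev1 : ∀ᶠ z : OnePoint (V a b) × ℝ in
          𝓝[univ ×ˢ Icc (0:ℝ) 1] ((OnePoint.infty : OnePoint (V a b)), s), s / 2 < z.2 :=
        hsn.eventually (lt_mem_nhds (by linarith))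
      have ev2 : ∀ᶠ z : OnePoint (V a b) × ℝ in
          𝓝[univ ×ˢ Icc (0:ℝ) 1] ((OnePoint.infty : OnePoint (V a b)), s),
          nu z.1 < min (1 / 2) ((s / 2) / (1 + s / 2)) :=
        hnu.eventually (gt_mem_nhds (lt_min (by norm_num) (by positivity)))
      have ev3 : ∀ᶠ z : OnePoint (V a b) × ℝ in
          𝓝[univ ×ˢ Icc (0:ℝ) 1] ((OnePoint.infty : OnePoint (V a b)), s),
          |ax z.1 z.2 - 1 / z.2| ≤ 6 * nu z.1 / z.2 ^ 2 ∧ |tx z.1 z.2| ≤ 2 * nu z.1 / z.2 ^ 2 ∧
            Hx z.1 z.2 = ((Q (ax z.1 z.2) (tx z.1 z.2) : V a b) : OnePoint (V a b)) := by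
        filter_upwards [ev1, ev2, self_mem_nhdsWithin] with z h1 h2 h3
        have hz : 0 < z.2 := by linarith
        refine ax_bound z.1 hz h3.2.2 (h2.le.trans (min_le_left _ _)) ?_
        refine lt_of_lt_of_le h2 ((min_le_right _ _).trans ?_)
        rw [div_le_div_iff₀ (by positivity) (by positivity)]
        nlinarith
      have hax : Tendsto (fun z : OnePoint (V a b) × ℝ => ax z.1 z.2)
          (𝓝[univ ×ˢ Icc (0:ℝ) 1] ((OnePoint.infty : OnePoint (V a b)), s)) (𝓝 (1 / s)) := by
        have h1 : Tendsto (fun z : OnePoint (V a b) × ℝ => 1 / z.2)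
          (𝓝[univ ×ˢ Icc (0:ℝ) 1] ((OnePoint.infty : OnePoint (V a b)), s)) (𝓝 (1 / s)) :=
          tendsto_const_nhds.div hsn hs.ne'
        have h2 : Tendsto (fun z : OnePoint (V a b) × ℝ => 6 * nu z.1 / z.2 ^ 2)
          (𝓝[univ ×ˢ Icc (0:ℝ) 1] ((OnePoint.infty : OnePoint (V a b)), s)) (𝓝 0) := by
          have := (tendsto_const_nhds (x := (6:ℝ)).mul hnu).div (hsn.pow 2) (pow_ne_zero 2 hs.ne')
          rw [mul_zero, zero_div] at this
          exact this
        have h3 : Tendsto (fun z : OnePoint (V a b) × ℝ => ax z.1 z.2 - 1 / z.2)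
          (𝓝[univ ×ˢ Icc (0:ℝ) 1] ((OnePoint.infty : OnePoint (V a b)), s)) (𝓝 0) :=
          squeeze_zero_norm' (by filter_upwards [ev3] with z hz; exact hz.1) h2
        have h4 := h3.add h1
        simpa using h4
      have htx : Tendsto (fun z : OnePoint (V a b) × ℝ => tx z.1 z.2)
          (𝓝[univ ×ˢ Icc (0:ℝ) 1] ((OnePoint.infty : OnePoint (V a b)), s)) (𝓝 0) := by
        have h2 : Tendsto (fun z : OnePoint (V a b) × ℝ => 2 * nu z.1 / z.2 ^ 2)
          (𝓝[univ ×ˢ Icc (0:ℝ) 1] ((OnePoint.infty : OnePoint (V a b)), s)) (𝓝 0) := by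
          have := (tendsto_const_nhds (x := (2:ℝ)).mul hnu).div (hsn.pow 2) (pow_ne_zero 2 hs.ne')
          rw [mul_zero, zero_div] at this
          exact this
        exact squeeze_zero_norm' (by filter_upwards [ev3] with z hz; exact hz.2.1) h2
      have hQ : Tendsto (fun z : OnePoint (V a b) × ℝ =>
          ((Q (ax z.1 z.2) (tx z.1 z.2) : V a b) : OnePoint (V a b)))
          (𝓝[univ ×ˢ Icc (0:ℝ) 1] ((OnePoint.infty : OnePoint (V a b)), s))
          (𝓝 ((Q (1 / s) 0 : V a b) : OnePoint (V a b))) := by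
        have h1 : Continuous fun p : ℝ × ℝ => ((Q p.1 p.2 : V a b) : OnePoint (V a b)) :=
          OnePoint.continuous_coe.comp Q_cont
        exact (h1.tendsto (1 / s, 0)).comp (hax.prodMk_nhds htx)
      refine hQ.congr' ?_
      filter_upwards [ev3] with z hz
      exact hz.2.2.symm

end Two

end Pool.Agent.H872R2.ZB
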