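import Mathlib
import Pool.Agent.H872R2.ZB.Psh

set_option maxHeartbeats 4000000
set_option synthInstance.maxHeartbeats 400000

namespace Pool.Agent.H872R2.ZB

open Set Topology Filter Pool.Agent.Helper376.CL

section Theta

variable {E E' : Type} [NormedAddCommGroup E] [NormedSpace ℝ E]
  [NormedAddCommGroup E'] [NormedSpace ℝ E']

/-- an embedding vanishing at infinity -/
noncomputable def Th (z : E × E' × ℝ) : ℝ × E × E' × ℝ :=
  (1 + ‖z.1‖ ^ 2 + ‖z.2.1‖ ^ 2 + z.2.2 ^ 2)⁻¹ • ((1 : ℝ), z)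

theorem Th_cont : Continuous (Th : E × E' × ℝ → ℝ × E × E' × ℝ) := by
  have h1 : Continuous fun z : E × E' × ℝ => (1 + ‖z.1‖ ^ 2 + ‖z.2.1‖ ^ 2 + z.2.2 ^ 2) := by
    fun_prop
  have h2 : Continuous fun z : E × E' × ℝ => ((1 : ℝ), z) := continuous_const.prodMk continuous_id
  exact (h1.inv₀ (fun z => by positivity)).smul h2

theorem Th_norm (z : E × E' × ℝ) : ‖Th z‖ ≤ 2 / (1 + ‖z‖) := by
  unfold Th
  have hn := norm_nonneg z
  have h1 : ‖z‖ ^ 2 ≤ ‖z.1‖ ^ 2 + ‖z.2.1‖ ^ 2 + z.2.2 ^ 2 := by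
    have e1 : ‖z‖ = max ‖z.1‖ (max ‖z.2.1‖ |z.2.2|) := rfl
    have e2 := sq_nonneg ‖z.1‖
    have e3 := sq_nonneg ‖z.2.1‖
    have e4 := sq_nonneg z.2.2
    rcases max_choice ‖z.1‖ (max ‖z.2.1‖ |z.2.2|) with h | h
    · rw [e1, h]; linarith
    · rw [e1, h]
      rcases max_choice ‖z.2.1‖ |z.2.2| with h' | h'
      · rw [h']; linarith
      · rw [h', sq_abs]; linarith
  have h2 : ‖((1 : ℝ), z)‖ ≤ 1 + ‖z‖ := by
    rw [Prod.norm_def]
    exact max_le (by simp [hn]) (by simp)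
  rw [norm_smul, norm_inv, Real.norm_of_nonneg (by positivity)]
  have h3 : (1 + ‖z.1‖ ^ 2 + ‖z.2.1‖ ^ 2 + z.2.2 ^ 2)⁻¹ ≤ (1 + ‖z‖ ^ 2)⁻¹ := by
    apply inv_anti₀ (by positivity)
    linarith
  calc (1 + ‖z.1‖ ^ 2 + ‖z.2.1‖ ^ 2 + z.2.2 ^ 2)⁻¹ * ‖((1 : ℝ), z)‖
      ≤ (1 + ‖z‖ ^ 2)⁻¹ * (1 + ‖z‖) := mul_le_mul h3 h2 (norm_nonneg _) (by positivity)
    _ ≤ 2 / (1 + ‖z‖) := by
      rw [inv_mul_eq_div, div_le_div_iff₀ (by positivity) (by positivity)]
      nlinarith [sq_nonneg (1 - ‖z‖)]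

theorem Th_ne (z : E × E' × ℝ) : Th z ≠ 0 := by
  intro h
  have h1 : (Th z).1 = 0 := by rw [h]; rfl
  have h2 : (Th z).1 = (1 + ‖z.1‖ ^ 2 + ‖z.2.1‖ ^ 2 + z.2.2 ^ 2)⁻¹ * 1 := rfl
  rw [h2, mul_one] at h1
  have : (0 : ℝ) < (1 + ‖z.1‖ ^ 2 + ‖z.2.1‖ ^ 2 + z.2.2 ^ 2)⁻¹ := by positivity
  linarith

theorem Th_inj : Function.Injective (Th : E × E' × ℝ → ℝ × E × E' × ℝ) := by
  intro z w h
  have h1 : (Th z).1 = (Th w).1 := by rw [h]
  have h2 : (Th z).2 = (Th w).2 := by rw [h]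
  have e1 : (Th z).1 = (1 + ‖z.1‖ ^ 2 + ‖z.2.1‖ ^ 2 + z.2.2 ^ 2)⁻¹ * 1 := rfl
  have e2 : (Th w).1 = (1 + ‖w.1‖ ^ 2 + ‖w.2.1‖ ^ 2 + w.2.2 ^ 2)⁻¹ * 1 := rfl
  have e3 : (Th z).2 = (1 + ‖z.1‖ ^ 2 + ‖z.2.1‖ ^ 2 + z.2.2 ^ 2)⁻¹ • z := rfl
  have e4 : (Th w).2 = (1 + ‖w.1‖ ^ 2 + ‖w.2.1‖ ^ 2 + w.2.2 ^ 2)⁻¹ • w := rfl
  rw [mul_one] at e1 e2
  rw [← e1] at e3
  rw [← e2, ← h1] at e4
  rw [e3, e4] at h2
  have hpos : (0 : ℝ) < (Th z).1 := by rw [e1]; positivity
  exact smul_right_injective _ hpos.ne' h2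

theorem Th_unif [FiniteDimensional ℝ E] [FiniteDimensional ℝ E'] :
    UniformContinuous (Th : E × E' × ℝ → ℝ × E × E' × ℝ) := by
  have : ProperSpace (E × E' × ℝ) := FiniteDimensional.proper ℝ _
  refine Th_cont.uniformContinuous_of_tendsto_cocompact (x := 0) ?_
  refine squeeze_zero_norm (fun z => Th_norm z) ?_
  have h1 : Tendsto (fun z : E × E' × ℝ => ‖z‖) (cocompact _) atTop := tendsto_norm_cocompact_atTop
  exact Tendsto.div_atTop tendsto_const_nhds (tendsto_atTop_add_const_left _ _ h1)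

end Theta

/-- the product action -/
@[reducible] def prodAct (G Y G' Y' : Type) [Group G] [Group G'] [MulAction G Y] [MulAction G' Y'] :
    MulAction (G × G') (Y × Y') where
  smul g y := (g.1 • y.1, g.2 • y.2)
  one_smul y := by
    show ((1 : G) • y.1, (1 : G') • y.2) = y
    rw [one_smul, one_smul]
  mul_smul g h y := by
    show ((g.1 * h.1) • y.1, (g.2 * h.2) • y.2) = (g.1 • h.1 • y.1, g.2 • h.2 • y.2)
    rw [mul_smul, mul_smul]

section Two

variable {G Y P E G' Y' P' E' : Type} [Group G] [TopologicalSpace Y] [MulAction G Y]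
  [TopologicalSpace P] [NormedAddCommGroup E] [NormedSpace ℝ E]
  [Group G'] [TopologicalSpace Y'] [MulAction G' Y']
  [TopologicalSpace P'] [NormedAddCommGroup E'] [NormedSpace ℝ E']
  {a : Sys G Y P E} {b : Sys G' Y' P' E'}

theorem F_j_pos (a : Sys G Y P E) (y : Y) : 0 < a.F (a.j y) := by
  have : a.j y ∈ range a.j := ⟨y, rfl⟩
  rw [a.j_range] at this
  exact this

/-- the third coordinate -/
noncomputable def tj (a : Sys G Y P E) (b : Sys G' Y' P' E') (y : Y × Y') : ℝ :=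
  Real.log (a.F (a.j y.1)) - Real.log (b.F (b.j y.2))

/-- the space in `V` -/
noncomputable def J0 (a : Sys G Y P E) (b : Sys G' Y' P' E') (y : Y × Y') : V a b :=
  ⟨(a.j y.1, b.j y.2, tj a b y), by
    show a.F (a.j y.1) = Real.exp (tj a b y) * b.F (b.j y.2)
    unfold tj
    have h1 := F_j_pos a y.1
    have h2 := F_j_pos b y.2
    rw [Real.exp_sub, Real.exp_log h1, Real.exp_log h2]
    field_simp⟩

theorem tj_cont : Continuous (tj a b) := by
  unfold tj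
  refine Continuous.sub (Continuous.log ?_ ?_) (Continuous.log ?_ ?_)
  · exact a.F_cont.comp (a.j_emb.continuous.comp continuous_fst)
  · intro y; exact (F_j_pos a y.1).ne'
  · exact b.F_cont.comp (b.j_emb.continuous.comp continuous_snd)
  · intro y; exact (F_j_pos b y.2).ne'

theorem J0_emb : IsOpenEmbedding (J0 a b) := by
  have hc : Continuous (J0 a b) := by
    refine Continuous.subtype_mk ?_ _
    exact (a.j_emb.continuous.comp continuous_fst).prodMk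
      ((b.j_emb.continuous.comp continuous_snd).prodMk tj_cont)
  have hpr : Continuous fun v : V a b => (v.1.1, v.1.2.1) := v1_cont.prodMk v2_cont
  refine ⟨IsEmbedding.of_comp hc hpr (a.j_emb.prodMap b.j_emb).isEmbedding, ?_⟩
  have : range (J0 a b) = {v : V a b | 0 < a.F v.1.1} := by
    ext v
    constructor
    · rintro ⟨y, rfl⟩
      exact F_j_pos a y.1
    · intro hv
      have hv' : 0 < a.F v.1.1 := hv
      have h1 : v.1.1 ∈ range a.j := by rw [a.j_range]; exact hv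
      have h2 : 0 < b.F v.1.2.1 := by
        have := v.2
        rw [this] at hv'
        exact (mul_pos_iff_of_pos_left (Real.exp_pos _)).1 hv'
      have h3 : v.1.2.1 ∈ range b.j := by rw [b.j_range]; exact h2
      obtain ⟨y, hy⟩ := h1
      obtain ⟨y', hy'⟩ := h3
      refine ⟨(y, y'), ?_⟩
      apply Subtype.ext
      show (a.j y, b.j y', Real.log (a.F (a.j y)) - Real.log (b.F (b.j y'))) = v.1
      rw [hy, hy', v.2, Real.log_mul (Real.exp_pos _).ne' h2.ne', Real.log_exp, add_sub_cancel_right]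
  rw [this]
  exact isOpen_lt continuous_const (a.F_cont.comp v1_cont)


/-- the embedding of the interior -/
noncomputable def JJ (a : Sys G Y P E) (b : Sys G' Y' P' E') (y : Y × Y') : OnePoint (V a b) :=
  (J0 a b y : V a b)

theorem JJ_emb : IsOpenEmbedding (JJ a b) := OnePoint.isOpenEmbedding_coe.comp J0_emb

theorem range_J0 : range (J0 a b) = {v : V a b | 0 < a.F v.1.1} := by
  ext v
  constructor
  · rintro ⟨y, rfl⟩
    exact F_j_pos a y.1
  · intro hv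
    have hv' : 0 < a.F v.1.1 := hv
    have h1 : v.1.1 ∈ range a.j := by rw [a.j_range]; exact hv
    have h2 : 0 < b.F v.1.2.1 := by
      have := v.2
      rw [this] at hv'
      exact (mul_pos_iff_of_pos_left (Real.exp_pos _)).1 hv'
    have h3 : v.1.2.1 ∈ range b.j := by rw [b.j_range]; exact h2
    obtain ⟨y, hy⟩ := h1
    obtain ⟨y', hy'⟩ := h3
    refine ⟨(y, y'), ?_⟩
    apply Subtype.ext
    show (a.j y, b.j y', Real.log (a.F (a.j y)) - Real.log (b.F (b.j y'))) = v.1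
    rw [hy, hy', v.2, Real.log_mul (Real.exp_pos _).ne' h2.ne', Real.log_exp, add_sub_cancel_right]

theorem mem_range_JJ {v : V a b} (h : 0 < a.F v.1.1) : (v : OnePoint (V a b)) ∈ range (JJ a b) := by
  have : v ∈ range (J0 a b) := by rw [range_J0]; exact h
  obtain ⟨y, rfl⟩ := this
  exact ⟨y, rfl⟩

/-- the embedding of the compactification -/
noncomputable def Ph : OnePoint (V a b) → ℝ × E × E' × ℝ
  | none => 0
  | some v => Th (a.e v.1.1, b.e v.1.2.1, v.1.2.2)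

theorem Ph_norm (x : OnePoint (V a b)) : ‖Ph x‖ ≤ 2 * nu x := by
  induction x using OnePoint.rec with
  | infty =>
    show ‖(0 : ℝ × E × E' × ℝ)‖ ≤ 2 * nu _
    rw [norm_zero, nu_infty, mul_zero]
  | coe v =>
    refine (Th_norm _).trans ?_
    rw [nu_coe]
    have h1 : N v ≤ ‖(a.e v.1.1, b.e v.1.2.1, v.1.2.2)‖ := by
      refine max_le (max_le ?_ ?_) ?_
      · exact (a.m_le_e _).trans (norm_fst_le (a.e v.1.1, b.e v.1.2.1, v.1.2.2))
      · exact (b.m_le_e _).trans ((norm_fst_le (b.e v.1.2.1, v.1.2.2)).trans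
          (norm_snd_le (a.e v.1.1, b.e v.1.2.1, v.1.2.2)))
      · exact (norm_snd_le (b.e v.1.2.1, v.1.2.2)).trans
          (norm_snd_le (a.e v.1.1, b.e v.1.2.1, v.1.2.2))
    have h2 := N_nonneg v
    rw [mul_one_div]
    exact div_le_div_of_nonneg_left (by norm_num) (by linarith) (by linarith)

theorem Ph_cont (hT : T2Space P) (hT' : T2Space P') :
    Continuous (Ph : OnePoint (V a b) → ℝ × E × E' × ℝ) := by
  rw [continuous_iff_continuousAt]
  intro x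
  induction x using OnePoint.rec with
  | infty =>
    show Tendsto _ _ (𝓝 (0 : ℝ × E × E' × ℝ))
    refine squeeze_zero_norm Ph_norm ?_
    have := (nu_tendsto (a := a) (b := b) hT hT').const_mul 2
    rwa [mul_zero] at this
  | coe v =>
    rw [OnePoint.continuousAt_coe]
    have : Continuous fun v : V a b => Th (a.e v.1.1, b.e v.1.2.1, v.1.2.2) :=
      Th_cont.comp ((a.e_cont.comp v1_cont).prodMk ((b.e_cont.comp v2_cont).prodMk v3_cont))
    exact this.continuousAt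

theorem Ph_inj : Function.Injective (Ph : OnePoint (V a b) → ℝ × E × E' × ℝ) := by
  intro x y h
  induction x using OnePoint.rec with
  | infty =>
    induction y using OnePoint.rec with
    | infty => rfl
    | coe v => exact absurd h.symm (Th_ne _)
  | coe v =>
    induction y using OnePoint.rec with
    | infty => exact absurd h (Th_ne _)
    | coe w =>
      have h1 := Th_inj h
      have e1 : a.e v.1.1 = a.e w.1.1 := congrArg Prod.fst h1
      have e2 : b.e v.1.2.1 = b.e w.1.2.1 := congrArg (fun z => z.2.1) h1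
      have e3 : v.1.2.2 = w.1.2.2 := congrArg (fun z => z.2.2) h1
      congr 1
      apply Subtype.ext
      exact Prod.ext (a.e_inj e1) (Prod.ext (b.e_inj e2) e3)

/-- the nullity condition -/
theorem null_prod [FiniteDimensional ℝ E] [FiniteDimensional ℝ E'] (K : Set (Y × Y'))
    (hK : IsCompact K) (ε : ℝ) (hε : 0 < ε) :
    {g : G × G' | ∃ p ∈ K, ∃ q ∈ K, ε ≤ dist (Ph (JJ a b (g.1 • p.1, g.2 • p.2)))
      (Ph (JJ a b (g.1 • q.1, g.2 • q.2)))}.Finite := by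
  have hK1 : IsCompact (Prod.fst '' K) := hK.image continuous_fst
  have hK2 : IsCompact (Prod.snd '' K) := hK.image continuous_snd
  obtain ⟨δ, hδ, hu⟩ := Metric.uniformContinuous_iff.1 (Th_unif (E := E) (E' := E')) ε hε
  set R : ℝ := 4 / ε with hR
  have hRpos : 0 < R := by positivity
  have hnorm : ∀ z : E × E' × ℝ, ε / 2 ≤ ‖Th z‖ → ‖z‖ ≤ R := by
    intro z hz
    have h1 := hz.trans (Th_norm z)
    have hn := norm_nonneg z
    rw [div_le_div_iff₀ (by norm_num) (by linarith)] at h1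
    rw [hR, le_div_iff₀ hε]
    nlinarith
  set δ' : ℝ := δ / 3 with hδ'
  have hδ'p : 0 < δ' := by positivity
  set X1 := {g : G | ∃ p ∈ Prod.fst '' K, a.m (a.j (g • p)) ≤ R ∧ ∃ p' ∈ Prod.fst '' K,
      δ' ≤ dist (a.e (a.j (g • p))) (a.e (a.j (g • p'))) ∨
      δ' ≤ |Real.log (a.F (a.j (g • p))) - Real.log (a.F (a.j (g • p')))|} with hX1
  set X2 := {g : G' | ∃ p ∈ Prod.snd '' K, b.m (b.j (g • p)) ≤ R ∧ ∃ p' ∈ Prod.snd '' K,
      δ' ≤ dist (b.e (b.j (g • p))) (b.e (b.j (g • p'))) ∨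
      δ' ≤ |Real.log (b.F (b.j (g • p))) - Real.log (b.F (b.j (g • p')))|} with hX2
  have hf1 : X1.Finite := a.null _ hK1 δ' hδ'p R
  have hf2 : X2.Finite := b.null _ hK2 δ' hδ'p R
  -- the sets of partners
  have hZ2 : ∀ g : G, {g' : G' | ∃ p ∈ K, ‖(a.e (a.j (g • p.1)), b.e (b.j (g' • p.2)),
      tj a b (g • p.1, g' • p.2))‖ ≤ R}.Finite := by
    intro g
    rcases K.eq_empty_or_nonempty with hne | hne
    · have : {g' : G' | ∃ p ∈ K, ‖(a.e (a.j (g • p.1)), b.e (b.j (g' • p.2)),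
          tj a b (g • p.1, g' • p.2))‖ ≤ R} = ∅ := by
        apply Set.eq_empty_of_forall_notMem
        rintro g' ⟨p, hp, -⟩
        rw [hne] at hp
        exact hp
      rw [this]; exact Set.finite_empty
    have hcF : Continuous fun y : Y => Real.log (a.F (a.j (g • y))) := by
      refine Continuous.log (a.F_cont.comp (a.j_emb.continuous.comp (a.smul_cont g))) ?_
      intro y; exact (F_j_pos a _).ne'
    obtain ⟨c, hc⟩ := (hK1.image hcF).bddBelow
    have hC : IsCompact (b.j ⁻¹' {x | b.m x ≤ R ∧ Real.exp (c - R) ≤ b.F x}) := by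
      rw [b.j_emb.isEmbedding.isCompact_iff, image_preimage_eq_inter_range, b.j_range]
      have h1 : IsCompact ({x : P' | b.m x ≤ R} ∩ {x | Real.exp (c - R) ≤ b.F x}) :=
        (b.cpt R).inter_right (isClosed_le continuous_const b.F_cont)
      have h2 : {x : P' | b.m x ≤ R ∧ Real.exp (c - R) ≤ b.F x} ∩ {x | 0 < b.F x} =
          {x : P' | b.m x ≤ R} ∩ {x | Real.exp (c - R) ≤ b.F x} := by
        ext x
        constructor
        · rintro ⟨⟨h1, h2⟩, -⟩; exact ⟨h1, h2⟩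
        · rintro ⟨h1, h2⟩; exact ⟨⟨h1, h2⟩, lt_of_lt_of_le (Real.exp_pos _) h2⟩
      rw [h2]; exact h1
    refine (b.proper _ _ hK2 hC).subset ?_
    rintro g' ⟨p, hp, hpR⟩
    have n1 : ‖b.e (b.j (g' • p.2))‖ ≤ R := ((norm_fst_le (b.e (b.j (g' • p.2)),
      tj a b (g • p.1, g' • p.2))).trans (norm_snd_le (a.e (a.j (g • p.1)), b.e (b.j (g' • p.2)),
      tj a b (g • p.1, g' • p.2)))).trans hpR
    have n2 : |tj a b (g • p.1, g' • p.2)| ≤ R := ((norm_snd_le (b.e (b.j (g' • p.2)),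
      tj a b (g • p.1, g' • p.2))).trans (norm_snd_le (a.e (a.j (g • p.1)), b.e (b.j (g' • p.2)),
      tj a b (g • p.1, g' • p.2)))).trans hpR
    refine ⟨p.2, ⟨p, hp, rfl⟩, (b.m_le_e _).trans n1, ?_⟩
    have h3 : c ≤ Real.log (a.F (a.j (g • p.1))) := hc ⟨p.1, ⟨p, hp, rfl⟩, rfl⟩
    have h4 := (abs_le.1 n2).2
    unfold tj at h4
    have h5 := F_j_pos b (g' • p.2)
    show Real.exp (c - R) ≤ b.F (b.j (g' • p.2))
    rw [← Real.le_log_iff_exp_le h5]
    linarith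
  have hZ1 : ∀ g' : G', {g : G | ∃ p ∈ K, ‖(a.e (a.j (g • p.1)), b.e (b.j (g' • p.2)),
      tj a b (g • p.1, g' • p.2))‖ ≤ R}.Finite := by
    intro g'
    rcases K.eq_empty_or_nonempty with hne | hne
    · have : {g : G | ∃ p ∈ K, ‖(a.e (a.j (g • p.1)), b.e (b.j (g' • p.2)),
          tj a b (g • p.1, g' • p.2))‖ ≤ R} = ∅ := by
        apply Set.eq_empty_of_forall_notMem
        rintro g ⟨p, hp, -⟩
        rw [hne] at hp
        exact hp
      rw [this]; exact Set.finite_empty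
    have hcF : Continuous fun y : Y' => Real.log (b.F (b.j (g' • y))) := by
      refine Continuous.log (b.F_cont.comp (b.j_emb.continuous.comp (b.smul_cont g'))) ?_
      intro y; exact (F_j_pos b _).ne'
    obtain ⟨c, hc⟩ := (hK2.image hcF).bddBelow
    have hC : IsCompact (a.j ⁻¹' {x | a.m x ≤ R ∧ Real.exp (c - R) ≤ a.F x}) := by
      rw [a.j_emb.isEmbedding.isCompact_iff, image_preimage_eq_inter_range, a.j_range]
      have h1 : IsCompact ({x : P | a.m x ≤ R} ∩ {x | Real.exp (c - R) ≤ a.F x}) :=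
        (a.cpt R).inter_right (isClosed_le continuous_const a.F_cont)
      have h2 : {x : P | a.m x ≤ R ∧ Real.exp (c - R) ≤ a.F x} ∩ {x | 0 < a.F x} =
          {x : P | a.m x ≤ R} ∩ {x | Real.exp (c - R) ≤ a.F x} := by
        ext x
        constructor
        · rintro ⟨⟨h1, h2⟩, -⟩; exact ⟨h1, h2⟩
        · rintro ⟨h1, h2⟩; exact ⟨⟨h1, h2⟩, lt_of_lt_of_le (Real.exp_pos _) h2⟩
      rw [h2]; exact h1
    refine (a.proper _ _ hK1 hC).subset ?_
    rintro g ⟨p, hp, hpR⟩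
    have n1 : ‖a.e (a.j (g • p.1))‖ ≤ R := (norm_fst_le (a.e (a.j (g • p.1)), b.e (b.j (g' • p.2)),
      tj a b (g • p.1, g' • p.2))).trans hpR
    have n2 : |tj a b (g • p.1, g' • p.2)| ≤ R := ((norm_snd_le (b.e (b.j (g' • p.2)),
      tj a b (g • p.1, g' • p.2))).trans (norm_snd_le (a.e (a.j (g • p.1)), b.e (b.j (g' • p.2)),
      tj a b (g • p.1, g' • p.2)))).trans hpR
    refine ⟨p.1, ⟨p, hp, rfl⟩, (a.m_le_e _).trans n1, ?_⟩
    have h3 : c ≤ Real.log (b.F (b.j (g' • p.2))) := hc ⟨p.2, ⟨p, hp, rfl⟩, rfl⟩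
    have h4 := (abs_le.1 n2).1
    unfold tj at h4
    have h5 := F_j_pos a (g • p.1)
    show Real.exp (c - R) ≤ a.F (a.j (g • p.1))
    rw [← Real.le_log_iff_exp_le h5]
    linarith
  -- everything bad is contained in a finite set
  have hfin : ((⋃ g ∈ X1, ({g} : Set G) ×ˢ {g' : G' | ∃ p ∈ K, ‖(a.e (a.j (g • p.1)),
      b.e (b.j (g' • p.2)), tj a b (g • p.1, g' • p.2))‖ ≤ R}) ∪
      (⋃ g' ∈ X2, {g : G | ∃ p ∈ K, ‖(a.e (a.j (g • p.1)), b.e (b.j (g' • p.2)),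
      tj a b (g • p.1, g' • p.2))‖ ≤ R} ×ˢ ({g'} : Set G'))).Finite := by
    refine Set.Finite.union ?_ ?_
    · exact hf1.biUnion fun g _ => (Set.finite_singleton g).prod (hZ2 g)
    · exact hf2.biUnion fun g' _ => (hZ1 g').prod (Set.finite_singleton g')
  refine hfin.subset ?_
  -- reduce to the case where the first point is not close to infinity
  have key : ∀ g : G × G', ∀ p ∈ K, ∀ q ∈ K, ε ≤ dist (Ph (JJ a b (g.1 • p.1, g.2 • p.2)))
      (Ph (JJ a b (g.1 • q.1, g.2 • q.2))) → ε / 2 ≤ ‖Ph (JJ a b (g.1 • p.1, g.2 • p.2))‖ →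
      g ∈ ((⋃ g ∈ X1, ({g} : Set G) ×ˢ {g' : G' | ∃ p ∈ K, ‖(a.e (a.j (g • p.1)),
      b.e (b.j (g' • p.2)), tj a b (g • p.1, g' • p.2))‖ ≤ R}) ∪
      (⋃ g' ∈ X2, {g : G | ∃ p ∈ K, ‖(a.e (a.j (g • p.1)), b.e (b.j (g' • p.2)),
      tj a b (g • p.1, g' • p.2))‖ ≤ R} ×ˢ ({g'} : Set G'))) := by
    intro g p hp q hq hd hn
    have hz : ‖(a.e (a.j (g.1 • p.1)), b.e (b.j (g.2 • p.2)), tj a b (g.1 • p.1, g.2 • p.2))‖ ≤ R :=
      hnorm _ hn
    by_cases h1 : g.1 ∈ X1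
    · left
      rw [mem_iUnion₂]
      exact ⟨g.1, h1, rfl, p, hp, hz⟩
    by_cases h2 : g.2 ∈ X2
    · right
      rw [mem_iUnion₂]
      exact ⟨g.2, h2, ⟨p, hp, hz⟩, rfl⟩
    exfalso
    have n1 : a.m (a.j (g.1 • p.1)) ≤ R := (a.m_le_e _).trans ((norm_fst_le (a.e (a.j (g.1 • p.1)),
      b.e (b.j (g.2 • p.2)), tj a b (g.1 • p.1, g.2 • p.2))).trans hz)
    have n2 : b.m (b.j (g.2 • p.2)) ≤ R := (b.m_le_e _).trans (((norm_fst_le (b.e (b.j (g.2 • p.2)),
      tj a b (g.1 • p.1, g.2 • p.2))).trans (norm_snd_le (a.e (a.j (g.1 • p.1)), b.e (b.j (g.2 • p.2)),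
      tj a b (g.1 • p.1, g.2 • p.2)))).trans hz)
    have c1 : dist (a.e (a.j (g.1 • p.1))) (a.e (a.j (g.1 • q.1))) < δ' ∧
        |Real.log (a.F (a.j (g.1 • p.1))) - Real.log (a.F (a.j (g.1 • q.1)))| < δ' := by
      constructor
      · by_contra hcon
        exact h1 ⟨p.1, ⟨p, hp, rfl⟩, n1, q.1, ⟨q, hq, rfl⟩, Or.inl (not_lt.1 hcon)⟩
      · by_contra hcon
        exact h1 ⟨p.1, ⟨p, hp, rfl⟩, n1, q.1, ⟨q, hq, rfl⟩, Or.inr (not_lt.1 hcon)⟩
    have c2 : dist (b.e (b.j (g.2 • p.2))) (b.e (b.j (g.2 • q.2))) < δ' ∧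
        |Real.log (b.F (b.j (g.2 • p.2))) - Real.log (b.F (b.j (g.2 • q.2)))| < δ' := by
      constructor
      · by_contra hcon
        exact h2 ⟨p.2, ⟨p, hp, rfl⟩, n2, q.2, ⟨q, hq, rfl⟩, Or.inl (not_lt.1 hcon)⟩
      · by_contra hcon
        exact h2 ⟨p.2, ⟨p, hp, rfl⟩, n2, q.2, ⟨q, hq, rfl⟩, Or.inr (not_lt.1 hcon)⟩
    have hd' : dist (Ph (JJ a b (g.1 • p.1, g.2 • p.2))) (Ph (JJ a b (g.1 • q.1, g.2 • q.2))) < ε := by
      show dist (Th (a.e (a.j (g.1 • p.1)), b.e (b.j (g.2 • p.2)), tj a b (g.1 • p.1, g.2 • p.2)))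
        (Th (a.e (a.j (g.1 • q.1)), b.e (b.j (g.2 • q.2)), tj a b (g.1 • q.1, g.2 • q.2))) < ε
      apply hu
      rw [Prod.dist_eq, Prod.dist_eq]
      refine max_lt (by show dist _ _ < δ; linarith [c1.1]) (max_lt (by show dist _ _ < δ; linarith [c2.1]) ?_)
      show dist (tj a b (g.1 • p.1, g.2 • p.2)) (tj a b (g.1 • q.1, g.2 • q.2)) < δ
      rw [Real.dist_eq]
      unfold tj
      have k1 := abs_lt.1 c1.2
      have k2 := abs_lt.1 c2.2
      simp only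
      rw [abs_lt]
      constructor <;> linarith [k1.1, k1.2, k2.1, k2.2]
    exact absurd hd (not_le.2 hd')
  rintro g ⟨p, hp, q, hq, hd⟩
  rcases le_total (ε / 2) ‖Ph (JJ a b (g.1 • p.1, g.2 • p.2))‖ with h | h
  · exact key g p hp q hq hd h
  · refine key g q hq p hp (by rwa [dist_comm]) ?_
    have : dist (Ph (JJ a b (g.1 • p.1, g.2 • p.2))) (Ph (JJ a b (g.1 • q.1, g.2 • q.2))) ≤
        ‖Ph (JJ a b (g.1 • p.1, g.2 • p.2))‖ + ‖Ph (JJ a b (g.1 • q.1, g.2 • q.2))‖ := by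
      rw [dist_eq_norm]; exact norm_sub_le _ _
    linarith

/-- the main theorem on systems -/
theorem isZBoundary_sys [FiniteDimensional ℝ E] [FiniteDimensional ℝ E'] (hT : T2Space P)
    (hT' : T2Space P') : IsZBoundary (G × G') ↥((range (JJ a b))ᶜ) := by
  let _ := prodAct G Y G' Y'
  have hO : IsAE ↥(range (JJ a b)) := by
    have e : (Y × Y') ≃ₜ ↥(range (JJ a b)) := (JJ_emb (a := a) (b := b)).isEmbedding.toHomeomorph
    exact isAE_retract e.symm e e.symm.continuous e.continuous (fun y => e.apply_symm_apply y)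
      (isAE_prod a.ae b.ae)
  have hpush : ∀ (x : OnePoint (V a b)) (t : ℝ), 0 < t → t ≤ 1 → Hx x t ∈ range (JJ a b) := by
    intro x t h0 _
    obtain ⟨v, hv, hpos⟩ := Hx_pos x h0
    rw [hv]
    exact mem_range_JJ hpos
  obtain ⟨K₀, hK₀, hc₀⟩ := a.coc
  obtain ⟨K₁, hK₁, hc₁⟩ := b.coc
  refine isZBoundary_of (G := G × G') (S := (range (JJ a b))ᶜ) (JJ_emb.isOpen_range.isClosed_compl)
    Ph (Ph_cont hT hT') Ph_inj (range (JJ a b)) hO
    Hx (Hx_cont hT hT') Hx_zero hpush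
    Hx (Hx_cont hT hT') Hx_zero (fun x t h0 h1 hx => hx (hpush x t h0 h1))
    (Y := Y × Y') (JJ a b) JJ_emb (by rw [compl_compl]) ?_ ?_ (K₀ ×ˢ K₁) (hK₀.prod hK₁) ?_ ?_
  · intro g
    exact ((a.smul_cont g.1).comp continuous_fst).prodMk ((b.smul_cont g.2).comp continuous_snd)
  · intro y
    obtain ⟨U, hU, hyU, hd⟩ := a.cov y.1
    obtain ⟨U', hU', hyU', hd'⟩ := b.cov y.2
    refine ⟨U ×ˢ U', hU.prod hU', ⟨hyU, hyU'⟩, ?_⟩
    intro g hg
    rw [Set.disjoint_left]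
    rintro _ ⟨z, hz, rfl⟩ hz'
    by_cases h1 : g.1 = 1
    · have h2 : g.2 ≠ 1 := fun h => hg (Prod.ext h1 h)
      exact Set.disjoint_left.1 (hd' g.2 h2) ⟨z.2, hz.2, rfl⟩ hz'.2
    · exact Set.disjoint_left.1 (hd g.1 h1) ⟨z.1, hz.1, rfl⟩ hz'.1
  · intro y
    obtain ⟨g, hg⟩ := hc₀ y.1
    obtain ⟨g', hg'⟩ := hc₁ y.2
    exact ⟨(g, g'), hg, hg'⟩
  · intro K hK ε hε
    exact null_prod K hK ε hε

end Two

end Pool.Agent.H872R2.ZB
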