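import Mathlib
import Pool.Agent.H872R2.ZB.Prd

set_option maxHeartbeats 4000000
set_option synthInstance.maxHeartbeats 400000

namespace Pool.Agent.H872R2.ZB

open Set Topology Filter Pool.Agent.Helper376.CL

section Two

variable {G Y P E G' Y' P' E' : Type} [Group G] [TopologicalSpace Y] [MulAction G Y]
  [TopologicalSpace P] [NormedAddCommGroup E] [NormedSpace ℝ E]
  [Group G'] [TopologicalSpace Y'] [MulAction G' Y']
  [TopologicalSpace P'] [NormedAddCommGroup E'] [NormedSpace ℝ E']

/-- the boundary of a system -/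
abbrev Bd (a : Sys G Y P E) : Type := {x : P // a.F x = 0}

variable {a : Sys G Y P E} {b : Sys G' Y' P' E'}

/-- the boundary in `V` -/
noncomputable def bv (z : Bd a × Bd b × ℝ) : V a b :=
  ⟨(z.1.1, z.2.1.1, z.2.2), by
    show a.F z.1.1 = Real.exp z.2.2 * b.F z.2.1.1
    rw [z.1.2, z.2.1.2, mul_zero]⟩

theorem bv_emb : IsClosedEmbedding (bv : Bd a × Bd b × ℝ → V a b) := by
  have hc : Continuous (bv : Bd a × Bd b × ℝ → V a b) := by
    refine Continuous.subtype_mk ?_ _
    exact (continuous_subtype_val.comp continuous_fst).prodMk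
      ((continuous_subtype_val.comp (continuous_fst.comp continuous_snd)).prodMk
        (continuous_snd.comp continuous_snd))
  have h1 : IsEmbedding (Prod.map Subtype.val (Prod.map Subtype.val id) :
      Bd a × Bd b × ℝ → P × P' × ℝ) :=
    IsEmbedding.subtypeVal.prodMap (IsEmbedding.subtypeVal.prodMap IsEmbedding.id)
  refine ⟨IsEmbedding.of_comp hc continuous_subtype_val h1, ?_⟩
  have : range (bv : Bd a × Bd b × ℝ → V a b) = {v : V a b | a.F v.1.1 = 0} := by
    apply Set.ext
    intro v
    constructor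
    · rintro ⟨z, rfl⟩
      exact z.1.2
    · intro hv
      have hv' : a.F v.1.1 = 0 := hv
      have h2 : b.F v.1.2.1 = 0 := by
        have := v.2
        rw [hv'] at this
        rcases mul_eq_zero.1 this.symm with h | h
        · exact absurd h (Real.exp_pos _).ne'
        · exact h
      exact ⟨(⟨v.1.1, hv'⟩, ⟨v.1.2.1, h2⟩, v.1.2.2), rfl⟩
  rw [this]
  exact isClosed_eq (a.F_cont.comp v1_cont) continuous_const

theorem mem_compl_range (x : OnePoint (V a b)) : x ∈ (range (JJ a b))ᶜ ↔
    x = OnePoint.infty ∨ ∃ z : Bd a × Bd b × ℝ, x = (bv z : V a b) := by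
  constructor
  · intro hx
    induction x using OnePoint.rec with
    | infty => left; rfl
    | coe v =>
      right
      have h1 : ¬ 0 < a.F v.1.1 := fun h => hx (mem_range_JJ h)
      have h2 : a.F v.1.1 = 0 := le_antisymm (not_lt.1 h1) (a.F_nonneg _)
      have h3 : b.F v.1.2.1 = 0 := by
        have := v.2
        rw [h2] at this
        rcases mul_eq_zero.1 this.symm with h | h
        · exact absurd h (Real.exp_pos _).ne'
        · exact h
      exact ⟨(⟨v.1.1, h2⟩, ⟨v.1.2.1, h3⟩, v.1.2.2), rfl⟩
  · rintro (rfl | ⟨z, rfl⟩)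
    · rintro ⟨y, hy⟩
      exact OnePoint.coe_ne_infty _ hy
    · rintro ⟨y, hy⟩
      have h1 : (J0 a b y : V a b) = bv z := OnePoint.coe_injective hy
      have h2 : 0 < a.F (J0 a b y).1.1 := F_j_pos a y.1
      rw [h1] at h2
      have h3 : a.F (bv z : V a b).1.1 = 0 := z.1.2
      linarith

theorem nonempty_homeo (hT : T2Space P) (hT' : T2Space P') :
    Nonempty (OnePoint (Bd a × Bd b × ℝ) ≃ₜ ↥((range (JJ a b))ᶜ)) := by
  have hT2 : T2Space (OnePoint (V a b)) :=
    T2Space.of_injective_continuous (Ph_inj (a := a) (b := b)) (Ph_cont hT hT')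
  let g : OnePoint (Bd a × Bd b × ℝ) → OnePoint (V a b) := OnePoint.map bv
  have hg : Continuous g := by
    refine OnePoint.continuous_map bv_emb.continuous ?_
    rw [coclosedCompact_eq_cocompact]
    refine (bv_emb (a := a) (b := b)).tendsto_cocompact.mono_right ?_
    exact cocompact_le_coclosedCompact
  have hinj : Function.Injective g := by
    exact Option.map_injective bv_emb.injective
  have hgr : ∀ x, g x ∈ (range (JJ a b))ᶜ := by
    intro x
    rw [mem_compl_range]
    induction x using OnePoint.rec with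
    | infty => left; rfl
    | coe z => right; exact ⟨z, rfl⟩
  let g' : OnePoint (Bd a × Bd b × ℝ) → ↥((range (JJ a b))ᶜ) := fun x => ⟨g x, hgr x⟩
  have hg' : Continuous g' := hg.subtype_mk _
  have hbij : Function.Bijective g' := by
    constructor
    · intro x y h
      exact hinj (congrArg Subtype.val h)
    · rintro ⟨x, hx⟩
      rw [mem_compl_range] at hx
      rcases hx with rfl | ⟨z, rfl⟩
      · exact ⟨OnePoint.infty, rfl⟩
      · exact ⟨(z : OnePoint _), rfl⟩
  exact ⟨hg'.homeoOfEquivCompactToT2 (f := Equiv.ofBijective g' hbij)⟩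

/-- The product of the groups has the one-point compactification of `B × B' × ℝ` as a boundary. -/
theorem isZBoundary_onePoint [FiniteDimensional ℝ E] [FiniteDimensional ℝ E'] (hT : T2Space P)
    (hT' : T2Space P') {Z : Type} [TopologicalSpace Z]
    (e : Z ≃ₜ OnePoint (Bd a × Bd b × ℝ)) : IsZBoundary (G × G') Z := by
  obtain ⟨h⟩ := nonempty_homeo (a := a) (b := b) hT hT'
  obtain ⟨X, mX, S, act, hX, ⟨h'⟩⟩ := isZBoundary_sys (a := a) (b := b) hT hT'
  exact ⟨X, mX, S, act, hX, ⟨(e.trans h).trans h'⟩⟩

end Two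

end Pool.Agent.H872R2.ZB
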