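import Mathlib

set_option maxHeartbeats 4000000
set_option synthInstance.maxHeartbeats 400000

/-! The height function `f s = exp (arsinh s)`, slowly varying at `-∞`. -/

namespace Pool.Agent.H872R2.ZB

open Set Topology Filter

noncomputable def f (s : ℝ) : ℝ := Real.exp (Real.arsinh s)

theorem f_pos (s : ℝ) : 0 < f s := Real.exp_pos _
theorem f_cont : Continuous f := Real.continuous_exp.comp Real.continuous_arsinh
theorem f_strictMono : StrictMono f := fun _ _ h => Real.exp_lt_exp.2 (Real.arsinh_lt_arsinh.2 h)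
theorem f_le {s t : ℝ} (h : s ≤ t) : f s ≤ f t := f_strictMono.monotone h
theorem f_lt {s t : ℝ} (h : s < t) : f s < f t := f_strictMono h
theorem f_le_iff {s t : ℝ} : f s ≤ f t ↔ s ≤ t := f_strictMono.le_iff_le
theorem f_lt_iff {s t : ℝ} : f s < f t ↔ s < t := f_strictMono.lt_iff_lt
theorem log_f (s : ℝ) : Real.log (f s) = Real.arsinh s := Real.log_exp _

theorem le_f (s : ℝ) : s ≤ f s := by
  unfold f
  rw [Real.exp_arsinh]
  have := Real.sqrt_nonneg (1 + s ^ 2)
  linarith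

theorem f_neg (s : ℝ) : f (-s) = (f s)⁻¹ := by
  unfold f
  rw [Real.arsinh_neg, Real.exp_neg]

theorem f_surj {y : ℝ} (hy : 0 < y) : ∃ s, f s = y := by
  refine ⟨Real.sinh (Real.log y), ?_⟩
  unfold f
  rw [Real.arsinh_sinh, Real.exp_log hy]

theorem f_small {ε : ℝ} (hε : 0 < ε) : ∃ L : ℝ, 0 < L ∧ ∀ s, s ≤ -L → f s < ε := by
  refine ⟨1 / ε + 1, by positivity, fun s hs => ?_⟩
  have h1 : 1 / ε < f (-s) := lt_of_lt_of_le (by linarith) (le_f (-s))
  have h2 : f s = (f (-s))⁻¹ := by rw [f_neg, inv_inv]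
  rw [h2]
  rw [inv_lt_comm₀ (f_pos _) hε]
  rwa [one_div] at h1

theorem ars_scale {a κ : ℝ} (ha : 0 ≤ a) (hκ : 1 ≤ κ) :
    Real.arsinh (κ * a) - Real.arsinh a ≤ κ - 1 := by
  have h1 : Real.arsinh (κ * a) ≤ Real.arsinh a + (κ - 1) := by
    rw [← Real.arsinh_sinh (Real.arsinh a + (κ - 1)), Real.arsinh_le_arsinh, Real.sinh_add,
      Real.sinh_arsinh]
    have h2 : 1 + (κ - 1) ≤ Real.cosh (κ - 1) + Real.sinh (κ - 1) := by
      rw [Real.cosh_add_sinh]
      linarith [Real.add_one_le_exp (κ - 1)]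
    have h3 : a ≤ Real.cosh (Real.arsinh a) := by
      rw [Real.cosh_arsinh]
      calc a = √(a ^ 2) := (Real.sqrt_sq ha).symm
        _ ≤ √(1 + a ^ 2) := Real.sqrt_le_sqrt (by linarith)
    have h4 : 0 ≤ Real.sinh (κ - 1) := Real.sinh_nonneg_iff.2 (by linarith)
    nlinarith [mul_le_mul_of_nonneg_right h3 h4, mul_le_mul_of_nonneg_left h2 ha]
  linarith

/-- the logarithm of `f` is slowly varying at `-∞` -/
theorem ars_small (D : ℝ) (hD : 0 ≤ D) {ε : ℝ} (hε : 0 < ε) :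
    ∃ L : ℝ, 0 < L ∧ ∀ s, s ≤ -L → Real.arsinh (s + D) - Real.arsinh (s - D) < ε := by
  refine ⟨D + 2 * D / ε + 1, by positivity, fun s hs => ?_⟩
  have h1 : 0 < -(s + D) := by
    have : 0 ≤ 2 * D / ε := by positivity
    linarith
  have h2 := ars_scale (a := -(s + D)) (κ := -(s - D) / -(s + D)) h1.le (by
    rw [le_div_iff₀ h1]; linarith)
  rw [div_mul_cancel₀ _ h1.ne', Real.arsinh_neg, Real.arsinh_neg] at h2
  have h3 : -(s - D) / -(s + D) - 1 = 2 * D / -(s + D) := by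
    rw [div_sub_one h1.ne']; congr 1; ring
  rw [h3] at h2
  have h4 : 2 * D / -(s + D) < ε := by
    rw [div_lt_iff₀ h1]
    have h5 : 2 * D / ε < -(s + D) := by linarith
    rw [div_lt_iff₀ hε] at h5
    linarith
  linarith

end Pool.Agent.H872R2.ZB
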