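import Mathlib
import Pool.Agent.H872R2.ZB.Fun

set_option maxHeartbeats 4000000
set_option synthInstance.maxHeartbeats 400000

/-! Two-sided ternary sequences which vanish far to the left, with an ultrametric. -/

namespace Pool.Agent.H872R2.ZB

open Set Topology Filter

/-- two-sided ternary sequences vanishing far to the left -/
def Bs : Type := {x : ℤ → Fin 3 // ∃ N : ℤ, ∀ i < N, x i = 0}

theorem Bs.ext {x y : Bs} (h : ∀ i, x.1 i = y.1 i) : x = y := Subtype.ext (funext h)

/-- the zero sequence -/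
def zs : Bs := ⟨fun _ => 0, 0, fun _ _ => rfl⟩

/-- the ultrametric -/
noncomputable def rho (x y : Bs) : ℝ := sSup ({0} ∪ {s | ∃ i : ℤ, x.1 i ≠ y.1 i ∧ s = f (-i)})

theorem rho_bdd (x y : Bs) : BddAbove ({0} ∪ {s | ∃ i : ℤ, x.1 i ≠ y.1 i ∧ s = f (-i)} : Set ℝ) := by
  obtain ⟨N, hN⟩ := x.2
  obtain ⟨N', hN'⟩ := y.2
  refine ⟨f (-(min N N' : ℤ)), ?_⟩
  rintro s (h | ⟨i, hi, rfl⟩)
  · rw [Set.mem_singleton_iff.1 h]; exact (f_pos _).le
  · apply f_le
    have : min N N' ≤ i := by
      by_contra hcon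
      have hcon' := not_le.1 hcon
      exact hi (by rw [hN i (lt_of_lt_of_le hcon' (min_le_left _ _)),
        hN' i (lt_of_lt_of_le hcon' (min_le_right _ _))])
    have h2 : ((min N N' : ℤ) : ℝ) ≤ (i : ℝ) := by exact_mod_cast this
    linarith

theorem rho_nonneg (x y : Bs) : 0 ≤ rho x y := le_csSup (rho_bdd x y) (Or.inl rfl)

theorem rho_le {x y : Bs} {s : ℝ} (hs : 0 ≤ s) :
    rho x y ≤ s ↔ ∀ i : ℤ, x.1 i ≠ y.1 i → f (-i) ≤ s := by
  constructor
  · intro h i hi
    exact (le_csSup (rho_bdd x y) (Or.inr ⟨i, hi, rfl⟩)).trans h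
  · intro h
    refine csSup_le ⟨0, Or.inl rfl⟩ ?_
    rintro t (ht | ⟨i, hi, rfl⟩)
    · rw [Set.mem_singleton_iff.1 ht]; exact hs
    · exact h i hi

theorem rho_self (x : Bs) : rho x x = 0 :=
  le_antisymm ((rho_le le_rfl).2 fun _ hi => absurd rfl hi) (rho_nonneg x x)

theorem rho_comm (x y : Bs) : rho x y = rho y x := by
  have h : ∀ x y : Bs, rho x y ≤ rho y x := by
    intro x y
    rw [rho_le (rho_nonneg y x)]
    intro i hi
    exact (rho_le (rho_nonneg y x)).1 le_rfl i (Ne.symm hi)
  exact le_antisymm (h x y) (h y x)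

theorem rho_ultra (x y z : Bs) : rho x z ≤ max (rho x y) (rho y z) := by
  rw [rho_le ((rho_nonneg x y).trans (le_max_left _ _))]
  intro i hi
  by_cases h : x.1 i = y.1 i
  · have : y.1 i ≠ z.1 i := by rwa [← h]
    exact ((rho_le (rho_nonneg y z)).1 le_rfl i this).trans (le_max_right _ _)
  · exact ((rho_le (rho_nonneg x y)).1 le_rfl i h).trans (le_max_left _ _)

theorem rho_le_f {x y : Bs} {n : ℤ} : rho x y ≤ f (-n) ↔ ∀ i < n, x.1 i = y.1 i := by
  rw [rho_le (f_pos _).le]
  constructor
  · intro h i hi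
    by_contra hne
    have h1 := f_le_iff.1 (h i hne)
    have h2 : (i : ℝ) < n := by exact_mod_cast hi
    linarith
  · intro h i hi
    have h1 : n ≤ i := by
      by_contra hcon
      exact hi (h i (not_le.1 hcon))
    have h2 : (n : ℝ) ≤ i := by exact_mod_cast h1
    exact f_le (by linarith)

noncomputable instance : MetricSpace Bs where
  dist := rho
  dist_self := rho_self
  dist_comm := rho_comm
  dist_triangle x y z := (rho_ultra x y z).trans
    (max_le (by have := rho_nonneg y z; linarith) (by have := rho_nonneg x y; linarith))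
  eq_of_dist_eq_zero {x y} h := by
    apply Bs.ext
    intro i
    by_contra hne
    have h1 : rho x y ≤ 0 := le_of_eq h
    have h2 := (rho_le le_rfl).1 h1 i hne
    exact absurd h2 (not_le.2 (f_pos _))

theorem dist_Bs (x y : Bs) : dist x y = rho x y := rfl

theorem exists_f_lt {ε : ℝ} (hε : 0 < ε) : ∃ n : ℤ, f (-n) < ε := by
  obtain ⟨L, _, h⟩ := f_small hε
  refine ⟨⌈L⌉, h _ ?_⟩
  have := Int.le_ceil L
  linarith

theorem nhds_Bs (x : Bs) : (𝓝 x).HasBasis (fun _ : ℤ => True) (fun n => {y | ∀ i < n, y.1 i = x.1 i}) := by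
  have h1 : ∀ n : ℤ, {y : Bs | ∀ i < n, y.1 i = x.1 i} = Metric.closedBall x (f (-n)) := by
    intro n
    ext y
    rw [Metric.mem_closedBall, dist_Bs, rho_le_f]
    rfl
  refine ⟨fun s => ?_⟩
  rw [Metric.nhds_basis_closedBall.mem_iff]
  constructor
  · rintro ⟨ε, hε, h⟩
    obtain ⟨n, hn⟩ := exists_f_lt hε
    refine ⟨n, trivial, ?_⟩
    rw [h1]
    exact (Metric.closedBall_subset_closedBall hn.le).trans h
  · rintro ⟨n, -, h⟩
    rw [h1] at h
    exact ⟨f (-n), f_pos _, h⟩

theorem coord_cont (i : ℤ) : Continuous fun x : Bs => x.1 i := by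
  rw [continuous_iff_continuousAt]
  intro x
  refine Tendsto.congr' (f₁ := fun _ => x.1 i) ?_ tendsto_const_nhds
  have := (nhds_Bs x).mem_of_mem (i := i + 1) trivial
  filter_upwards [this] with y hy
  exact (hy i (by omega)).symm

theorem rho_cont : Continuous fun p : Bs × Bs => rho p.1 p.2 := continuous_dist

/-- sequences supported to the right of `N` -/
def SN (N : ℤ) : Set Bs := {b | ∀ i < N, b.1 i = 0}

theorem isCompact_SN (N : ℤ) : IsCompact (SN N) := by
  let g : (ℕ → Fin 3) → Bs := fun c => ⟨fun i => if i < N then 0 else c (i - N).toNat, N,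
    fun i hi => if_pos hi⟩
  have hg : Continuous g := by
    rw [continuous_iff_continuousAt]
    intro c
    rw [ContinuousAt, (nhds_Bs (g c)).tendsto_right_iff]
    intro n _
    have h1 : ∀ᶠ c' in 𝓝 c, ∀ k ∈ Finset.range (n - N).toNat, c' k = c k := by
      rw [Filter.eventually_all_finset]
      intro k _
      have h2 : Continuous fun c' : ℕ → Fin 3 => c' k := continuous_apply k
      exact h2.continuousAt.eventually (eventually_of_mem ((isOpen_discrete {c k}).mem_nhds rfl)
        (fun y hy => hy))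
    filter_upwards [h1] with c' hc'
    intro i hi
    show (if i < N then 0 else c' (i - N).toNat) = (if i < N then 0 else c (i - N).toNat)
    split_ifs with h
    · rfl
    · apply hc'
      rw [Finset.mem_range]
      omega
  have : SN N = g '' univ := by
    apply Set.ext
    intro b
    constructor
    · intro hb
      refine ⟨fun k => b.1 (N + k), trivial, ?_⟩
      apply Bs.ext
      intro i
      show (if i < N then 0 else b.1 (N + ((i - N).toNat : ℤ))) = b.1 i
      split_ifs with h
      · exact (hb i h).symm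
      · exact congrArg b.1 (by omega)
    · rintro ⟨c, -, rfl⟩ i hi
      exact if_pos hi
  rw [this]
  exact isCompact_univ.image hg

theorem isCompact_ball (R : ℝ) : IsCompact {b : Bs | rho b zs ≤ R} := by
  refine (isCompact_SN (-⌈R⌉)).of_isClosed_subset ?_ ?_
  · have : Continuous fun b : Bs => rho b zs := rho_cont.comp (continuous_id.prodMk continuous_const)
    exact isClosed_le this continuous_const
  · intro b hb i hi
    by_contra hne
    have h0 : (0:ℝ) ≤ R := (rho_nonneg _ _).trans hb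
    have h1 := (rho_le h0).1 hb i hne
    have h2 : (i : ℝ) < ((-⌈R⌉ : ℤ) : ℝ) := by exact_mod_cast hi
    have h3 := le_f (-(i:ℝ))
    have h4 := Int.le_ceil R
    rw [Int.cast_neg] at h2
    linarith

/-- interleaving -/
def interTo (p : Bs × Bs) : Bs := ⟨fun i => if i % 2 = 0 then p.1.1 (i / 2) else p.2.1 (i / 2), by
    obtain ⟨N, hN⟩ := p.1.2
    obtain ⟨N', hN'⟩ := p.2.2
    refine ⟨2 * min N N', fun i hi => ?_⟩
    have h1 : i / 2 < min N N' := by omega
    simp only [hN _ (lt_of_lt_of_le h1 (min_le_left _ _)), hN' _ (lt_of_lt_of_le h1 (min_le_right _ _)),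
      ite_self]⟩

/-- the even part -/
def evP (z : Bs) : Bs := ⟨fun k => z.1 (2 * k), by
  obtain ⟨N, hN⟩ := z.2
  refine ⟨-|N|, fun k hk => hN _ ?_⟩
  have := neg_abs_le N
  have := abs_nonneg N
  omega⟩

/-- the odd part -/
def odP (z : Bs) : Bs := ⟨fun k => z.1 (2 * k + 1), by
  obtain ⟨N, hN⟩ := z.2
  refine ⟨-|N| - 1, fun k hk => hN _ ?_⟩
  have := neg_abs_le N
  have := abs_nonneg N
  omega⟩

theorem interTo_cont : Continuous interTo := by
  rw [continuous_iff_continuousAt]
  intro p
  rw [ContinuousAt, (nhds_Bs _).tendsto_right_iff]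
  intro n _
  have h1 := (nhds_Bs p.1).mem_of_mem (i := (n.natAbs : ℤ)) trivial
  have h2 := (nhds_Bs p.2).mem_of_mem (i := (n.natAbs : ℤ)) trivial
  have h3 := prod_mem_nhds h1 h2
  filter_upwards [h3] with q hq i hi
  have h4 : i / 2 < n.natAbs := by omega
  show (if i % 2 = 0 then q.1.1 (i / 2) else q.2.1 (i / 2)) =
    (if i % 2 = 0 then p.1.1 (i / 2) else p.2.1 (i / 2))
  rw [hq.1 _ h4, hq.2 _ h4]

theorem evP_cont : Continuous evP := by
  rw [continuous_iff_continuousAt]
  intro z
  rw [ContinuousAt, (nhds_Bs _).tendsto_right_iff]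
  intro n _
  filter_upwards [(nhds_Bs z).mem_of_mem (i := 2 * n) trivial] with w hw i hi
  exact hw _ (by omega)

theorem odP_cont : Continuous odP := by
  rw [continuous_iff_continuousAt]
  intro z
  rw [ContinuousAt, (nhds_Bs _).tendsto_right_iff]
  intro n _
  filter_upwards [(nhds_Bs z).mem_of_mem (i := 2 * n + 1) trivial] with w hw i hi
  exact hw _ (by omega)

/-- interleaving -/
noncomputable def inter : (Bs × Bs) ≃ₜ Bs where
  toFun := interTo
  invFun z := (evP z, odP z)
  left_inv p := by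
    refine Prod.ext (Bs.ext fun k => ?_) (Bs.ext fun k => ?_)
    · show (if (2 * k) % 2 = 0 then p.1.1 ((2 * k) / 2) else p.2.1 ((2 * k) / 2)) = p.1.1 k
      rw [if_pos (by omega)]; exact congrArg p.1.1 (by omega)
    · show (if (2 * k + 1) % 2 = 0 then p.1.1 ((2 * k + 1) / 2) else p.2.1 ((2 * k + 1) / 2)) = p.2.1 k
      rw [if_neg (by omega)]; exact congrArg p.2.1 (by omega)
  right_inv z := by
    apply Bs.ext
    intro i
    show (if i % 2 = 0 then z.1 (2 * (i / 2)) else z.1 (2 * (i / 2) + 1)) = z.1 i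
    split_ifs with h
    · exact congrArg z.1 (by omega)
    · exact congrArg z.1 (by omega)
  continuous_toFun := interTo_cont
  continuous_invFun := evP_cont.prodMk odP_cont

end Pool.Agent.H872R2.ZB
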