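import Mathlib
import Pool.Agent.H872R2.ZB.Seq

set_option maxHeartbeats 4000000
set_option synthInstance.maxHeartbeats 400000

/-! The tree together with all of its ends but one: the tight span of the ultrametric space `Bs`. -/

namespace Pool.Agent.H872R2.ZB

open Set Topology Filter

/-- the tree with all of its ends but one -/
def Pt : Type := {φ : Bs → ℝ // ∃ b : Bs, ∃ u : ℝ, 0 ≤ u ∧ φ = fun i => max u (rho b i)}

instance : TopologicalSpace Pt := instTopologicalSpaceSubtype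
instance : T2Space Pt := inferInstanceAs (T2Space {φ : Bs → ℝ // ∃ b : Bs, ∃ u : ℝ, 0 ≤ u ∧ φ = fun i => max u (rho b i)})

/-- the point at height `u` above `b` -/
noncomputable def pt (b : Bs) (u : ℝ) : Pt :=
  ⟨fun i => max (max u 0) (rho b i), b, max u 0, le_max_right _ _, rfl⟩

theorem exists_pt (x : Pt) : ∃ b u, 0 ≤ u ∧ x = pt b u := by
  obtain ⟨φ, b, u, hu, rfl⟩ := x
  refine ⟨b, u, hu, Subtype.ext ?_⟩
  funext i
  show max u (rho b i) = max (max u 0) (rho b i)
  rw [max_eq_left hu]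

theorem pt_val (b : Bs) {u : ℝ} (hu : 0 ≤ u) (i : Bs) : (pt b u).1 i = max u (rho b i) := by
  show max (max u 0) (rho b i) = _
  rw [max_eq_left hu]

theorem pt_cont : Continuous fun p : Bs × ℝ => pt p.1 p.2 := by
  refine Continuous.subtype_mk ?_ _
  refine continuous_pi fun i => ?_
  exact (continuous_snd.max continuous_const).max
    (rho_cont.comp (continuous_fst.prodMk continuous_const))

theorem eval_cont (i : Bs) : Continuous fun x : Pt => x.1 i :=
  (continuous_apply i).comp continuous_subtype_val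

noncomputable def Ft (x : Pt) : ℝ := ⨅ i, x.1 i
noncomputable def mt (x : Pt) : ℝ := x.1 zs
noncomputable def kt (x : Pt) (s : ℝ) : Pt := ⟨fun i => max (x.1 i) s, by
  obtain ⟨b, u, hu, h⟩ := x.2
  refine ⟨b, max u s, hu.trans (le_max_left _ _), ?_⟩
  funext i
  rw [h]
  show max (max u (rho b i)) s = max (max u s) (rho b i)
  rw [max_right_comm]⟩
noncomputable def qt (s : ℝ) : Pt := pt zs s

instance : Nonempty Bs := ⟨zs⟩

theorem Ft_pt (b : Bs) {u : ℝ} (hu : 0 ≤ u) : Ft (pt b u) = u := by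
  have hb : BddBelow (range fun i => (pt b u).1 i) := by
    refine ⟨u, ?_⟩
    rintro _ ⟨i, rfl⟩
    show u ≤ (pt b u).1 i
    rw [pt_val b hu]; exact le_max_left _ _
  apply le_antisymm
  · refine (ciInf_le hb b).trans ?_
    rw [pt_val b hu, rho_self, max_eq_left hu]
  · refine le_ciInf fun i => ?_
    rw [pt_val b hu]; exact le_max_left _ _

theorem kt_pt (b : Bs) {u : ℝ} (hu : 0 ≤ u) (s : ℝ) : kt (pt b u) s = pt b (max u s) := by
  apply Subtype.ext
  funext i
  show max ((pt b u).1 i) s = _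
  rw [pt_val b hu, pt_val b (hu.trans (le_max_left _ _)), max_right_comm]

theorem Ft_le (x : Pt) (i : Bs) : Ft x ≤ x.1 i := by
  obtain ⟨b, u, hu, rfl⟩ := exists_pt x
  rw [Ft_pt b hu, pt_val b hu]
  exact le_max_left _ _

theorem Ft_nonneg (x : Pt) : 0 ≤ Ft x := by
  obtain ⟨b, u, hu, rfl⟩ := exists_pt x
  rwa [Ft_pt b hu]

theorem kt_cont : Continuous fun p : Pt × ℝ => kt p.1 p.2 := by
  refine Continuous.subtype_mk ?_ _
  refine continuous_pi fun i => ?_
  exact ((eval_cont i).comp continuous_fst).max continuous_snd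

theorem qt_cont : Continuous qt := pt_cont.comp (continuous_const.prodMk continuous_id)

theorem kt_le (x : Pt) (s : ℝ) (h : s ≤ Ft x) : kt x s = x := by
  apply Subtype.ext
  funext i
  exact max_eq_left (h.trans (Ft_le x i))

theorem Ft_kt (x : Pt) (s : ℝ) : Ft (kt x s) = max (Ft x) s := by
  obtain ⟨b, u, hu, rfl⟩ := exists_pt x
  rw [kt_pt b hu, Ft_pt b hu, Ft_pt b (hu.trans (le_max_left _ _))]

theorem max_rho {b b' : Bs} {s : ℝ} (h : rho b b' ≤ s) (i : Bs) : max s (rho b i) = max s (rho b' i) := by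
  apply le_antisymm
  · refine max_le (le_max_left _ _) ((rho_ultra b b' i).trans (max_le (h.trans (le_max_left _ _)) (le_max_right _ _)))
  · refine max_le (le_max_left _ _) ((rho_ultra b' b i).trans
      (max_le ((rho_comm b' b).le.trans (h.trans (le_max_left _ _))) (le_max_right _ _)))

theorem kt_q (x : Pt) (s : ℝ) (h : mt x ≤ s) : kt x s = qt s := by
  obtain ⟨b, u, hu, rfl⟩ := exists_pt x
  have h' : max u (rho b zs) ≤ s := by rw [← pt_val b hu]; exact h
  have hus := (le_max_left _ _).trans h'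
  have hs : 0 ≤ s := hu.trans hus
  rw [kt_pt b hu, max_eq_right hus]
  apply Subtype.ext
  funext i
  show (pt b s).1 i = (pt zs s).1 i
  rw [pt_val b hs, pt_val zs hs]
  exact max_rho ((le_max_right _ _).trans h') i

theorem Ft_q (s : ℝ) (hs : 0 ≤ s) : Ft (qt s) = s := Ft_pt zs hs
theorem mt_q (s : ℝ) (hs : 0 ≤ s) : mt (qt s) = s := by
  show (pt zs s).1 zs = s
  rw [pt_val zs hs, rho_self, max_eq_left hs]

theorem cpt_eq (R : ℝ) : {x : Pt | mt x ≤ R} =
    (fun p : Bs × ℝ => pt p.1 p.2) '' ({b : Bs | rho b zs ≤ R} ×ˢ Icc (0:ℝ) R) := by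
  apply Set.ext
  intro x
  constructor
  · intro hx
    obtain ⟨b, u, hu, rfl⟩ := exists_pt x
    have h' : max u (rho b zs) ≤ R := by rw [← pt_val b hu]; exact hx
    exact ⟨(b, u), ⟨(le_max_right _ _).trans h', hu, (le_max_left _ _).trans h'⟩, rfl⟩
  · rintro ⟨⟨b, u⟩, ⟨h1, h2, h3⟩, rfl⟩
    show (pt b u).1 zs ≤ R
    rw [pt_val b h2]
    exact max_le h3 h1

theorem cpt_Pt (R : ℝ) : IsCompact {x : Pt | mt x ≤ R} := by
  rw [cpt_eq]
  exact ((isCompact_ball R).prod isCompact_Icc).image pt_cont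

/-- functions on the tree are continuous if they are in terms of `b` and `u` -/
theorem cont_of_pt {Z : Type} [TopologicalSpace Z] {g : Pt → Z}
    (h : Continuous fun p : Bs × ℝ => g (pt p.1 p.2)) : Continuous g := by
  have h1 : ∀ R : ℝ, ContinuousOn g {x : Pt | mt x ≤ R} := by
    intro R
    rw [continuousOn_iff_isClosed]
    intro C hC
    refine ⟨(fun p : Bs × ℝ => pt p.1 p.2) '' (({b : Bs | rho b zs ≤ R} ×ˢ Icc (0:ℝ) R) ∩
      (fun p : Bs × ℝ => g (pt p.1 p.2)) ⁻¹' C), ?_, ?_⟩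
    · apply IsCompact.isClosed
      apply IsCompact.image _ pt_cont
      exact ((isCompact_ball R).prod isCompact_Icc).inter_right (hC.preimage h)
    · rw [cpt_eq]
      apply Set.ext
      intro x
      constructor
      · rintro ⟨h1, p, hp, rfl⟩
        exact ⟨⟨p, ⟨hp, h1⟩, rfl⟩, ⟨p, hp, rfl⟩⟩
      · rintro ⟨⟨p, hp, rfl⟩, h2⟩
        exact ⟨hp.2, h2⟩
  rw [continuous_iff_continuousAt]
  intro x
  refine (h1 (mt x + 1)).continuousAt ?_
  have h2 : IsOpen {y : Pt | mt y < mt x + 1} := isOpen_lt (eval_cont zs) continuous_const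
  refine Filter.mem_of_superset (h2.mem_nhds (show mt x < mt x + 1 by linarith)) ?_
  intro y hy
  exact le_of_lt (show mt y < mt x + 1 from hy)

theorem Ft_cont : Continuous Ft := by
  apply cont_of_pt
  have : (fun p : Bs × ℝ => Ft (pt p.1 p.2)) = fun p => max p.2 0 := by
    funext p
    have h1 : pt p.1 p.2 = pt p.1 (max p.2 0) := by
      apply Subtype.ext
      funext i
      show max (max p.2 0) (rho p.1 i) = max (max (max p.2 0) 0) (rho p.1 i)
      rw [max_eq_left (a := max p.2 0) (le_max_right _ _)]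
    rw [h1, Ft_pt _ (le_max_right _ _)]
  rw [this]
  exact continuous_snd.max continuous_const

/-! ### An embedding in the plane -/

theorem dig_lemma (d τ : ℕ → ℝ) (hd : ∀ n, d n = 0 ∨ 1 ≤ |d n|) (hd2 : ∀ n, |d n| ≤ 2)
    (hτ : ∀ n, 0 ≤ τ n) (hτ' : ∀ n, τ (n + 1) ≤ τ n / 4) (hs : ∑' n, d n * τ n = 0) :
    ∀ n, 0 < τ n → d n = 0 := by
  have hgeo : ∀ n k, τ (n + k) ≤ τ n * (1 / 4 : ℝ) ^ k := by
    intro n k
    induction k with
    | zero => simp
    | succ k ih =>
      calc τ (n + (k + 1)) ≤ τ (n + k) / 4 := hτ' (n + k)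
        _ ≤ τ n * (1 / 4 : ℝ) ^ k / 4 := by linarith
        _ = τ n * (1 / 4 : ℝ) ^ (k + 1) := by rw [pow_succ]; ring
  have hsumg : ∀ n, Summable fun k => τ n * (1 / 4 : ℝ) ^ k := fun n =>
    (summable_geometric_of_lt_one (by norm_num) (by norm_num)).mul_left _
  have hsum : Summable fun n => d n * τ n := by
    refine Summable.of_norm_bounded (g := fun k => 2 * (τ 0 * (1 / 4 : ℝ) ^ k)) ((hsumg 0).mul_left 2) ?_
    intro n
    rw [Real.norm_eq_abs, abs_mul, abs_of_nonneg (hτ n)]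
    have := hgeo 0 n
    rw [zero_add] at this
    exact mul_le_mul (hd2 n) this (hτ n) (by norm_num)
  intro n
  induction n using Nat.strong_induction_on with
  | _ n ih =>
    intro hn
    have h0 : ∀ k < n, d k * τ k = 0 := by
      intro k hk
      rcases (hτ k).eq_or_lt with h | h
      · rw [← h, mul_zero]
      · rw [ih k hk h, zero_mul]
    have h1 := hsum.sum_add_tsum_nat_add (n + 1)
    rw [Finset.sum_range_succ, Finset.sum_eq_zero (fun k hk => h0 k (Finset.mem_range.1 hk)), zero_add, hs] at h1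
    have h2 : ‖∑' k, d (k + (n + 1)) * τ (k + (n + 1))‖ ≤ ∑' k : ℕ, 2 * (τ n / 4 * (1 / 4 : ℝ) ^ k) := by
      refine tsum_of_norm_bounded (g := fun k : ℕ => 2 * (τ n / 4 * (1 / 4 : ℝ) ^ k)) ?_ (fun k => ?_)
      · exact ((((summable_geometric_of_lt_one (r := (1/4:ℝ)) (by norm_num) (by norm_num)).mul_left _).mul_left 2)).hasSum
      · rw [Real.norm_eq_abs, abs_mul, abs_of_nonneg (hτ _)]
        have e1 := hgeo (n + 1) k
        have e2 := hτ' n
        rw [show k + (n + 1) = n + 1 + k by ring]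
        refine mul_le_mul (hd2 _) (e1.trans ?_) (hτ _) (by norm_num)
        exact mul_le_mul_of_nonneg_right e2 (by positivity)
    rw [tsum_mul_left, tsum_mul_left, tsum_geometric_of_lt_one (by norm_num) (by norm_num)] at h2
    rw [Real.norm_eq_abs] at h2
    rcases hd n with h | h
    · exact h
    · exfalso
      have h3 : |d n * τ n| ≤ 2 * (τ n / 4 * (1 - 1 / 4)⁻¹) := by
        have : d n * τ n = - ∑' k, d (k + (n + 1)) * τ (k + (n + 1)) := by linarith
        rw [this, abs_neg]; exact h2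
      rw [abs_mul, abs_of_pos hn] at h3
      have h4 : (1 - 1 / 4 : ℝ)⁻¹ = 4 / 3 := by norm_num
      rw [h4] at h3
      nlinarith

/-- the digit weights -/
noncomputable def tau (u : ℝ) (i : ℤ) : ℝ := (1 / 4 : ℝ) ^ i * max 0 (f (-i) - max u 0)

theorem tau_nonneg (u : ℝ) (i : ℤ) : 0 ≤ tau u i :=
  mul_nonneg (by positivity) (le_max_left _ _)

theorem tau_succ (u : ℝ) (i : ℤ) : tau u (i + 1) ≤ tau u i / 4 := by
  unfold tau
  rw [zpow_add₀ (by norm_num), zpow_one]
  have h1 : f (-((i + 1 : ℤ) : ℝ)) ≤ f (-i) := f_le (by push_cast; linarith)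
  have h2 : max 0 (f (-((i + 1 : ℤ) : ℝ)) - max u 0) ≤ max 0 (f (-i) - max u 0) :=
    max_le_max le_rfl (by linarith)
  have h3 : (0:ℝ) < (1 / 4 : ℝ) ^ i := by positivity
  nlinarith

/-- the second coordinate of the embedding -/
noncomputable def XX (b : Bs) (u : ℝ) : ℝ := ∑' i : ℤ, ((b.1 i : ℕ) : ℝ) * tau u i

noncomputable def XN (N : ℤ) (b : Bs) (u : ℝ) : ℝ := ∑' n : ℕ, ((b.1 (N + n) : ℕ) : ℝ) * tau u (N + n)

theorem XX_eq {N : ℤ} {b : Bs} (h : ∀ i < N, b.1 i = 0) (u : ℝ) : XX b u = XN N b u := by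
  unfold XX XN
  have hinj : Function.Injective fun n : ℕ => N + (n : ℤ) := by
    intro m n hmn
    simpa using hmn
  symm
  refine hinj.tsum_eq (f := fun i : ℤ => ((b.1 i : ℕ) : ℝ) * tau u i) ?_
  intro i hi
  have h1 : N ≤ i := by
    by_contra hcon
    apply hi
    show ((b.1 i : ℕ) : ℝ) * tau u i = 0
    rw [h i (not_le.1 hcon)]
    simp
  exact ⟨(i - N).toNat, by show N + ((i - N).toNat : ℤ) = i; omega⟩

theorem tau_bound (u : ℝ) (N : ℤ) (n : ℕ) : tau u (N + n) ≤ (1 / 4 : ℝ) ^ N * f (-N) * (1 / 4 : ℝ) ^ n := by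
  unfold tau
  rw [zpow_add₀ (by norm_num), zpow_natCast]
  have h1 : f (-((N + n : ℤ) : ℝ)) ≤ f (-N) := f_le (by push_cast; linarith [Nat.cast_nonneg (α := ℝ) n])
  have h2 : max 0 (f (-((N + n : ℤ) : ℝ)) - max u 0) ≤ f (-N) :=
    max_le (f_pos _).le (by linarith [le_max_right u 0])
  have h3 : (0:ℝ) ≤ (1 / 4 : ℝ) ^ N * (1 / 4 : ℝ) ^ n := by positivity
  calc (1 / 4 : ℝ) ^ N * (1 / 4 : ℝ) ^ n * max 0 (f (-((N + n : ℤ) : ℝ)) - max u 0)
      ≤ (1 / 4 : ℝ) ^ N * (1 / 4 : ℝ) ^ n * f (-N) := mul_le_mul_of_nonneg_left h2 h3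
    _ = _ := by ring

theorem dig_le (b : Bs) (i : ℤ) : ((b.1 i : ℕ) : ℝ) ≤ 2 := by
  have : (b.1 i : ℕ) ≤ 2 := by omega
  exact_mod_cast this

theorem XN_cont (N : ℤ) : Continuous fun p : Bs × ℝ => XN N p.1 p.2 := by
  unfold XN
  refine continuous_tsum (u := fun n : ℕ => 2 * ((1 / 4 : ℝ) ^ N * f (-N) * (1 / 4 : ℝ) ^ n)) ?_ ?_ ?_
  · intro n
    refine Continuous.mul ?_ ?_
    · have h1 : Continuous fun a : Fin 3 => ((a : ℕ) : ℝ) := continuous_of_discreteTopology
      exact h1.comp ((coord_cont (N + n)).comp continuous_fst)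
    · unfold tau
      exact continuous_const.mul (continuous_const.max (continuous_const.sub
        (continuous_snd.max continuous_const)))
  · exact ((summable_geometric_of_lt_one (by norm_num) (by norm_num)).mul_left _).mul_left 2
  · intro n p
    rw [Real.norm_eq_abs, abs_of_nonneg (mul_nonneg (Nat.cast_nonneg _) (tau_nonneg _ _))]
    exact mul_le_mul (dig_le _ _) (tau_bound _ _ _) (tau_nonneg _ _) (by norm_num)

theorem XX_cont : Continuous fun p : Bs × ℝ => XX p.1 p.2 := by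
  rw [continuous_iff_continuousAt]
  rintro ⟨b, u⟩
  obtain ⟨N, hN⟩ := b.2
  have h1 : ∀ᶠ p : Bs × ℝ in 𝓝 (b, u), XN N p.1 p.2 = XX p.1 p.2 := by
    have h2 : Tendsto (fun p : Bs × ℝ => p.1) (𝓝 (b, u)) (𝓝 b) := continuous_fst.tendsto _
    filter_upwards [h2.eventually ((nhds_Bs b).mem_of_mem (i := N) trivial)] with p hp
    exact (XX_eq (fun i hi => by rw [hp i hi]; exact hN i hi) _).symm
  exact (XN_cont N).continuousAt.congr h1

theorem XX_wd {b b' : Bs} {u : ℝ} (hu : 0 ≤ u) (h : rho b b' ≤ u) : XX b u = XX b' u := by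
  unfold XX
  apply tsum_congr
  intro i
  by_cases hi : b.1 i = b'.1 i
  · rw [hi]
  · have h1 := (rho_le hu).1 h i hi
    have h2 : tau u i = 0 := by
      unfold tau
      rw [max_eq_left hu, max_eq_left (by linarith), mul_zero]
    rw [h2, mul_zero, mul_zero]

theorem pt_eq_iff {b b' : Bs} {u u' : ℝ} (hu : 0 ≤ u) (hu' : 0 ≤ u') :
    pt b u = pt b' u' ↔ u = u' ∧ rho b b' ≤ u := by
  constructor
  · intro h
    have h1 : u = u' := by
      have := congrArg Ft h
      rwa [Ft_pt b hu, Ft_pt b' hu'] at this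
    refine ⟨h1, ?_⟩
    have h2 : (pt b u).1 b = (pt b' u').1 b := by rw [h]
    rw [pt_val b hu, pt_val b' hu', rho_self, max_eq_left hu] at h2
    rw [h2, rho_comm]
    exact le_max_right _ _
  · rintro ⟨rfl, h⟩
    apply Subtype.ext
    funext i
    rw [pt_val b hu, pt_val b' hu]
    exact max_rho h i

noncomputable def xi (x : Pt) : ℝ := XX (exists_pt x).choose (Ft x)

theorem xi_pt (b : Bs) {u : ℝ} (hu : 0 ≤ u) : xi (pt b u) = XX b u := by
  unfold xi
  rw [Ft_pt b hu]
  obtain ⟨u', hu', h⟩ := (exists_pt (pt b u)).choose_spec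
  have h1 := (pt_eq_iff hu hu').1 h
  exact (XX_wd hu h1.2).symm

theorem xi_cont : Continuous xi := by
  apply cont_of_pt
  have : (fun p : Bs × ℝ => xi (pt p.1 p.2)) = fun p => XX p.1 p.2 := by
    funext p
    have h1 : pt p.1 p.2 = pt p.1 (max p.2 0) := by
      apply Subtype.ext
      funext i
      show max (max p.2 0) (rho p.1 i) = max (max (max p.2 0) 0) (rho p.1 i)
      rw [max_eq_left (a := max p.2 0) (le_max_right _ _)]
    rw [h1, xi_pt _ (le_max_right _ _)]
    unfold XX tau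
    rw [max_eq_left (a := max p.2 0) (le_max_right _ _)]
  rw [this]
  exact XX_cont

theorem xi_inj {x y : Pt} (h1 : Ft x = Ft y) (h2 : xi x = xi y) : x = y := by
  obtain ⟨b, u, hu, rfl⟩ := exists_pt x
  obtain ⟨b', u', hu', rfl⟩ := exists_pt y
  rw [Ft_pt b hu, Ft_pt b' hu'] at h1
  subst h1
  rw [xi_pt b hu, xi_pt b' hu] at h2
  rw [pt_eq_iff hu hu]
  refine ⟨rfl, ?_⟩
  obtain ⟨N, hN⟩ := b.2
  obtain ⟨N', hN'⟩ := b'.2
  set M := min N N' with hM
  have hb : ∀ i < M, b.1 i = 0 := fun i hi => hN i (lt_of_lt_of_le hi (min_le_left _ _))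
  have hb' : ∀ i < M, b'.1 i = 0 := fun i hi => hN' i (lt_of_lt_of_le hi (min_le_right _ _))
  rw [XX_eq hb, XX_eq hb'] at h2
  have hsum : ∀ c : Bs, Summable fun n : ℕ => ((c.1 (M + n) : ℕ) : ℝ) * tau u (M + n) := by
    intro c
    refine Summable.of_norm_bounded (g := fun n : ℕ => 2 * ((1 / 4 : ℝ) ^ M * f (-M) * (1 / 4 : ℝ) ^ n))
      (((summable_geometric_of_lt_one (by norm_num) (by norm_num)).mul_left _).mul_left 2) ?_
    intro n
    rw [Real.norm_eq_abs, abs_of_nonneg (mul_nonneg (Nat.cast_nonneg _) (tau_nonneg _ _))]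
    exact mul_le_mul (dig_le _ _) (tau_bound _ _ _) (tau_nonneg _ _) (by norm_num)
  have h3 : ∑' n : ℕ, (((b.1 (M + n) : ℕ) : ℝ) - ((b'.1 (M + n) : ℕ) : ℝ)) * tau u (M + n) = 0 := by
    have h4 : (fun n : ℕ => (((b.1 (M + n) : ℕ) : ℝ) - ((b'.1 (M + n) : ℕ) : ℝ)) * tau u (M + n)) =
        fun n : ℕ => ((b.1 (M + n) : ℕ) : ℝ) * tau u (M + n) - ((b'.1 (M + n) : ℕ) : ℝ) * tau u (M + n) := by
      funext n; ring
    rw [h4, (hsum b).tsum_sub (hsum b')]
    unfold XN at h2
    rw [h2, sub_self]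
  have h4 := dig_lemma (fun n : ℕ => ((b.1 (M + n) : ℕ) : ℝ) - ((b'.1 (M + n) : ℕ) : ℝ))
    (fun n : ℕ => tau u (M + n)) ?_ ?_ (fun n => tau_nonneg _ _) ?_ h3
  · rw [rho_le hu]
    intro i hi
    by_contra hcon
    have hcon' : u < f (-i) := not_le.1 hcon
    have hMi : M ≤ i := by
      by_contra hc
      exact hi (by rw [hb i (not_le.1 hc), hb' i (not_le.1 hc)])
    have e1 : M + ((i - M).toNat : ℤ) = i := by omega
    have e2 := h4 (i - M).toNat
    simp only [e1] at e2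
    have e3 : 0 < tau u i := by
      unfold tau
      rw [max_eq_left hu]
      exact mul_pos (by positivity) (lt_max_of_lt_right (by linarith))
    have e4 := e2 e3
    apply hi
    have e5 : ((b.1 i : ℕ) : ℝ) = ((b'.1 i : ℕ) : ℝ) := by linarith
    exact Fin.ext (by exact_mod_cast e5)
  · intro n
    by_cases h : b.1 (M + n) = b'.1 (M + n)
    · left; rw [h, sub_self]
    · right
      have h5 : ((b.1 (M + n) : ℕ) : ℤ) - ((b'.1 (M + n) : ℕ) : ℤ) ≠ 0 := by
        intro hc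
        apply h
        apply Fin.ext
        omega
      have h6 := Int.one_le_abs h5
      have h7 : |((b.1 (M + n) : ℕ) : ℝ) - ((b'.1 (M + n) : ℕ) : ℝ)| =
          ((|((b.1 (M + n) : ℕ) : ℤ) - ((b'.1 (M + n) : ℕ) : ℤ)| : ℤ) : ℝ) := by push_cast; rfl
      rw [h7]
      exact_mod_cast h6
  · intro n
    have h5 := dig_le b (M + n)
    have h6 := dig_le b' (M + n)
    have h7 : (0:ℝ) ≤ ((b.1 (M + n) : ℕ) : ℝ) := Nat.cast_nonneg _
    have h8 : (0:ℝ) ≤ ((b'.1 (M + n) : ℕ) : ℝ) := Nat.cast_nonneg _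
    rw [abs_le]
    constructor <;> linarith
  · intro n
    have := tau_succ u (M + n)
    rwa [show M + (n : ℤ) + 1 = M + ((n + 1 : ℕ) : ℤ) by push_cast; ring] at this

/-- the embedding in a finite-dimensional space -/
noncomputable def et (x : Pt) : ℝ × ℝ × ℝ := (mt x, Ft x, xi x)

theorem et_cont : Continuous et := (eval_cont zs).prodMk (Ft_cont.prodMk xi_cont)

theorem et_inj : Function.Injective et := by
  intro x y h
  exact xi_inj (congrArg (fun z : ℝ × ℝ × ℝ => z.2.1) h) (congrArg (fun z : ℝ × ℝ × ℝ => z.2.2) h)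

theorem mt_le_et (x : Pt) : mt x ≤ ‖et x‖ :=
  (le_abs_self _).trans (norm_fst_le (et x))

/-- the ends -/
theorem bd_homeo : Nonempty (Bs ≃ₜ {x : Pt // Ft x = 0}) := by
  let g : Bs → {x : Pt // Ft x = 0} := fun b => ⟨pt b 0, Ft_pt b le_rfl⟩
  have hg : Continuous g := (pt_cont.comp (continuous_id.prodMk continuous_const)).subtype_mk _
  have hbij : Function.Bijective g := by
    constructor
    · intro b b' h
      have h1 := congrArg Subtype.val h
      have h2 := ((pt_eq_iff le_rfl le_rfl).1 h1).2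
      exact dist_le_zero.1 h2
    · rintro ⟨x, hx⟩
      obtain ⟨b, u, hu, rfl⟩ := exists_pt x
      rw [Ft_pt b hu] at hx
      subst hx
      exact ⟨b, rfl⟩
  let e : Bs ≃ {x : Pt // Ft x = 0} := Equiv.ofBijective g hbij
  refine ⟨⟨e, hg, ?_⟩⟩
  rw [continuous_iff_continuousAt]
  intro x
  rw [ContinuousAt, Metric.tendsto_nhds]
  intro ε hε
  have h1 : ∀ y : {x : Pt // Ft x = 0}, dist (e.symm y) (e.symm x) = y.1.1 (e.symm x) := by
    intro y
    have h2 : pt (e.symm y) 0 = y.1 := congrArg Subtype.val (e.apply_symm_apply y)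
    have h3 : (pt (e.symm y) 0).1 (e.symm x) = max 0 (rho (e.symm y) (e.symm x)) := pt_val _ le_rfl _
    rw [h2, max_eq_right (rho_nonneg _ _)] at h3
    exact h3.symm
  have h4 : Continuous fun y : {x : Pt // Ft x = 0} => y.1.1 (e.symm x) :=
    (eval_cont _).comp continuous_subtype_val
  have h5 : x.1.1 (e.symm x) = 0 := by rw [← h1 x, dist_self]
  have h6 : ∀ᶠ y : {x : Pt // Ft x = 0} in 𝓝 x, y.1.1 (e.symm x) < ε :=
    h4.continuousAt.eventually (gt_mem_nhds (show x.1.1 (e.symm x) < ε by rw [h5]; exact hε))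
  filter_upwards [h6] with y hy
  show dist (e.symm y) (e.symm x) < ε
  rw [h1]; exact hy

end Pool.Agent.H872R2.ZB
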