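import Mathlib
import Pool.Agent.H872R2.ZB.Pt
import Pool.Agent.Helper376.CL.TreeDefs
import Pool.Agent.Helper376.CL.WordLem

set_option maxHeartbeats 4000000
set_option synthInstance.maxHeartbeats 400000

/-! Coding of the vertices of the Cayley tree of the free group by heights and sequences. -/

namespace Pool.Agent.H872R2.ZB

open Set Topology Filter Pool.Agent.Helper376.CL

/-- generator of the previous letter -/
def prv : List A → Fin 2
  | [] => 0
  | (y :: _) => y.1

/-- digit of a letter -/
def dig (x : A) (l : List A) : Fin 3 := if x.1 = prv l then 0 else if x.2 then 1 else 2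

/-- sequence of a page word -/
def cd (k : ℤ) : List A → ℤ → Fin 3
  | [] => fun _ => 0
  | (x :: l) => fun i => if i = -k + l.length then dig x l else cd k l i

theorem cd_nil (k i : ℤ) : cd k [] i = 0 := rfl
theorem cd_cons (k : ℤ) (x : A) (l : List A) (i : ℤ) :
    cd k (x :: l) i = if i = -k + l.length then dig x l else cd k l i := rfl

theorem cd_low (k : ℤ) (l : List A) (i : ℤ) (h : i < -k) : cd k l i = 0 := by
  induction l with
  | nil => rfl
  | cons x l ih => rw [cd_cons, if_neg (by omega), ih]

theorem cd_high (k : ℤ) (l : List A) (i : ℤ) (h : -k + l.length ≤ i) : cd k l i = 0 := by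
  induction l with
  | nil => rfl
  | cons x l ih =>
    rw [List.length_cons] at h
    push_cast at h
    rw [cd_cons, if_neg (by omega), ih (by omega)]

/-- the sequence of a vertex -/
def code (v : F2) : Bs := ⟨cd (kap v) (pw v), -kap v, fun i hi => cd_low _ _ i hi⟩

/-- the height of a vertex -/
def hgt (v : F2) : ℤ := kap v - (pw v).length

theorem code_high (v : F2) (i : ℤ) (h : -hgt v ≤ i) : (code v).1 i = 0 := by
  apply cd_high
  unfold hgt at h
  omega

/-- the point of a vertex -/
noncomputable def Jv (v : F2) : Pt := pt (code v) (f (hgt v))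

theorem Jv_val (v : F2) (i : Bs) : (Jv v).1 i = max (f (hgt v)) (rho (code v) i) := pt_val _ (f_pos _).le i

theorem child_J {v w : F2} {x : A} (h1 : pw w = x :: pw v) (h2 : kap w = kap v) :
    hgt v = hgt w + 1 ∧ Jv v = kt (Jv w) (f (hgt v)) := by
  have hh : hgt v = hgt w + 1 := by
    unfold hgt; rw [h1, h2, List.length_cons]; push_cast; ring
  refine ⟨hh, ?_⟩
  unfold Jv
  rw [kt_pt _ (f_pos _).le, max_eq_right (f_le (by rw [hh]; push_cast; linarith)),
    pt_eq_iff (f_pos _).le (f_pos _).le]
  refine ⟨rfl, ?_⟩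
  have : rho (code v) (code w) ≤ f (-((-hgt v : ℤ) : ℝ)) := by
    rw [rho_le_f]
    intro i hi
    show cd (kap v) (pw v) i = cd (kap w) (pw w) i
    unfold hgt at hi
    rw [h1, h2, cd_cons, if_neg (by omega)]
  rw [Int.cast_neg, neg_neg] at this
  exact this

theorem line_J {v w : F2} (h1 : pw v = []) (h2 : pw w = []) (h3 : kap v = kap w + 1) :
    hgt v = hgt w + 1 ∧ Jv v = kt (Jv w) (f (hgt v)) := by
  have hh : hgt v = hgt w + 1 := by unfold hgt; rw [h1, h2, h3]; simp
  refine ⟨hh, ?_⟩
  unfold Jv
  rw [kt_pt _ (f_pos _).le, max_eq_right (f_le (by rw [hh]; push_cast; linarith)),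
    pt_eq_iff (f_pos _).le (f_pos _).le]
  refine ⟨rfl, ?_⟩
  have : code v = code w := by
    apply Bs.ext
    intro i
    show cd (kap v) (pw v) i = cd (kap w) (pw w) i
    rw [h1, h2]; rfl
  rw [this, rho_self]
  exact (f_pos _).le

theorem sg_one {x : A} (h : sg x = 1) : x.2 = true := by
  unfold sg at h
  split_ifs at h with h'
  · exact h'

/-- the letter leading upwards -/
def up (v : F2) : A :=
  match pw v with
  | [] => (0, true)
  | (x :: _) => invA x

/-- the parent -/
noncomputable def pa (v : F2) : F2 := lt (up v) * v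

theorem up_nil {v : F2} (h : pw v = []) : up v = (0, true) := by unfold up; rw [h]
theorem up_cons {v : F2} {x : A} {l : List A} (h : pw v = x :: l) : up v = invA x := by
  unfold up; rw [h]

theorem pa_J (v : F2) : hgt (pa v) = hgt v + 1 ∧ Jv (pa v) = kt (Jv v) (f (hgt (pa v))) := by
  unfold pa
  rcases h : pw v with _ | ⟨x, l⟩
  · rw [up_nil h]
    rcases edge_type v (0, true) with h1 | h1 | h1
    · apply line_J h1.2.2.1 h
      rw [h1.2.2.2]; rfl
    · exfalso
      have := h1.1
      rw [h] at this
      exact this rfl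
    · exfalso
      have := h1.2.1
      rw [h] at this
      exact absurd this (by simp)
  · rw [up_cons h]
    rcases edge_type v (invA x) with h1 | h1 | h1
    · exfalso
      have := h1.2.1
      rw [h] at this
      exact absurd this (by simp)
    · exfalso
      have := h1.1
      rw [h] at this
      have h2 : (invA x).2 = x.2 := this rfl
      simp [invA] at h2
    · have h2 := h1.2.1
      exact child_J h2 h1.2.2.symm

theorem invA_invA (x : A) : invA (invA x) = x := by
  unfold invA; simp

theorem lt_invA_mul (x : A) (v : F2) : lt (invA x) * (lt x * v) = v := by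
  rw [← mul_assoc]
  have : lt (invA x) * lt x = 1 := by
    have h2 : lt (invA x) = (lt x)⁻¹ := by
      rw [lt, lt, FreeGroup.inv_mk]
      rfl
    rw [h2, inv_mul_cancel]
  rw [this, one_mul]

/-- every edge joins a vertex and its parent -/
theorem edge_pa (v : F2) (x : A) : x = up v ∨ invA x = up (lt x * v) := by
  rcases edge_type v x with h | h | h
  · obtain ⟨h1, h2, h3, h4⟩ := h
    obtain ⟨x1, x2⟩ := x
    simp only at h1
    subst h1
    cases x2
    · right
      rw [up_nil h3]; rfl
    · left
      rw [up_nil h2]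
  · right
    rw [up_cons h.2.1]
  · left
    rw [up_cons h.2.1, invA_invA]

/-! injectivity -/

theorem dig_dec1 : ∀ x x' y : A, (x.1 = y.1 → x.2 = y.2) → (x'.1 = y.1 → x'.2 = y.2) →
    (if x.1 = y.1 then (0 : Fin 3) else if x.2 then 1 else 2) =
      (if x'.1 = y.1 then (0 : Fin 3) else if x'.2 then 1 else 2) → x = x' := by decide

theorem dig_dec0 : ∀ x x' : A, x.1 ≠ 0 → x'.1 ≠ 0 →
    (if x.1 = 0 then (0 : Fin 3) else if x.2 then 1 else 2) =
      (if x'.1 = 0 then (0 : Fin 3) else if x'.2 then 1 else 2) → x = x' := by decide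

theorem dig_inj (l : List A) (x x' : A) (hx : ok x l) (hx' : ok x' l) (h : dig x l = dig x' l) :
    x = x' := by
  cases l with
  | nil => exact dig_dec0 x x' hx hx' h
  | cons y l => exact dig_dec1 x x' y hx hx' h

theorem cd_root {k : ℤ} {l : List A} (hl : l ≠ []) (hg : Good l) : cd k l (-k) ≠ 0 := by
  induction l with
  | nil => exact absurd rfl hl
  | cons x l ih =>
    rw [cd_cons]
    rcases l with _ | ⟨y, l'⟩
    · rw [if_pos (by simp)]
      have h1 : x.1 ≠ 0 := hg.1
      unfold dig prv
      rw [if_neg h1]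
      split_ifs <;> decide
    · rw [if_neg (by rw [List.length_cons]; push_cast; omega)]
      exact ih (List.cons_ne_nil _ _) hg.2

theorem cd_inj_aux {k : ℤ} : ∀ {l l' : List A}, Good l → Good l' → l.length = l'.length →
    (∀ i, cd k l i = cd k l' i) → l = l'
  | [], [], _, _, _, _ => rfl
  | [], (_ :: _), _, _, h, _ => by simp at h
  | (_ :: _), [], _, _, h, _ => by simp at h
  | (x :: l), (x' :: l'), hg, hg', h, hc => by
    have hlen : l.length = l'.length := by simpa using h
    have h1 : l = l' := by
      refine cd_inj_aux (k := k) hg.2 hg'.2 hlen (fun i => ?_)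
      have h2 := hc i
      rw [cd_cons, cd_cons, hlen] at h2
      by_cases hi : i = -k + l'.length
      · rw [cd_high k l i (by rw [hi, hlen]), cd_high k l' i (by rw [hi])]
      · rw [if_neg hi, if_neg hi] at h2
        exact h2
    subst h1
    have h2 := hc (-k + l.length)
    rw [cd_cons, cd_cons, if_pos rfl, if_pos rfl] at h2
    rw [dig_inj l x x' hg.1 hg'.1 h2]

theorem code_inj {v w : F2} (h1 : hgt v = hgt w) (h2 : code v = code w) : v = w := by
  have hg := good_pw v
  have hg' := good_pw w
  have hc : ∀ i, cd (kap v) (pw v) i = cd (kap w) (pw w) i := fun i => congrArg (fun b : Bs => b.1 i) h2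
  have hk : kap v = kap w := by
    by_cases e1 : pw v = []
    · by_cases e2 : pw w = []
      · unfold hgt at h1
        rw [e1, e2] at h1
        simpa using h1
      · exfalso
        apply cd_root (k := kap w) e2 hg'
        rw [← hc, e1]; rfl
    · by_cases e2 : pw w = []
      · exfalso
        apply cd_root (k := kap v) e1 hg
        rw [hc, e2]; rfl
      · rcases lt_trichotomy (kap v) (kap w) with h | h | h
        · exfalso
          apply cd_root (k := kap w) e2 hg'
          rw [← hc]
          exact cd_low _ _ _ (by omega)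
        · exact h
        · exfalso
          apply cd_root (k := kap v) e1 hg
          rw [hc]
          exact cd_low _ _ _ (by omega)
  have hl : (pw v).length = (pw w).length := by
    unfold hgt at h1
    rw [hk] at h1
    omega
  have hp : pw v = pw w := by
    refine cd_inj_aux (k := kap v) hg hg' hl (fun i => ?_)
    rw [hc i, hk]
  exact pw_kap_inj (by simp only [hp, hk])

/-! surjectivity -/

theorem exists_letter (l : List A) (d : Fin 3) (hd : l = [] → d ≠ 0) : ∃ x : A, ok x l ∧ dig x l = d := by
  rcases l with _ | ⟨y, l⟩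
  · have h0 := hd rfl
    have : d = 1 ∨ d = 2 := by omega
    rcases this with rfl | rfl
    · exact ⟨(1, true), by show (1 : Fin 2) ≠ 0; decide, rfl⟩
    · exact ⟨(1, false), by show (1 : Fin 2) ≠ 0; decide, rfl⟩
  · have : d = 0 ∨ d = 1 ∨ d = 2 := by omega
    rcases this with rfl | rfl | rfl
    · exact ⟨y, fun _ => rfl, by simp [dig, prv]⟩
    · refine ⟨(1 - y.1, true), ?_, ?_⟩
      · intro h
        exfalso
        have : (1 : Fin 2) - y.1 = y.1 := h
        omega
      · have : ¬ ((1 : Fin 2) - y.1 = y.1) := by omega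
        simp [dig, prv, this]
    · refine ⟨(1 - y.1, false), ?_, ?_⟩
      · intro h
        exfalso
        have : (1 : Fin 2) - y.1 = y.1 := h
        omega
      · have : ¬ ((1 : Fin 2) - y.1 = y.1) := by omega
        simp [dig, prv, this]

theorem exists_word (b : Bs) (k : ℤ) (hk : ∀ i < -k, b.1 i = 0) (hk' : b.1 (-k) ≠ 0) (n : ℕ) :
    ∃ l : List A, Good l ∧ l.length = n ∧ ∀ i < -k + n, cd k l i = b.1 i := by
  induction n with
  | zero =>
    refine ⟨[], trivial, rfl, fun i hi => ?_⟩
    rw [cd_nil, hk i (by simpa using hi)]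
  | succ n ih =>
    obtain ⟨l, hg, hlen, hl⟩ := ih
    obtain ⟨x, hx, hd⟩ := exists_letter l (b.1 (-k + n)) (by
      rintro rfl
      have : n = 0 := hlen.symm
      subst this
      simpa using hk')
    refine ⟨x :: l, ⟨hx, hg⟩, by rw [List.length_cons, hlen], fun i hi => ?_⟩
    rw [cd_cons, hlen]
    split_ifs with h
    · rw [hd, h]
    · apply hl
      push_cast at hi
      omega

theorem exists_low_vertex (b : Bs) (h : ℤ) : ∃ v : F2, hgt v = h ∧ rho (code v) b ≤ f h := by
  have key : (∃ v : F2, hgt v = h ∧ ∀ i < -h, (code v).1 i = b.1 i) := by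
    by_cases hc : ∀ i < -h, b.1 i = 0
    · obtain ⟨v, h1, h2⟩ := exists_vertex (l := []) trivial h
      refine ⟨v, by unfold hgt; rw [h1, h2]; simp, fun i hi => ?_⟩
      rw [hc i hi]
      show cd (kap v) (pw v) i = 0
      rw [h1]; rfl
    · push Not at hc
      obtain ⟨i0, hi0, hne⟩ := hc
      obtain ⟨N, hN⟩ := b.2
      obtain ⟨i1, hi1, hmin⟩ := Int.exists_least_of_bdd (P := fun i => b.1 i ≠ 0)
        ⟨N, fun z hz => by by_contra hcon; exact hz (hN z (not_le.1 hcon))⟩ ⟨i0, hne⟩
      have h10 : i1 ≤ i0 := hmin i0 hne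
      obtain ⟨l, hg, hlen, hl⟩ := exists_word b (-i1) (fun i hi => by
        by_contra hcon
        have := hmin i hcon
        omega) (by rwa [neg_neg]) (-h - i1).toNat
      obtain ⟨v, h1, h2⟩ := exists_vertex hg (-i1)
      refine ⟨v, ?_, fun i hi => ?_⟩
      · unfold hgt; rw [h1, h2, hlen]; omega
      · show cd (kap v) (pw v) i = b.1 i
        rw [h1, h2]
        exact hl i (by omega)
  obtain ⟨v, h1, h2⟩ := key
  refine ⟨v, h1, ?_⟩
  have : rho (code v) b ≤ f (-((-h : ℤ) : ℝ)) := by
    rw [rho_le_f]
    exact h2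
  rwa [Int.cast_neg, neg_neg] at this

/-! finiteness -/

theorem finite_low (R : ℝ) (L : ℤ) : {v : F2 | mt (Jv v) ≤ R ∧ L ≤ hgt v}.Finite := by
  have h1 : ∀ v : F2, mt (Jv v) ≤ R → f (kap v) ≤ R := by
    intro v hv
    have hv' : max (f (hgt v)) (rho (code v) zs) ≤ R := by rw [← Jv_val]; exact hv
    by_cases e1 : pw v = []
    · have : hgt v = kap v := by unfold hgt; rw [e1]; simp
      rw [← this]; exact (le_max_left _ _).trans hv'
    · have h2 := cd_root (k := kap v) e1 (good_pw v)
      have h3 := (rho_le (rho_nonneg (code v) zs)).1 le_rfl (-kap v) h2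
      rw [Int.cast_neg, neg_neg] at h3
      exact h3.trans ((le_max_right _ _).trans hv')
  refine (finite_bounded (⌈R⌉ - L).toNat (max |⌈R⌉| |L|)).subset ?_
  rintro v ⟨hv, hL⟩
  have h2 : (kap v : ℝ) ≤ R := (le_f _).trans (h1 v hv)
  have h3 : kap v ≤ ⌈R⌉ := by
    have := h2.trans (Int.le_ceil R)
    exact_mod_cast this
  unfold hgt at hL
  refine ⟨by omega, ?_⟩
  rw [abs_le]
  have a1 := le_max_left |⌈R⌉| |L|
  have a2 := le_max_right |⌈R⌉| |L|
  have a3 := neg_abs_le L
  have a4 := le_abs_self ⌈R⌉
  constructor <;> omega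

end Pool.Agent.H872R2.ZB
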