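import Mathlib
import Pool.Agent.H872R2.ZB.Sys
import Pool.Agent.H872R2.ZB.Fun

set_option maxHeartbeats 4000000
set_option synthInstance.maxHeartbeats 400000

/-! The system for `ℤ` acting on the line. -/

namespace Pool.Agent.H872R2.ZB

open Set Topology Filter Pool.Agent.Helper376.CL

/-- the line with the action of the integers -/
abbrev RZ : Type := ℝ

/-- the closed half line -/
abbrev HL : Type := {x : ℝ // 0 ≤ x}

noncomputable instance actRZ : MulAction (Multiplicative ℤ) RZ where
  smul g y := ((y : ℝ) + ((Multiplicative.toAdd g : ℤ) : ℝ) : ℝ)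
  one_smul y := by
    show ((y : ℝ) + ((Multiplicative.toAdd (1 : Multiplicative ℤ) : ℤ) : ℝ) : ℝ) = y
    rw [toAdd_one, Int.cast_zero, add_zero]
  mul_smul g h y := by
    show ((y : ℝ) + ((Multiplicative.toAdd (g * h) : ℤ) : ℝ) : ℝ) =
      ((y : ℝ) + ((Multiplicative.toAdd h : ℤ) : ℝ)) + ((Multiplicative.toAdd g : ℤ) : ℝ)
    rw [toAdd_mul, Int.cast_add]; ring

theorem smul_RZ (g : Multiplicative ℤ) (y : RZ) :
    g • y = ((y : ℝ) + ((Multiplicative.toAdd g : ℤ) : ℝ) : ℝ) := rfl

/-- the embedding of the line in the half line -/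
noncomputable def jl (y : RZ) : HL := ⟨f y, (f_pos y).le⟩

theorem f_isOpenEmbedding : IsOpenEmbedding f := by
  refine ⟨?_, ?_⟩
  · apply f_strictMono.isEmbedding_of_ordConnected
    have : range f = Ioi 0 := by
      ext y
      exact ⟨by rintro ⟨s, rfl⟩; exact f_pos s, fun hy => f_surj hy⟩
    rw [this]
    exact Set.ordConnected_Ioi
  · have : range f = Ioi 0 := by
      ext y
      exact ⟨by rintro ⟨s, rfl⟩; exact f_pos s, fun hy => f_surj hy⟩
    rw [this]
    exact isOpen_Ioi

theorem jl_emb : IsOpenEmbedding jl := by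
  have hc : Continuous jl := f_cont.subtype_mk _
  refine ⟨IsEmbedding.of_comp hc continuous_subtype_val f_isOpenEmbedding.isEmbedding, ?_⟩
  have : range jl = {x : HL | 0 < x.1} := by
    ext x
    constructor
    · rintro ⟨y, rfl⟩; exact f_pos y
    · intro hx
      obtain ⟨s, hs⟩ := f_surj hx
      exact ⟨s, Subtype.ext hs⟩
  rw [this]
  exact isOpen_lt continuous_const continuous_subtype_val

theorem finite_mul_int (a b : ℝ) : {g : Multiplicative ℤ |
    a ≤ ((Multiplicative.toAdd g : ℤ) : ℝ) ∧ ((Multiplicative.toAdd g : ℤ) : ℝ) ≤ b}.Finite := by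
  have h1 : (Icc ⌈a⌉ ⌊b⌋ : Set ℤ).Finite := Set.finite_Icc _ _
  refine (h1.preimage (f := fun g : Multiplicative ℤ => (Multiplicative.toAdd g : ℤ))
    (Multiplicative.toAdd.injective.injOn)).subset ?_
  rintro g ⟨h2, h3⟩
  exact ⟨Int.ceil_le.2 h2, Int.le_floor.2 h3⟩

noncomputable def lineSys : Sys (Multiplicative ℤ) RZ HL ℝ where
  F := fun x => x.1
  m := fun x => x.1
  κ := fun x s => ⟨max x.1 s, x.2.trans (le_max_left _ _)⟩
  q := fun s => ⟨max s 0, le_max_right _ _⟩
  e := fun x => x.1
  j := jl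
  F_cont := continuous_subtype_val
  m_cont := continuous_subtype_val
  κ_cont := ((continuous_subtype_val.comp continuous_fst).max continuous_snd).subtype_mk _
  q_cont := (continuous_id.max continuous_const).subtype_mk _
  e_cont := continuous_subtype_val
  e_inj := Subtype.val_injective
  F_nonneg := fun x => x.2
  F_le := fun x => le_rfl
  κ_le := fun x s h => Subtype.ext (max_eq_left h)
  F_κ := fun x s => rfl
  m_κ := fun x s => rfl
  κ_q := fun x s h => Subtype.ext (by
    show max x.1 s = max s 0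
    rw [max_eq_right h, max_eq_left (x.2.trans h)])
  F_q := fun s hs => max_eq_left hs
  m_q := fun s hs => max_eq_left hs
  cpt := fun R => by
    have h1 : IsClosedEmbedding (Subtype.val : HL → ℝ) :=
      (isClosed_Ici (a := (0:ℝ))).isClosedEmbedding_subtypeVal
    have h2 := h1.isCompact_preimage (isCompact_Icc (a := (0:ℝ)) (b := R))
    convert h2 using 1
    ext x
    exact ⟨fun h => ⟨x.2, h⟩, fun h => h.2⟩
  m_le_e := fun x => le_abs_self _
  j_emb := jl_emb
  j_range := by
    ext x
    constructor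
    · rintro ⟨y, rfl⟩; exact f_pos y
    · intro hx
      obtain ⟨s, hs⟩ := f_surj hx
      exact ⟨s, Subtype.ext hs⟩
  ae := isAE_real
  smul_cont := fun g => by
    show Continuous fun y : ℝ => y + ((Multiplicative.toAdd g : ℤ) : ℝ)
    exact continuous_id.add continuous_const
  cov := fun y => by
    refine ⟨Metric.ball y (1/2), Metric.isOpen_ball, Metric.mem_ball_self (by norm_num), ?_⟩
    intro g hg
    rw [Set.disjoint_left]
    rintro _ ⟨z, hz, rfl⟩ hz'
    have h1 : |(z : ℝ) - (y : ℝ)| < 1 / 2 := hz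
    have h2 : |((z : ℝ) + ((Multiplicative.toAdd g : ℤ) : ℝ)) - (y : ℝ)| < 1 / 2 := hz'
    have h3 : |((Multiplicative.toAdd g : ℤ) : ℝ)| < 1 := by
      rw [abs_lt] at h1 h2 ⊢
      constructor <;> linarith [h1.1, h1.2, h2.1, h2.2]
    have h4 : (Multiplicative.toAdd g : ℤ) ≠ 0 := fun h => hg (Multiplicative.toAdd.injective h)
    have h5 : (1 : ℝ) ≤ |((Multiplicative.toAdd g : ℤ) : ℝ)| := by
      rw [← Int.cast_abs]
      exact_mod_cast Int.one_le_abs h4
    linarith
  coc := by
    refine ⟨Icc (0:ℝ) 1, isCompact_Icc (a := (0:ℝ)) (b := 1), fun y => ?_⟩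
    refine ⟨Multiplicative.ofAdd (-⌊(y : ℝ)⌋), ?_⟩
    show (y : ℝ) + ((-⌊(y : ℝ)⌋ : ℤ) : ℝ) ∈ Icc (0:ℝ) 1
    have h1 := Int.floor_le (y : ℝ)
    have h2 := Int.lt_floor_add_one (y : ℝ)
    rw [Int.cast_neg]
    constructor <;> linarith
  proper := fun K C hK hC => by
    obtain ⟨D, hD⟩ := (show IsCompact (K : Set ℝ) from hK).isBounded.subset_closedBall 0
    obtain ⟨D', hD'⟩ := (show IsCompact (C : Set ℝ) from hC).isBounded.subset_closedBall 0
    refine (finite_mul_int (-(D + D')) (D + D')).subset ?_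
    rintro g ⟨y, hy, hgy⟩
    have h1 := hD hy
    have h2 := hD' hgy
    rw [mem_closedBall_zero_iff, Real.norm_eq_abs, abs_le] at h1 h2
    have h3 : (g • y : ℝ) = (y : ℝ) + ((Multiplicative.toAdd g : ℤ) : ℝ) := rfl
    rw [h3] at h2
    constructor <;> linarith [h1.1, h1.2, h2.1, h2.2]
  null := fun K hK ε hε R => by
    obtain ⟨D, hD⟩ := (show IsCompact (K : Set ℝ) from hK).isBounded.subset_closedBall 0
    obtain ⟨L, hL, hLs⟩ := f_small hε
    obtain ⟨L', hL', hLs'⟩ := ars_small (max D 0) (le_max_right _ _) hε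
    refine (finite_mul_int (-(max L L') - max D 0) (R + max D 0)).subset ?_
    rintro g ⟨p, hp, hpR, p', hp', h⟩
    have hb : ∀ z ∈ K, -(max D 0) ≤ (z : ℝ) ∧ (z : ℝ) ≤ max D 0 := by
      intro z hz
      have h1 := hD hz
      rw [mem_closedBall_zero_iff, Real.norm_eq_abs, abs_le] at h1
      exact ⟨(neg_le_neg (le_max_left _ _)).trans h1.1, h1.2.trans (le_max_left _ _)⟩
    set n : ℝ := ((Multiplicative.toAdd g : ℤ) : ℝ) with hn
    have e1 : ∀ z : RZ, (jl (g • z)).1 = f ((z : ℝ) + n) := fun z => rfl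
    have hpR' : f ((p : ℝ) + n) ≤ R := hpR
    have h1 := le_f ((p : ℝ) + n)
    obtain ⟨k1, k2⟩ := hb p hp
    obtain ⟨k3, k4⟩ := hb p' hp'
    refine ⟨?_, by linarith⟩
    by_contra hcon
    have hcon' : n < -(max L L') - max D 0 := not_le.1 hcon
    have g1 : n + max D 0 ≤ -L := by have := le_max_left L L'; linarith
    have g2 : n ≤ -L' := by
      have := le_max_right L L'
      have := le_max_right D 0
      linarith
    rcases h with h | h
    · have h2 : dist (f ((p : ℝ) + n)) (f ((p' : ℝ) + n)) < ε := by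
        rw [Real.dist_eq, abs_lt]
        have a1 := hLs ((p : ℝ) + n) (by linarith)
        have a2 := hLs ((p' : ℝ) + n) (by linarith)
        have a3 := f_pos ((p : ℝ) + n)
        have a4 := f_pos ((p' : ℝ) + n)
        constructor <;> linarith
      exact absurd h (not_le.2 h2)
    · have h2 : |Real.log (f ((p : ℝ) + n)) - Real.log (f ((p' : ℝ) + n))| < ε := by
        rw [log_f, log_f]
        have a1 := hLs' n g2
        have a2 : Real.arsinh ((p : ℝ) + n) ≤ Real.arsinh (n + max D 0) :=
          Real.arsinh_le_arsinh.2 (by linarith)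
        have a3 : Real.arsinh ((p' : ℝ) + n) ≤ Real.arsinh (n + max D 0) :=
          Real.arsinh_le_arsinh.2 (by linarith)
        have a4 : Real.arsinh (n - max D 0) ≤ Real.arsinh ((p : ℝ) + n) :=
          Real.arsinh_le_arsinh.2 (by linarith)
        have a5 : Real.arsinh (n - max D 0) ≤ Real.arsinh ((p' : ℝ) + n) :=
          Real.arsinh_le_arsinh.2 (by linarith)
        rw [abs_lt]
        constructor <;> linarith
      exact absurd h (not_le.2 h2)

end Pool.Agent.H872R2.ZB
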