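import Mathlib
import Pool.Agent.H872R2.ZB.Code
import Pool.Agent.Helper376.CL.TreeLem
import Pool.Agent.Helper376.CL.CellLem

set_option maxHeartbeats 4000000
set_option synthInstance.maxHeartbeats 400000

/-! The tree as an open subset of `Pt`. -/

namespace Pool.Agent.H872R2.ZB

open Set Topology Filter Pool.Agent.Helper376.CL

theorem rho_disc (x y : Bs) (h : ℤ) : rho x y ≤ f h ∨ f (h + 1) ≤ rho x y := by
  by_cases hc : rho x y ≤ f (-((-h : ℤ) : ℝ))
  · left; rwa [Int.cast_neg, neg_neg] at hc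
  · right
    rw [rho_le_f] at hc
    push Not at hc
    obtain ⟨i, hi, hne⟩ := hc
    refine le_trans (f_le ?_) ((rho_le (rho_nonneg x y)).1 le_rfl i hne)
    have : (h : ℝ) + 1 ≤ -i := by
      have : h + 1 ≤ -i := by omega
      exact_mod_cast this
    exact this

/-- height on the edge from `y` to its parent -/
noncomputable def uu (y : F2) (t : ℝ) : ℝ := (1 - t) * f (hgt y) + t * f (hgt y + 1)

theorem uu_ge (y : F2) {t : ℝ} (h0 : 0 ≤ t) : f (hgt y) ≤ uu y t := by
  unfold uu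
  have := f_le (show (hgt y : ℝ) ≤ hgt y + 1 by linarith)
  nlinarith

theorem uu_le (y : F2) {t : ℝ} (h1 : t ≤ 1) : uu y t ≤ f (hgt y + 1) := by
  unfold uu
  have := f_le (show (hgt y : ℝ) ≤ hgt y + 1 by linarith)
  nlinarith

theorem uu_lt (y : F2) {t : ℝ} (h1 : t < 1) : uu y t < f (hgt y + 1) := by
  unfold uu
  have := f_lt (show (hgt y : ℝ) < hgt y + 1 by linarith)
  nlinarith

theorem uu_pos (y : F2) {t : ℝ} (h0 : 0 ≤ t) : 0 < uu y t := lt_of_lt_of_le (f_pos _) (uu_ge y h0)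

theorem lin_up (y : F2) {t : ℝ} (h0 : 0 ≤ t) (h1 : t ≤ 1) (i : Bs) :
    (1 - t) * (Jv y).1 i + t * (Jv (pa y)).1 i = (pt (code y) (uu y t)).1 i := by
  obtain ⟨e1, e2⟩ := pa_J y
  have e3 : (Jv (pa y)).1 i = max ((Jv y).1 i) (f (hgt y + 1)) := by
    rw [e2, e1]
    show max ((Jv y).1 i) (f ((hgt y + 1 : ℤ) : ℝ)) = _
    push_cast; rfl
  rw [e3, pt_val _ (uu_pos y h0).le, Jv_val]
  have g1 := uu_ge y h0
  have g2 := uu_le y h1
  rcases rho_disc (code y) i (hgt y) with h | h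
  · rw [max_eq_left h, max_eq_right (f_le (by linarith)), max_eq_left (h.trans g1)]
    rfl
  · have g3 : f (hgt y) ≤ rho (code y) i := (f_le (by linarith)).trans h
    rw [max_eq_right g3, max_eq_left h, max_eq_right (g2.trans h)]
    ring

/-- symmetric description of points of an edge -/
theorem ptf_symm (v : F2) (x : A) (t : ℝ) : ptf v x t = ptf (lt x * v) (invA x) (1 - t) := by
  funext u
  unfold ptf
  rw [lt_invA_mul, sub_sub_cancel, add_comm]

/-- every point is on the edge from a vertex to its parent, and not at the parent -/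
theorem exists_edge (b : Tree) : ∃ (y : F2) (t : ℝ), 0 ≤ t ∧ t < 1 ∧ b.1 = ptf y (up y) t := by
  have h : ∃ (y : F2) (t : ℝ), 0 ≤ t ∧ t ≤ 1 ∧ b.1 = ptf y (up y) t := by
    obtain ⟨v, x, t, h0, h1, h⟩ := b.2
    rcases edge_pa v x with hx | hx
    · exact ⟨v, t, h0, h1, by rw [h, hx]⟩
    · refine ⟨lt x * v, 1 - t, by linarith, by linarith, ?_⟩
      rw [h, ptf_symm, hx]
  obtain ⟨y, t, h0, h1, h⟩ := h
  rcases h1.eq_or_lt with rfl | h1
  · refine ⟨pa y, 0, le_rfl, one_pos, ?_⟩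
    rw [h]
    funext u
    unfold ptf pa
    simp
  · exact ⟨y, t, h0, h1, h⟩

theorem lin_val (b : Tree) (v : F2) (x : A) (t : ℝ) (h : b.1 = ptf v x t) (i : Bs) :
    lin (fun v => (Jv v).1 i) b = (1 - t) * (Jv v).1 i + t * (Jv (lt x * v)).1 i :=
  lin_ptf _ b v x t h

theorem lin_mem (b : Tree) : (fun i => lin (fun v => (Jv v).1 i) b) ∈
    {φ : Bs → ℝ | ∃ b : Bs, ∃ u : ℝ, 0 ≤ u ∧ φ = fun i => max u (rho b i)} := by
  obtain ⟨y, t, h0, h1, h⟩ := exists_edge b
  refine ⟨code y, uu y t, (uu_pos y h0).le, ?_⟩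
  funext i
  rw [lin_val b y (up y) t h i]
  have := lin_up y h0 h1.le i
  rw [pt_val _ (uu_pos y h0).le] at this
  exact this

/-- the embedding -/
noncomputable def jt (b : Tree) : Pt := ⟨fun i => lin (fun v => (Jv v).1 i) b, lin_mem b⟩

theorem jt_val (b : Tree) (i : Bs) : (jt b).1 i = lin (fun v => (Jv v).1 i) b := rfl

theorem jt_eq (b : Tree) (y : F2) (t : ℝ) (h0 : 0 ≤ t) (h1 : t ≤ 1) (h : b.1 = ptf y (up y) t) :
    jt b = pt (code y) (uu y t) := by
  apply Subtype.ext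
  funext i
  rw [← lin_up y h0 h1 i]
  exact lin_val b y (up y) t h i

theorem jt_cont : Continuous jt := by
  refine Continuous.subtype_mk ?_ _
  exact continuous_pi fun i => continuous_lin _

theorem jt_inj : Function.Injective jt := by
  intro b b' hb
  obtain ⟨y, t, h0, h1, h⟩ := exists_edge b
  obtain ⟨y', t', h0', h1', h'⟩ := exists_edge b'
  rw [jt_eq b y t h0 h1.le h, jt_eq b' y' t' h0' h1'.le h',
    pt_eq_iff (uu_pos y h0).le (uu_pos y' h0').le] at hb
  obtain ⟨hu, hr⟩ := hb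
  have hh : hgt y = hgt y' := by
    have e1 : f (hgt y) < f (hgt y' + 1) := lt_of_le_of_lt (uu_ge y h0) (hu ▸ uu_lt y' h1')
    have e2 : f (hgt y') < f (hgt y + 1) := lt_of_le_of_lt (uu_ge y' h0') (hu ▸ uu_lt y h1)
    rw [f_lt_iff] at e1 e2
    have e3 : hgt y < hgt y' + 1 := by exact_mod_cast e1
    have e4 : hgt y' < hgt y + 1 := by exact_mod_cast e2
    omega
  have hc : code y = code y' := by
    have h2 : rho (code y) (code y') ≤ f (hgt y) := by
      rcases rho_disc (code y) (code y') (hgt y) with h | h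
      · exact h
      · exfalso
        have := uu_lt y h1
        linarith
    have h3 : rho (code y) (code y') ≤ f (-((-hgt y : ℤ) : ℝ)) := by rwa [Int.cast_neg, neg_neg]
    rw [rho_le_f] at h3
    apply Bs.ext
    intro i
    by_cases hi : i < -hgt y
    · exact h3 i hi
    · rw [code_high y i (not_lt.1 hi), code_high y' i (by rw [← hh]; exact not_lt.1 hi)]
  have hy := code_inj hh hc
  subst hy
  have ht : t = t' := by
    unfold uu at hu
    have h3 := f_lt (show (hgt y : ℝ) < hgt y + 1 by linarith)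
    have h4 : (t - t') * (f (hgt y + 1) - f (hgt y)) = 0 := by linarith
    rcases mul_eq_zero.1 h4 with h5 | h5
    · linarith
    · linarith
  subst ht
  exact Subtype.ext (h.trans h'.symm)

theorem Ft_jt_pos (b : Tree) : 0 < Ft (jt b) := by
  obtain ⟨y, t, h0, h1, h⟩ := exists_edge b
  rw [jt_eq b y t h0 h1.le h, Ft_pt _ (uu_pos y h0).le]
  exact uu_pos y h0

theorem jt_range : range jt = {x | 0 < Ft x} := by
  apply Set.ext
  intro x
  constructor
  · rintro ⟨b, rfl⟩; exact Ft_jt_pos b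
  · intro hx
    have hx' : 0 < Ft x := hx
    obtain ⟨c, u, hu, rfl⟩ := exists_pt x
    rw [Ft_pt c hu] at hx'
    obtain ⟨s, hs⟩ := f_surj hx'
    obtain ⟨v, hv, hr⟩ := exists_low_vertex c ⌊s⌋
    have e1 : f (hgt v) ≤ u := by rw [hv, ← hs]; exact f_le (Int.floor_le s)
    have e2 : u < f (hgt v + 1) := by rw [hv, ← hs]; exact f_lt (Int.lt_floor_add_one s)
    set d := f (hgt v + 1) - f (hgt v) with hd
    have hd0 : 0 < d := by linarith
    set t := (u - f (hgt v)) / d with ht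
    have ht0 : 0 ≤ t := div_nonneg (by linarith) hd0.le
    have ht1 : t ≤ 1 := by rw [ht, div_le_one hd0]; linarith
    have htd : t * d = u - f (hgt v) := by rw [ht]; field_simp
    refine ⟨⟨ptf v (up v) t, v, up v, t, ht0, ht1, rfl⟩, ?_⟩
    rw [jt_eq _ v t ht0 ht1 rfl]
    have hu' : uu v t = u := by
      unfold uu
      have : (1 - t) * f (hgt v) + t * f (hgt v + 1) = f (hgt v) + t * d := by rw [hd]; ring
      rw [this, htd]; ring
    rw [hu', pt_eq_iff hu hu]
    refine ⟨rfl, ?_⟩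
    rw [hv] at e1
    exact hr.trans e1

/-- a criterion for open embeddings -/
theorem openEmb_of_proper {X Z : Type} [TopologicalSpace X] [TopologicalSpace Z] [T2Space Z]
    {g : X → Z} (hc : Continuous g) (hi : Function.Injective g) (ho : IsOpen (range g))
    (hp : ∀ z ∈ range g, ∃ U ∈ 𝓝 z, ∃ K : Set X, IsCompact K ∧ g ⁻¹' U ⊆ K) : IsOpenEmbedding g := by
  refine ⟨⟨isInducing_iff_nhds.2 fun x => le_antisymm (Filter.map_le_iff_le_comap.1 (hc.tendsto x)) ?_, hi⟩, ho⟩
  rw [Filter.le_iff_ultrafilter]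
  intro 𝒰 h𝒰
  obtain ⟨U, hU, K, hK, hUK⟩ := hp (g x) ⟨x, rfl⟩
  have h1 : Filter.Tendsto g 𝒰 (𝓝 (g x)) := Filter.tendsto_iff_comap.2 h𝒰
  have h2 : K ∈ (𝒰 : Filter X) := Filter.mem_of_superset (h1 hU) hUK
  obtain ⟨x', _, hx'⟩ := hK.ultrafilter_le_nhds 𝒰 (Filter.le_principal_iff.2 h2)
  have h3 : Filter.Tendsto g 𝒰 (𝓝 (g x')) := (hc.tendsto x').mono_left hx'
  have h4 : g x' = g x := tendsto_nhds_unique h3 h1
  have h5 := hi h4
  rw [← h5]
  exact hx'

theorem isCompact_star (v : F2) : IsCompact (star v) := by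
  let g : A → Icc (0 : ℝ) 1 → Tree := fun x t => ⟨ptf v x t.1, v, x, t.1, t.2.1, t.2.2, rfl⟩
  have hf : ∀ x, Continuous (g x) := by
    intro x
    refine continuous_induced_rng.2 (continuous_pi fun u => ?_)
    show Continuous fun t : Icc (0 : ℝ) 1 => (if u = v then 1 - t.1 else 0) +
      (if u = lt x * v then t.1 else 0)
    refine Continuous.add ?_ ?_
    · split_ifs
      · exact continuous_const.sub continuous_subtype_val
      · exact continuous_const
    · split_ifs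
      · exact continuous_subtype_val
      · exact continuous_const
  have : star v = ⋃ x, range (g x) := by
    apply Set.ext
    intro b
    rw [mem_iUnion]
    constructor
    · rintro ⟨x, t, h0, h1, h⟩
      exact ⟨x, ⟨t, h0, h1⟩, Subtype.ext h.symm⟩
    · rintro ⟨x, t, rfl⟩
      exact ⟨x, t.1, t.2.1, t.2.2, rfl⟩
  rw [this]
  exact isCompact_iUnion fun x => isCompact_range (hf x)

theorem preimage_compact (R : ℝ) (r : ℝ) (hr : 0 < r) : ∃ K : Set Tree, IsCompact K ∧
    jt ⁻¹' {x | mt x ≤ R ∧ r ≤ Ft x} ⊆ K := by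
  obtain ⟨L, _, hL⟩ := f_small hr
  have hfin := finite_low R (-⌈L⌉ - 1)
  refine ⟨⋃ v ∈ {v : F2 | mt (Jv v) ≤ R ∧ -⌈L⌉ - 1 ≤ hgt v}, star v,
    hfin.isCompact_biUnion fun v _ => isCompact_star v, ?_⟩
  rintro b ⟨hm, hF⟩
  obtain ⟨y, t, h0, h1, h⟩ := exists_edge b
  rw [jt_eq b y t h0 h1.le h] at hm hF
  rw [Ft_pt _ (uu_pos y h0).le] at hF
  have hm' : max (uu y t) (rho (code y) zs) ≤ R := by rw [← pt_val _ (uu_pos y h0).le]; exact hm
  rw [mem_iUnion₂]
  refine ⟨y, ⟨?_, ?_⟩, up y, t, h0, h1.le, h⟩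
  · show (Jv y).1 zs ≤ R
    rw [Jv_val]
    exact max_le ((uu_ge y h0).trans ((le_max_left _ _).trans hm')) ((le_max_right _ _).trans hm')
  · by_contra hcon
    have h2 : (hgt y : ℝ) + 1 ≤ -L := by
      have h3 : hgt y + 1 ≤ -⌈L⌉ - 1 := by omega
      have h4 : (hgt y : ℝ) + 1 ≤ -(⌈L⌉ : ℝ) - 1 := by exact_mod_cast h3
      have := Int.le_ceil L
      linarith
    have h3 := hL _ h2
    have h4 := uu_le y h1.le
    linarith

theorem jt_emb : IsOpenEmbedding jt := by
  apply openEmb_of_proper jt_cont jt_inj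
  · rw [jt_range]; exact isOpen_lt continuous_const Ft_cont
  · intro z hz
    rw [jt_range] at hz
    have hz' : 0 < Ft z := hz
    obtain ⟨K, hK, hsub⟩ := preimage_compact (mt z + 1) (Ft z / 2) (by linarith)
    refine ⟨{x | mt x < mt z + 1} ∩ {x | Ft z / 2 < Ft x}, ?_, K, hK, ?_⟩
    · apply Filter.inter_mem
      · exact (isOpen_lt (eval_cont zs) continuous_const).mem_nhds (show mt z < mt z + 1 by linarith)
      · exact (isOpen_lt continuous_const Ft_cont).mem_nhds (show Ft z / 2 < Ft z by linarith)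
    · rintro b ⟨h1, h2⟩
      exact hsub ⟨le_of_lt (show mt (jt b) < mt z + 1 from h1), le_of_lt (show Ft z / 2 < Ft (jt b) from h2)⟩

end Pool.Agent.H872R2.ZB
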