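import Mathlib
import Pool.Agent.H872R2.ZB.TreeEmb
import Pool.Agent.H872R2.ZB.Sys
import Pool.Agent.Helper376.CL.ThatAE
import Pool.Agent.Helper376.CL.THLem

set_option maxHeartbeats 4000000
set_option synthInstance.maxHeartbeats 400000

/-! The system for the free group acting on its tree. -/

namespace Pool.Agent.H872R2.ZB

open Set Topology Filter Pool.Agent.Helper376.CL

/-! the tree is an absolute extensor -/

theorem that_tr_mem {p : ℝ × (List A → ℝ)} (hp : p ∈ That) {lam : ℝ} (h0 : 0 ≤ lam) (h1 : lam ≤ 1) :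
    (p.1, tr p.2 lam) ∈ That := by
  refine ⟨tr_mem hp.1 h0 h1, ?_⟩
  rcases hp.2 with h | h
  · left
    show tr p.2 lam = root
    rw [h, tr_root_ThatAE]
  · right; exact h

theorem isAE_fin : IsAE {p : ↥That // IsFin p.1.2} := by
  intro M _ C hC g hg
  obtain ⟨F, hF, hFC⟩ := isAE_That M C hC (fun a => (g a).1) (continuous_subtype_val.comp hg)
  rcases C.eq_empty_or_nonempty with hne | hne
  · -- constant map
    have h1 : ((0 : ℝ), root) ∈ That := ⟨root_mem, Or.inl rfl⟩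
    have h2 : IsFin root := ⟨1, fun l hl => by
      unfold root
      rw [if_neg]
      rintro rfl
      simp at hl⟩
    refine ⟨fun _ => ⟨⟨(0, root), h1⟩, h2⟩, continuous_const, ?_⟩
    intro a
    exact (Set.eq_empty_iff_forall_notMem.1 hne a a.2).elim
  · let lm' : M → ℝ := fun m => min 1 (Metric.infDist m C)
    have hl0 : ∀ m, 0 ≤ lm' m := fun m => le_min zero_le_one Metric.infDist_nonneg
    have hl1 : ∀ m, lm' m ≤ 1 := fun m => min_le_left _ _
    have hlc : Continuous lm' := continuous_const.min (Metric.continuous_infDist_pt C)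
    let H : M → {p : ↥That // IsFin p.1.2} := fun m =>
      ⟨⟨((F m).1.1, tr (F m).1.2 (lm' m)), that_tr_mem (F m).2 (hl0 m) (hl1 m)⟩, by
        show IsFin (tr (F m).1.2 (lm' m))
        by_cases hm : m ∈ C
        · have e1 : F m = (g ⟨m, hm⟩).1 := hFC ⟨m, hm⟩
          have e2 : IsFin (F m).1.2 := by rw [e1]; exact (g ⟨m, hm⟩).2
          exact tr_isFin_of_isFin (F m).2.1 e2 (hl0 m) (hl1 m)
        · have : 0 < lm' m := lt_min one_pos ((hC.notMem_iff_infDist_pos hne).1 hm)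
          exact tr_isFin (F m).2.1 this (hl1 m)⟩
    refine ⟨H, ?_, ?_⟩
    · refine Continuous.subtype_mk (Continuous.subtype_mk ?_ _) _
      refine (continuous_fst.comp (continuous_subtype_val.comp hF)).prodMk ?_
      refine continuous_pi fun l => ?_
      show Continuous fun m => min ((F m).1.2 l) (prof l.length (lm' m))
      refine Continuous.min ?_ ((prof_cont _).comp hlc)
      exact (continuous_apply l).comp (continuous_snd.comp (continuous_subtype_val.comp hF))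
    · intro a
      apply Subtype.ext
      apply Subtype.ext
      have e1 : F a = (g a).1 := hFC a
      have e2 : lm' a = 0 := by
        show min 1 (Metric.infDist (a : M) C) = 0
        rw [Metric.infDist_zero_of_mem a.2]; norm_num
      show ((F a).1.1, tr (F a).1.2 (lm' a)) = (g a).1.1
      rw [e2, tr_zero (F a).2.1, e1]

theorem isAE_Tree : IsAE Tree := by
  obtain ⟨h, -⟩ := exists_homeo_tree
  exact isAE_retract h h.symm h.continuous h.symm.continuous (fun y => h.symm_apply_apply y) isAE_fin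

/-! the action -/

theorem smul_cont_Tree (g : F2) : Continuous fun b : Tree => g • b := by
  refine continuous_induced_rng.2 (continuous_pi fun u => ?_)
  exact continuous_coord (u * g)

theorem cov_Tree (y : Tree) : ∃ U : Set Tree, IsOpen U ∧ y ∈ U ∧
    ∀ g : F2, g ≠ 1 → Disjoint ((fun y => g • y) '' U) U := by
  obtain ⟨U, hU, hy, hd⟩ := covering_TR (y, 0)
  refine ⟨(fun b : Tree => (b, (0:ℝ))) ⁻¹' U, hU.preimage (continuous_id.prodMk continuous_const), hy, ?_⟩
  intro g hg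
  have h1 := hd (g, 1) (fun h => hg (congrArg Prod.fst h))
  rw [Set.disjoint_left] at h1 ⊢
  rintro _ ⟨b, hb, rfl⟩ hb'
  refine h1 ⟨(b, 0), hb, rfl⟩ ?_
  show (g • b, (0:ℝ) + ((Multiplicative.toAdd (1 : Multiplicative ℤ) : ℤ) : ℝ)) ∈ U
  rw [toAdd_one, Int.cast_zero, add_zero]
  exact hb'

theorem coc_Tree : ∃ K₀ : Set Tree, IsCompact K₀ ∧ ∀ y : Tree, ∃ g : F2, g • y ∈ K₀ := by
  obtain ⟨K, hK, h⟩ := cocompact_TR
  refine ⟨Prod.fst '' K, hK.image continuous_fst, fun y => ?_⟩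
  obtain ⟨g, hg⟩ := h (y, 0)
  exact ⟨g.1, ⟨_, hg, rfl⟩⟩

theorem exists_pos (b : Tree) : ∃ w : F2, 0 < b.1 w := by
  obtain ⟨v, x, t, h0, h1, h⟩ := b.2
  have hne := lt_mul_ne x v
  by_cases ht : t < 1
  · refine ⟨v, ?_⟩
    rw [h]
    simp [ptf, hne.symm, ht]
  · refine ⟨lt x * v, ?_⟩
    rw [h]
    have : t = 1 := le_antisymm h1 (not_lt.1 ht)
    simp [ptf, lt_ne_one, this]

theorem cover_compact {K : Set Tree} (hK : IsCompact K) : ∃ S : Finset F2, ∀ b ∈ K, ∃ w ∈ S, 0 < b.1 w := by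
  classical
  refine hK.induction_on (p := fun T => ∃ S : Finset F2, ∀ b ∈ T, ∃ w ∈ S, 0 < b.1 w) ?_ ?_ ?_ ?_
  · exact ⟨∅, fun b hb => hb.elim⟩
  · rintro s t hst ⟨S, hS⟩
    exact ⟨S, fun b hb => hS b (hst hb)⟩
  · rintro s t ⟨S, hS⟩ ⟨S', hS'⟩
    refine ⟨S ∪ S', ?_⟩
    rintro b (hb | hb)
    · obtain ⟨w, hw, h⟩ := hS b hb
      exact ⟨w, Finset.mem_union_left _ hw, h⟩
    · obtain ⟨w, hw, h⟩ := hS' b hb
      exact ⟨w, Finset.mem_union_right _ hw, h⟩
  · intro b _
    obtain ⟨w, hw⟩ := exists_pos b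
    refine ⟨{b | 0 < b.1 w}, mem_nhdsWithin_of_mem_nhds
      ((isOpen_lt continuous_const (continuous_coord w)).mem_nhds hw), {w}, ?_⟩
    intro b' hb'
    exact ⟨w, Finset.mem_singleton_self w, hb'⟩

theorem proper_Tree (K C : Set Tree) (hK : IsCompact K) (hC : IsCompact C) :
    {g : F2 | ∃ y ∈ K, g • y ∈ C}.Finite := by
  classical
  obtain ⟨S, hS⟩ := cover_compact hK
  obtain ⟨S', hS'⟩ := cover_compact hC
  have hfin : (⋃ w ∈ S, ⋃ w' ∈ S', (fun z : F2 => z⁻¹ * w) '' (nb w' : Set F2)).Finite := by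
    refine S.finite_toSet.biUnion fun w _ => S'.finite_toSet.biUnion fun w' _ => ?_
    exact (nb w').finite_toSet.image _
  refine hfin.subset ?_
  rintro g ⟨y, hy, hgy⟩
  obtain ⟨w, hw, h1⟩ := hS y hy
  obtain ⟨w', hw', h2⟩ := hS' _ hgy
  rw [mem_iUnion₂]
  refine ⟨w, hw, ?_⟩
  rw [mem_iUnion₂]
  refine ⟨w', hw', w * g⁻¹, ?_, ?_⟩
  · by_contra hcon
    have h3 := supp_nb (g • y) w' (w * g⁻¹) h2.ne' hcon
    rw [smul_apply, inv_mul_cancel_right] at h3
    exact h1.ne' h3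
  · show (w * g⁻¹)⁻¹ * w = g
    group

/-! moving a bounded distance -/

/-- `w` moves every vertex at most `n` steps -/
def WW (n : ℕ) (w : F2) : Prop := ∀ v : F2, |hgt (w * v) - hgt v| ≤ n ∧
  ∀ s : ℝ, f ((hgt v : ℝ) + n) ≤ s → kt (Jv (w * v)) s = kt (Jv v) s

theorem kt_kt (x : Pt) {s s' : ℝ} (h : s' ≤ s) : kt (kt x s') s = kt x s := by
  apply Subtype.ext
  funext i
  show max (max (x.1 i) s') s = max (x.1 i) s
  rw [max_assoc, max_eq_right h]

theorem edge_step (v : F2) (x : A) : |hgt (lt x * v) - hgt v| ≤ 1 ∧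
    ∀ s : ℝ, f ((hgt v : ℝ) + 1) ≤ s → kt (Jv (lt x * v)) s = kt (Jv v) s := by
  rcases edge_pa v x with h | h
  · have e : lt x * v = pa v := by unfold pa; rw [h]
    obtain ⟨h1, h2⟩ := pa_J v
    rw [e]
    refine ⟨by rw [h1]; simp, fun s hs => ?_⟩
    rw [h2]
    apply kt_kt
    rw [h1]; push_cast; exact hs
  · have e : v = pa (lt x * v) := by
      unfold pa
      rw [← h, lt_invA_mul]
    obtain ⟨h1, h2⟩ := pa_J (lt x * v)
    rw [← e] at h1 h2
    refine ⟨by rw [h1]; simp, fun s hs => ?_⟩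
    rw [h2]
    symm
    apply kt_kt
    exact (f_le (by linarith)).trans hs

theorem WW_one : WW 0 1 := by
  intro v
  rw [one_mul]
  exact ⟨by simp, fun s _ => rfl⟩

theorem WW_step {n : ℕ} {w : F2} (h : WW n w) (x : A) : WW (n + 1) (lt x * w) := by
  intro v
  obtain ⟨h1, h2⟩ := h v
  obtain ⟨h3, h4⟩ := edge_step (w * v) x
  rw [mul_assoc]
  constructor
  · rw [abs_le] at *
    push_cast
    constructor <;> omega
  · intro s hs
    have e1 : (hgt (w * v) : ℝ) ≤ hgt v + n := by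
      have : hgt (w * v) ≤ hgt v + n := by rw [abs_le] at h1; omega
      exact_mod_cast this
    rw [h4 s ((f_le (by push_cast; linarith)).trans hs), h2 s ((f_le (by push_cast; linarith)).trans hs)]

theorem WW_mono {n m : ℕ} {w : F2} (h : WW n w) (hnm : n ≤ m) : WW m w := by
  intro v
  obtain ⟨h1, h2⟩ := h v
  have e : (n : ℝ) ≤ m := by exact_mod_cast hnm
  refine ⟨h1.trans (by exact_mod_cast hnm), fun s hs => h2 s ((f_le (by linarith)).trans hs)⟩

theorem exists_WW (w : F2) : ∃ n, WW n w := by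
  have h : ∀ l : List A, ∃ n, WW n (FreeGroup.mk l) := by
    intro l
    induction l with
    | nil => exact ⟨0, WW_one⟩
    | cons x l ih =>
      obtain ⟨n, hn⟩ := ih
      refine ⟨n + 1, ?_⟩
      have : FreeGroup.mk (x :: l) = lt x * FreeGroup.mk l := by
        unfold lt; rw [FreeGroup.mul_mk]; rfl
      rw [this]
      exact WW_step hn x
  rw [← FreeGroup.mk_toWord (x := w)]
  exact h _

theorem exists_WW_finset (S : Finset F2) : ∃ n, ∀ w ∈ S, WW n w ∧ ∀ x, WW n (lt x * w) := by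
  classical
  induction S using Finset.induction_on with
  | empty => exact ⟨0, fun w hw => absurd hw (Finset.notMem_empty w)⟩
  | insert a S _ ih =>
    obtain ⟨n, hn⟩ := ih
    obtain ⟨m, hm⟩ := exists_WW a
    refine ⟨max n (m + 1), ?_⟩
    intro w hw
    rcases Finset.mem_insert.1 hw with rfl | hw
    · exact ⟨WW_mono hm (by omega), fun x => WW_mono (WW_step hm x) (le_max_right _ _)⟩
    · exact ⟨WW_mono (hn w hw).1 (le_max_left _ _), fun x => WW_mono ((hn w hw).2 x) (le_max_left _ _)⟩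

/-- the position of translates of points of a compact set -/
theorem translate_form {S : Finset F2} {n : ℕ} (hn : ∀ w ∈ S, WW n w ∧ ∀ x, WW n (lt x * w))
    {b : Tree} (hb : ∃ w ∈ S, 0 < b.1 w) (g : F2) : ∃ (u u' : F2) (t : ℝ), WW n u ∧ WW n u' ∧ 0 ≤ t ∧ t ≤ 1 ∧
      ∀ i, (jt (g • b)).1 i = (1 - t) * (Jv (u * g⁻¹)).1 i + t * (Jv (u' * g⁻¹)).1 i := by
  obtain ⟨w, hw, hpos⟩ := hb
  obtain ⟨x, t, h0, h1, h⟩ := mem_star_of_pos b w hpos
  refine ⟨w, lt x * w, t, (hn w hw).1, (hn w hw).2 x, h0, h1, fun i => ?_⟩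
  have h2 : (g • b).1 = ptf (w * g⁻¹) x t := by
    funext u
    rw [smul_apply, h, ptf_mul]
  rw [jt_val, lin_val (g • b) (w * g⁻¹) x t h2 i, mul_assoc]

/-- bounds for `Jv (u * v)` -/
theorem WW_bounds {n : ℕ} {u : F2} (h : WW n u) (v : F2) (i : Bs) :
    f ((hgt v : ℝ) - n) ≤ (Jv (u * v)).1 i ∧
    max ((Jv (u * v)).1 i) (f ((hgt v : ℝ) + n)) = max ((Jv v).1 i) (f ((hgt v : ℝ) + n)) := by
  obtain ⟨h1, h2⟩ := h v
  constructor
  · rw [Jv_val]
    refine (f_le ?_).trans (le_max_left _ _)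
    have : hgt v - n ≤ hgt (u * v) := by rw [abs_le] at h1; omega
    exact_mod_cast this
  · have h3 := h2 _ le_rfl
    exact congrArg (fun x : Pt => x.1 i) h3

theorem conv_ge {t a b c : ℝ} (h0 : 0 ≤ t) (h1 : t ≤ 1) (ha : c ≤ a) (hb : c ≤ b) :
    c ≤ (1 - t) * a + t * b := by nlinarith
theorem conv_le {t a b c : ℝ} (h0 : 0 ≤ t) (h1 : t ≤ 1) (ha : a ≤ c) (hb : b ≤ c) :
    (1 - t) * a + t * b ≤ c := by nlinarith

/-- uniform closeness -/
theorem et_unif (R : ℝ) {ε : ℝ} (hε : 0 < ε) : ∃ δ : ℝ, 0 < δ ∧ ∀ x y : Pt, mt x ≤ R → mt y ≤ R →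
    (∀ i, |x.1 i - y.1 i| ≤ δ) → dist (et x) (et y) < ε := by
  have hC : IsCompact (({x : Pt | mt x ≤ R} ×ˢ {x : Pt | mt x ≤ R}) ∩ {p : Pt × Pt | ε ≤ dist (et p.1) (et p.2)}) := by
    refine ((cpt_Pt R).prod (cpt_Pt R)).inter_right (isClosed_le continuous_const ?_)
    exact (et_cont.comp continuous_fst).dist (et_cont.comp continuous_snd)
  have h1 := hC.induction_on (p := fun T : Set (Pt × Pt) => ∃ δ : ℝ, 0 < δ ∧ ∀ p ∈ T, ∃ i, δ < |p.1.1 i - p.2.1 i|)
    ⟨1, one_pos, fun p hp => hp.elim⟩ ?_ ?_ ?_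
  · obtain ⟨δ, hδ, h⟩ := h1
    refine ⟨δ, hδ, fun x y hx hy hxy => ?_⟩
    by_contra hcon
    obtain ⟨i, hi⟩ := h (x, y) ⟨⟨hx, hy⟩, not_lt.1 hcon⟩
    exact absurd (hxy i) (not_le.2 hi)
  · rintro s t hst ⟨δ, hδ, h⟩
    exact ⟨δ, hδ, fun p hp => h p (hst hp)⟩
  · rintro s t ⟨δ, hδ, h⟩ ⟨δ', hδ', h'⟩
    refine ⟨min δ δ', lt_min hδ hδ', ?_⟩
    rintro p (hp | hp)
    · obtain ⟨i, hi⟩ := h p hp
      exact ⟨i, lt_of_le_of_lt (min_le_left _ _) hi⟩
    · obtain ⟨i, hi⟩ := h' p hp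
      exact ⟨i, lt_of_le_of_lt (min_le_right _ _) hi⟩
  · rintro ⟨x, y⟩ ⟨-, hxy⟩
    have hxy' : ε ≤ dist (et x) (et y) := hxy
    have hne : x ≠ y := by
      rintro rfl
      rw [dist_self] at hxy'
      linarith
    have h2 : ∃ i, x.1 i ≠ y.1 i := by
      by_contra hcon
      push Not at hcon
      exact hne (Subtype.ext (funext hcon))
    obtain ⟨i, hi⟩ := h2
    have h3 : 0 < |x.1 i - y.1 i| := abs_pos.2 (sub_ne_zero.2 hi)
    have h4 : Continuous fun p : Pt × Pt => |p.1.1 i - p.2.1 i| :=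
      (((eval_cont i).comp continuous_fst).sub ((eval_cont i).comp continuous_snd)).abs
    refine ⟨{p | |x.1 i - y.1 i| / 2 < |p.1.1 i - p.2.1 i|}, ?_, |x.1 i - y.1 i| / 2, by linarith, ?_⟩
    · apply mem_nhdsWithin_of_mem_nhds
      exact (isOpen_lt continuous_const h4).mem_nhds
        (show |x.1 i - y.1 i| / 2 < |(x, y).1.1 i - (x, y).2.1 i| by
          show |x.1 i - y.1 i| / 2 < |x.1 i - y.1 i|
          linarith)
    · intro p hp
      exact ⟨i, hp⟩

theorem null_Tree (K : Set Tree) (hK : IsCompact K) (ε : ℝ) (hε : 0 < ε) (R : ℝ) :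
    {g : F2 | ∃ p ∈ K, mt (jt (g • p)) ≤ R ∧ ∃ p' ∈ K,
      ε ≤ dist (et (jt (g • p))) (et (jt (g • p'))) ∨
      ε ≤ |Real.log (Ft (jt (g • p))) - Real.log (Ft (jt (g • p')))|}.Finite := by
  obtain ⟨S, hS⟩ := cover_compact hK
  obtain ⟨n, hn⟩ := exists_WW_finset S
  obtain ⟨δ, hδ, hunif⟩ := et_unif (R + 1) hε
  obtain ⟨L, hL, hLs⟩ := f_small (show 0 < min δ 1 from lt_min hδ one_pos)
  obtain ⟨L', hL', hLs'⟩ := ars_small n (Nat.cast_nonneg n) hε
  set R' : ℝ := max R (f (R + 2 * n)) with hR'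
  have hfin := (finite_low R' (-⌈L + L' + n⌉)).image (fun v : F2 => v⁻¹)
  refine hfin.subset ?_
  rintro g ⟨p, hp, hpR, p', hp', hbad⟩
  refine ⟨g⁻¹, ?_, inv_inv g⟩
  set v := g⁻¹ with hv
  obtain ⟨u1, u2, t, hu1, hu2, h0, h1, hform⟩ := translate_form hn (hS p hp) g
  obtain ⟨u1', u2', t', hu1', hu2', h0', h1', hform'⟩ := translate_form hn (hS p' hp') g
  rw [← hv] at hform hform'
  -- the size of `v`
  have hJ : ∃ u, WW n u ∧ (Jv (u * v)).1 zs ≤ R := by
    by_contra hcon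
    push Not at hcon
    have e1 := hcon u1 hu1
    have e2 := hcon u2 hu2
    have e3 : (jt (g • p)).1 zs ≤ R := hpR
    rw [hform zs] at e3
    rcases h1.eq_or_lt with h | h
    · rw [h] at e3; linarith
    · nlinarith
  obtain ⟨u, hu, hJu⟩ := hJ
  have hb := (WW_bounds hu v zs).2
  have hhu : (hgt v : ℝ) ≤ R + n := by
    have e1 : f (hgt (u * v)) ≤ R := by
      have := Jv_val (u * v) zs
      rw [this] at hJu
      exact (le_max_left _ _).trans hJu
    have e2 := (le_f _).trans e1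
    have e3 := (hu v).1
    rw [abs_le] at e3
    have e4 : hgt v ≤ hgt (u * v) + n := by omega
    have e5 : (hgt v : ℝ) ≤ hgt (u * v) + n := by exact_mod_cast e4
    linarith
  have hm : mt (Jv v) ≤ R' := by
    show (Jv v).1 zs ≤ R'
    calc (Jv v).1 zs ≤ max ((Jv v).1 zs) (f ((hgt v : ℝ) + n)) := le_max_left _ _
      _ = max ((Jv (u * v)).1 zs) (f ((hgt v : ℝ) + n)) := hb.symm
      _ ≤ R' := max_le_max hJu (f_le (by linarith))
  refine ⟨hm, ?_⟩
  by_contra hcon
  have hlow : (hgt v : ℝ) ≤ -(L + L' + n) := by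
    have e1 : hgt v < -⌈L + L' + n⌉ := not_le.1 hcon
    have e2 : (hgt v : ℝ) < -(⌈L + L' + n⌉ : ℝ) := by exact_mod_cast e1
    have := Int.le_ceil (L + L' + n)
    linarith
  have hnn : (0:ℝ) ≤ n := Nat.cast_nonneg n
  set s := f ((hgt v : ℝ) + n) with hs
  have hs1 : s < min δ 1 := hLs _ (by linarith)
  have hars := hLs' (hgt v) (by linarith)
  -- all coordinates are close
  have hclose : ∀ i, |(jt (g • p)).1 i - (jt (g • p')).1 i| ≤ s := by
    intro i
    have b1 := WW_bounds hu1 v i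
    have b2 := WW_bounds hu2 v i
    have b1' := WW_bounds hu1' v i
    have b2' := WW_bounds hu2' v i
    rw [← hs] at b1 b2 b1' b2'
    have hfp := f_pos ((hgt v : ℝ) - n)
    rw [hform i, hform' i]
    rcases le_or_gt ((Jv v).1 i) s with hc | hc
    · have key : ∀ u, f ((hgt v : ℝ) - n) ≤ (Jv (u * v)).1 i ∧
          max ((Jv (u * v)).1 i) s = max ((Jv v).1 i) s → 0 ≤ (Jv (u * v)).1 i ∧ (Jv (u * v)).1 i ≤ s := by
        intro u hu
        refine ⟨hfp.le.trans hu.1, ?_⟩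
        rw [← max_eq_right hc, ← hu.2]
        exact le_max_left _ _
      obtain ⟨x1, y1⟩ := key u1 b1
      obtain ⟨x2, y2⟩ := key u2 b2
      obtain ⟨x3, y3⟩ := key u1' b1'
      obtain ⟨x4, y4⟩ := key u2' b2'
      have z1 := conv_ge h0 h1 x1 x2
      have z2 := conv_le h0 h1 y1 y2
      have z3 := conv_ge h0' h1' x3 x4
      have z4 := conv_le h0' h1' y3 y4
      rw [abs_le]
      constructor <;> linarith
    · have key : ∀ u, f ((hgt v : ℝ) - n) ≤ (Jv (u * v)).1 i ∧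
          max ((Jv (u * v)).1 i) s = max ((Jv v).1 i) s → (Jv (u * v)).1 i = (Jv v).1 i := by
        intro u hu
        have e := hu.2
        rw [max_eq_left hc.le] at e
        rcases le_total ((Jv (u * v)).1 i) s with h | h
        · rw [max_eq_right h] at e
          linarith
        · rwa [max_eq_left h] at e
      rw [key u1 b1, key u2 b2, key u1' b1', key u2' b2']
      have : (1 - t) * (Jv v).1 i + t * (Jv v).1 i - ((1 - t') * (Jv v).1 i + t' * (Jv v).1 i) = 0 := by ring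
      rw [this, abs_zero]
      exact (f_pos _).le
  rcases hbad with hbad | hbad
  · refine absurd hbad (not_le.2 (hunif _ _ (by linarith [show mt (jt (g • p)) ≤ R from hpR]) ?_ (fun i => (hclose i).trans (hs1.le.trans (min_le_left _ _)))))
    have e1 := hclose zs
    rw [abs_le] at e1
    have e2 : (jt (g • p)).1 zs ≤ R := hpR
    show (jt (g • p')).1 zs ≤ R + 1
    have e3 : s ≤ 1 := hs1.le.trans (min_le_right _ _)
    linarith [e1.1]
  · -- heights
    have hF : ∀ (q : Tree) (u1 u2 : F2) (t : ℝ), WW n u1 → WW n u2 → 0 ≤ t → t ≤ 1 →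
        (∀ i, (jt (g • q)).1 i = (1 - t) * (Jv (u1 * v)).1 i + t * (Jv (u2 * v)).1 i) →
        Real.arsinh ((hgt v : ℝ) - n) ≤ Real.log (Ft (jt (g • q))) ∧
        Real.log (Ft (jt (g • q))) ≤ Real.arsinh ((hgt v : ℝ) + n) := by
      intro q u1 u2 t hu1 hu2 h0 h1 hform
      have hpos := Ft_jt_pos (g • q)
      constructor
      · rw [← log_f]
        apply Real.log_le_log (f_pos _)
        unfold Ft
        refine le_ciInf fun i => ?_
        rw [hform i]
        exact conv_ge h0 h1 (WW_bounds hu1 v i).1 (WW_bounds hu2 v i).1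
      · rw [← log_f]
        apply Real.log_le_log hpos
        refine (Ft_le _ (code v)).trans ?_
        rw [hform]
        have e1 : (Jv v).1 (code v) ≤ s := by
          rw [Jv_val, rho_self, max_eq_left (f_pos _).le]
          exact f_le (by linarith)
        have key : ∀ u, WW n u → (Jv (u * v)).1 (code v) ≤ s := by
          intro u hu
          have := (WW_bounds hu v (code v)).2
          rw [← hs, max_eq_right e1] at this
          rw [← this]
          exact le_max_left _ _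
        exact conv_le h0 h1 (key u1 hu1) (key u2 hu2)
    obtain ⟨a1, a2⟩ := hF p u1 u2 t hu1 hu2 h0 h1 hform
    obtain ⟨a3, a4⟩ := hF p' u1' u2' t' hu1' hu2' h0' h1' hform'
    refine absurd hbad (not_le.2 ?_)
    rw [abs_lt]
    constructor <;> linarith

/-- the system for the free group -/
noncomputable def treeSys : Sys F2 Tree Pt (ℝ × ℝ × ℝ) where
  F := Ft
  m := mt
  κ := kt
  q := qt
  e := et
  j := jt
  F_cont := Ft_cont
  m_cont := eval_cont zs
  κ_cont := kt_cont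
  q_cont := qt_cont
  e_cont := et_cont
  e_inj := et_inj
  F_nonneg := Ft_nonneg
  F_le := fun x => Ft_le x zs
  κ_le := kt_le
  F_κ := Ft_kt
  m_κ := fun _ _ => rfl
  κ_q := kt_q
  F_q := Ft_q
  m_q := mt_q
  cpt := cpt_Pt
  m_le_e := mt_le_et
  j_emb := jt_emb
  j_range := jt_range
  ae := isAE_Tree
  smul_cont := smul_cont_Tree
  cov := cov_Tree
  coc := coc_Tree
  proper := proper_Tree
  null := null_Tree

end Pool.Agent.H872R2.ZB
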