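import Mathlib
import Pool.Agent.H872R2.ZB.TreeSys
import Pool.Agent.H872R2.ZB.Line
import Pool.Agent.H872R2.ZB.Bdy

set_option maxHeartbeats 4000000
set_option synthInstance.maxHeartbeats 400000

/-! `F₂ × ℤ` and `F₂ × F₂` have a common Z-structure boundary. -/

namespace Pool.Agent.H872R2.ZB

open Set Topology Filter Pool.Agent.Helper376.CL

/-- the common boundary: the one-point compactification of `B × ℝ`, with `B` a Cantor set minus a point -/
abbrev ZC : Type := OnePoint (Bs × ℝ)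

theorem isZBoundary_F2Z : IsZBoundary (FreeGroup (Fin 2) × Multiplicative ℤ) ZC := by
  obtain ⟨h⟩ := bd_homeo
  have e2 : Nonempty (Unit ≃ₜ Bd lineSys) := by
    have : Unique (Bd lineSys) := ⟨⟨⟨⟨0, le_rfl⟩, rfl⟩⟩, fun x => Subtype.ext (Subtype.ext x.2)⟩
    exact ⟨Homeomorph.homeomorphOfUnique _ _⟩
  obtain ⟨e2⟩ := e2
  have e : Bs × ℝ ≃ₜ Bd treeSys × Bd lineSys × ℝ :=
    (Homeomorph.prodCongr (Homeomorph.refl Bs) (Homeomorph.punitProd ℝ).symm).trans
      (Homeomorph.prodCongr h (Homeomorph.prodCongr e2 (Homeomorph.refl ℝ)))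
  exact isZBoundary_onePoint (a := treeSys) (b := lineSys) inferInstance inferInstance
    e.onePointCongr

theorem isZBoundary_F2F2 : IsZBoundary (FreeGroup (Fin 2) × FreeGroup (Fin 2)) ZC := by
  obtain ⟨h⟩ := bd_homeo
  have e : Bs × ℝ ≃ₜ Bd treeSys × Bd treeSys × ℝ :=
    (Homeomorph.prodCongr inter.symm (Homeomorph.refl ℝ)).trans
      ((Homeomorph.prodAssoc Bs Bs ℝ).trans
        (Homeomorph.prodCongr h (Homeomorph.prodCongr h (Homeomorph.refl ℝ))))
  exact isZBoundary_onePoint (a := treeSys) (b := treeSys) inferInstance inferInstance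
    e.onePointCongr

end Pool.Agent.H872R2.ZB
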