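import Mathlib
import Pool.Agent.Helper270.Tree
import Pool.Agent.Helper270.HNN

set_option maxHeartbeats 4000000
set_option synthInstance.maxHeartbeats 400000

/-! `F₂ × ℤ` splits over a two-ended subgroup, `F₂ × F₂` does not. -/

namespace Pool.Agent.H872R2.ZB

open Pool.Agent.Helper270.Tree Pool.Agent.Helper270.HNN HNNExtension

/-- The subgroup `C` is two-ended, i.e. virtually infinite cyclic. -/
def TwoEnded {G : Type} [Group G] (C : Subgroup G) : Prop :=
  ∃ Z : Subgroup C, Z.FiniteIndex ∧ Nonempty (Z ≃* Multiplicative ℤ)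

/-- A splitting over a two-ended subgroup, given by an action on a tree. -/
structure IsTwoEndedSplitting (G : Type) [Group G] {V : Type*} [MulAction G V] (T : SimpleGraph V) :
    Prop where
  isTree : T.IsTree
  adj : ∀ (g : G) (v w : V), T.Adj v w → T.Adj (g • v) (g • w)
  noInv : ∀ (g : G) (v w : V), T.Adj v w → ¬ (g • v = w ∧ g • w = v)
  noFixed : ∀ v : V, ∃ g : G, g • v ≠ v
  oneOrbit : ∀ v w v' w' : V, T.Adj v w → T.Adj v' w' →
    ∃ g : G, (g • v = v' ∧ g • w = w') ∨ (g • v = w' ∧ g • w = v')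
  twoEnded : ∀ v w : V, T.Adj v w →
    TwoEnded (MulAction.stabilizer G v ⊓ MulAction.stabilizer G w)

/-- `G` splits over a two-ended subgroup. -/
def SplitsOverTwoEnded (G : Type) [Group G] : Prop :=
  ∃ (V : Type) (_ : MulAction G V) (T : SimpleGraph V), IsTwoEndedSplitting G T

/-! ### The group `F₂ × F₂` -/

abbrev F : Type := FreeGroup (Fin 2)

/-- two elements of a two-ended subgroup have a common power -/
theorem common_power {G : Type} [Group G] {C : Subgroup G} (hC : TwoEnded C) {x y : G} (hx : x ∈ C)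
    (hy : y ∈ C) (hyo : ∀ n : ℕ, 0 < n → y ^ n ≠ 1) : ∃ (m n : ℤ), m ≠ 0 ∧ x ^ m = y ^ n := by
  obtain ⟨Z, hZ, ⟨e⟩⟩ := hC
  obtain ⟨m, hm, _, hxm⟩ := Subgroup.exists_pow_mem_of_index_ne_zero (H := Z)
    hZ.index_ne_zero ⟨x, hx⟩
  obtain ⟨n, hn, _, hyn⟩ := Subgroup.exists_pow_mem_of_index_ne_zero (H := Z)
    hZ.index_ne_zero ⟨y, hy⟩
  set p : ℤ := Multiplicative.toAdd (e ⟨_, hxm⟩) with hp
  set q : ℤ := Multiplicative.toAdd (e ⟨_, hyn⟩) with hq
  have hq0 : q ≠ 0 := by
    intro h0
    have h1 : e ⟨_, hyn⟩ = 1 := by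
      apply Multiplicative.toAdd.injective
      rw [toAdd_one]; exact h0
    have h2 : (⟨(⟨y, hy⟩ : C) ^ n, hyn⟩ : Z) = 1 := by
      apply e.injective
      rw [h1, map_one]
    have h3 : (⟨y, hy⟩ : C) ^ n = 1 := congrArg Subtype.val h2
    have h4 : y ^ n = 1 := congrArg Subtype.val h3
    exact hyo n hn h4
  refine ⟨m * q, n * p, mul_ne_zero (by exact_mod_cast hm.ne') hq0, ?_⟩
  have h1 : (⟨_, hxm⟩ : Z) ^ q = (⟨_, hyn⟩ : Z) ^ p := by
    apply e.injective
    rw [map_zpow, map_zpow]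
    apply Multiplicative.toAdd.injective
    rw [toAdd_zpow, toAdd_zpow, ← hp, ← hq]
    simp only [smul_eq_mul]
    ring
  have h2 := congrArg (fun z : Z => ((z : C) : G)) h1
  simp only [Subgroup.coe_zpow, SubmonoidClass.coe_pow] at h2
  rw [zpow_mul, zpow_mul, zpow_natCast, zpow_natCast]
  exact h2

/-! two representations -/

def pS : Equiv.Perm (ℤ × ℤ) where
  toFun p := (p.1 + 1, p.2)
  invFun p := (p.1 - 1, p.2)
  left_inv p := by simp
  right_inv p := by simp

def pT : Equiv.Perm (ℤ × ℤ) where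
  toFun p := (p.1, p.2 + p.1)
  invFun p := (p.1, p.2 - p.1)
  left_inv p := by simp
  right_inv p := by simp

def qS : Equiv.Perm ℚ where
  toFun z := 2 * z
  invFun z := z / 2
  left_inv z := by simp
  right_inv z := by ring

def qT : Equiv.Perm ℚ where
  toFun z := z + 1
  invFun z := z - 1
  left_inv z := by simp
  right_inv z := by simp

def th1 : F →* Equiv.Perm (ℤ × ℤ) := FreeGroup.lift ![pS, pT]
def th2 : F →* Equiv.Perm ℚ := FreeGroup.lift ![qS, qT]

/-- the commutator of the generators -/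
def xx : F := FreeGroup.of 0 * FreeGroup.of 1 * (FreeGroup.of 0)⁻¹ * (FreeGroup.of 1)⁻¹
/-- a triple commutator -/
def yy : F := FreeGroup.of 0 * xx * (FreeGroup.of 0)⁻¹ * xx⁻¹

theorem pST : pS * pT * pS⁻¹ * pT⁻¹ = (⟨fun p => (p.1, p.2 - 1), fun p => (p.1, p.2 + 1),
    fun p => by simp, fun p => by simp⟩ : Equiv.Perm (ℤ × ℤ)) := by
  ext ⟨a, b⟩ <;> simp [pS, pT, Equiv.Perm.mul_apply, Equiv.Perm.inv_def]

theorem qST : qS * qT * qS⁻¹ * qT⁻¹ = qT := by
  ext z
  simp [qS, qT, Equiv.Perm.mul_apply, Equiv.Perm.inv_def]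
  ring

theorem th1_xx : th1 xx = (⟨fun p => (p.1, p.2 - 1), fun p => (p.1, p.2 + 1),
    fun p => by simp, fun p => by simp⟩ : Equiv.Perm (ℤ × ℤ)) := by
  rw [← pST]
  simp [th1, xx]

theorem th1_yy : th1 yy = 1 := by
  unfold yy
  rw [map_mul, map_mul, map_mul, map_inv, map_inv, th1_xx]
  have h : th1 (FreeGroup.of 0) = pS := by simp [th1]
  rw [h]
  ext ⟨a, b⟩ <;> simp [pS, Equiv.Perm.mul_apply, Equiv.Perm.inv_def]

theorem th2_xx : th2 xx = qT := by
  have : th2 xx = qS * qT * qS⁻¹ * qT⁻¹ := by simp [th2, xx]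
  rw [this, qST]

theorem th2_yy : th2 yy = qT := by
  unfold yy
  rw [map_mul, map_mul, map_mul, map_inv, map_inv, th2_xx]
  have h : th2 (FreeGroup.of 0) = qS := by simp [th2]
  rw [h, qST]

theorem qT_pow (n : ℕ) (z : ℚ) : (qT ^ n) z = z + n := by
  induction n generalizing z with
  | zero => simp
  | succ n ih =>
    rw [pow_succ, Equiv.Perm.mul_apply, ih]
    show z + 1 + n = z + ((n + 1 : ℕ) : ℚ)
    push_cast; ring

theorem yy_order (n : ℕ) (hn : 0 < n) : yy ^ n ≠ 1 := by
  intro h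
  have h1 := congrArg th2 h
  rw [map_pow, th2_yy, map_one] at h1
  have h2 := congrArg (fun σ : Equiv.Perm ℚ => σ 0) h1
  simp only [qT_pow, Equiv.Perm.one_apply, zero_add] at h2
  have : n = 0 := by exact_mod_cast h2
  omega

theorem xx_zpow (m : ℤ) (p : ℤ × ℤ) : (th1 xx ^ m) p = (p.1, p.2 - m) := by
  have h0 : ∀ p : ℤ × ℤ, (th1 xx) p = (p.1, p.2 - 1) := by
    intro p; rw [th1_xx]; rfl
  have h0' : ∀ p : ℤ × ℤ, (th1 xx)⁻¹ p = (p.1, p.2 + 1) := by
    intro p; rw [th1_xx]; rfl
  induction m using Int.induction_on generalizing p with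
  | zero => simp
  | succ n ih =>
    rw [zpow_add_one, Equiv.Perm.mul_apply, h0, ih]
    simp only [Prod.mk.injEq, true_and]; ring
  | pred n ih =>
    rw [zpow_sub_one, Equiv.Perm.mul_apply, h0', ih]
    simp only [Prod.mk.injEq, true_and]; ring

theorem no_common (m n : ℤ) (hm : m ≠ 0) (h : xx ^ m = yy ^ n) : False := by
  have h1 := congrArg th1 h
  rw [map_zpow, map_zpow, th1_yy, one_zpow] at h1
  have h2 := congrArg (fun σ : Equiv.Perm (ℤ × ℤ) => (σ (0, 0)).2) h1
  simp only [xx_zpow, Equiv.Perm.one_apply, zero_sub] at h2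
  omega

section NoSplit

variable {V : Type*} [MulAction (F × F) V] {T : SimpleGraph V}

/-- The elements of a factor have fixed vertices, general form: `i` is the inclusion of the other
factor. -/
theorem elliptic_aux {V : Type} {G : Type} [Group G] [MulAction G V] {T : SimpleGraph V}
    (h : IsTwoEndedSplitting G T) (i : F →* G) (hi : Function.Injective i) (g : G)
    (hg : ∀ b, i b * g = g * i b) : ∃ v : V, g • v = v := by
  have hT : TreeAct G T := ⟨h.isTree, h.adj, h.noInv⟩
  by_contra hcon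
  push Not at hcon
  obtain ⟨L, l, hax⟩ := hT.exists_axis hcon
  have htr : ∀ b, ∃ c : ℤ, ∀ j, i b • L j = L (c + j) := fun b => hT.commute_axis hax (hg b)
  have hinv : ∀ (b : F) (c : ℤ), (∀ j, i b • L j = L (c + j)) → ∀ j, (i b)⁻¹ • L j = L (-c + j) := by
    intro b c hc j
    rw [inv_smul_eq_iff, hc]
    congr 1; ring
  have hcomm : ∀ b b' : F, ∀ j, i (b * b' * b⁻¹ * b'⁻¹) • L j = L j := by
    intro b b' j
    obtain ⟨c, hc⟩ := htr b
    obtain ⟨c', hc'⟩ := htr b'
    rw [map_mul, map_mul, map_mul, map_inv, map_inv, mul_smul, mul_smul, mul_smul,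
      hinv b' c' hc', hinv b c hc, hc', hc]
    congr 1; ring
  have hx : ∀ j, i xx • L j = L j := fun j => hcomm _ _ j
  have hy : ∀ j, i yy • L j = L j := fun j => hcomm _ _ j
  have hte := h.twoEnded (L 0) (L 1) (by simpa using hax.line.adj 0)
  obtain ⟨m, n, hm, hmn⟩ := common_power hte (x := i xx) (y := i yy) ⟨hx 0, hx 1⟩ ⟨hy 0, hy 1⟩ (by
    intro n hn hyn
    rw [← map_pow, ← map_one i] at hyn
    exact yy_order n hn (hi hyn))
  rw [← map_zpow, ← map_zpow] at hmn
  exact no_common m n hm (hi hmn)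

end NoSplit

theorem not_splits_F2F2 : ¬ SplitsOverTwoEnded (F × F) := by
  rintro ⟨V, act, T, h⟩
  have hT : TreeAct (F × F) T := ⟨h.isTree, h.adj, h.noInv⟩
  have hl : ∀ a : F, ∃ v : V, ((a, 1) : F × F) • v = v := fun a =>
    elliptic_aux h (MonoidHom.inr F F) (fun b b' hb => congrArg Prod.snd hb) (a, 1) (fun b => by
      show ((1, b) : F × F) * (a, 1) = (a, 1) * (1, b)
      simp)
  have hr : ∀ b : F, ∃ v : V, ((1, b) : F × F) • v = v := fun b =>
    elliptic_aux h (MonoidHom.inl F F) (fun b b' hb => congrArg Prod.fst hb) (1, b) (fun a => by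
      show ((a, 1) : F × F) * (1, b) = (1, b) * (a, 1)
      simp)
  set s : F := FreeGroup.of 0 with hs
  set t : F := FreeGroup.of 1 with ht
  -- the first factor
  obtain ⟨x1, hx1, hx1'⟩ := hT.common_fixed {((s, 1) : F × F)} (t, 1)
    (by obtain ⟨v, hv⟩ := hl s; exact ⟨v, by simpa using hv⟩) (hl t) (by
      intro a ha
      rw [Set.mem_singleton_iff.1 ha]
      have : ((s, 1) : F × F) * (t, 1) = (s * t, 1) := by simp
      rw [this]; exact hl _)
  -- add one element of the second factor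
  obtain ⟨x2, hx2, hx2'⟩ := common_of_invariant hT {((s, 1) : F × F), (t, 1)} (1, s)
    ⟨x1, by
      intro a ha
      rcases ha with rfl | ha
      · exact hx1 _ rfl
      · rw [Set.mem_singleton_iff.1 ha]; exact hx1'⟩ (hr s) (by
      intro x hx a ha
      have hc : a * (1, s) = (1, s) * a := by
        rcases ha with rfl | ha
        · simp
        · rw [Set.mem_singleton_iff.1 ha]; simp
      rw [← mul_smul, hc, mul_smul, hx a ha])
  -- commuting elliptic elements
  have hcm : ∀ a : F, ∃ v : V, (((a, 1) : F × F) * (1, t)) • v = v := by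
    intro a
    obtain ⟨x, hx, hx'⟩ := common_of_invariant hT {((a, 1) : F × F)} (1, t)
      (by obtain ⟨v, hv⟩ := hl a; exact ⟨v, by simpa using hv⟩) (hr t) (by
        intro x hx b hb
        have hc : b * (1, t) = (1, t) * b := by
          rw [Set.mem_singleton_iff.1 hb]; simp
        rw [← mul_smul, hc, mul_smul, hx b hb])
    exact ⟨x, by rw [mul_smul, hx', hx _ rfl]⟩
  -- add the last element
  obtain ⟨x3, hx3, hx3'⟩ := hT.common_fixed {((s, 1) : F × F), (t, 1), (1, s)} (1, t)
    ⟨x2, by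
      intro a ha
      rcases ha with rfl | rfl | ha
      · exact hx2 _ (Or.inl rfl)
      · exact hx2 _ (Or.inr rfl)
      · rw [Set.mem_singleton_iff.1 ha]; exact hx2'⟩ (hr t) (by
      intro a ha
      rcases ha with rfl | rfl | ha
      · exact hcm s
      · exact hcm t
      · rw [Set.mem_singleton_iff.1 ha]
        have : ((1, s) : F × F) * (1, t) = (1, s * t) := by simp
        rw [this]; exact hr _)
  -- everything fixes `x3`
  have hgen : ∀ (i : F →* F × F), i s • x3 = x3 → i t • x3 = x3 → ∀ a : F, i a • x3 = x3 := by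
    intro i h1 h2 a
    have hle : Subgroup.closure (Set.range (FreeGroup.of : Fin 2 → F)) ≤
        (MulAction.stabilizer (F × F) x3).comap i := by
      rw [Subgroup.closure_le]
      rintro _ ⟨k, rfl⟩
      fin_cases k
      · exact h1
      · exact h2
    rw [FreeGroup.closure_range_of] at hle
    exact hle (Subgroup.mem_top a)
  have hA := hgen (MonoidHom.inl F F) (hx3 _ (Or.inl rfl)) (hx3 _ (Or.inr (Or.inl rfl)))
  have hB := hgen (MonoidHom.inr F F) (hx3 _ (Or.inr (Or.inr rfl))) hx3'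
  obtain ⟨g, hg⟩ := h.noFixed x3
  apply hg
  have : g = MonoidHom.inl F F g.1 * MonoidHom.inr F F g.2 := by
    show g = (g.1, 1) * (1, g.2)
    simp
  rw [this, mul_smul, hB, hA]

/-! ### The group `F₂ × ℤ` -/

section Splits

open Multiplicative

abbrev Zm : Type := Multiplicative ℤ

/-- the group `⟨a⟩ * ⟨t⟩` as an HNN extension -/
abbrev HN : Type := HNNExtension Zm (⊥ : Subgroup Zm) (⊥ : Subgroup Zm) (MulEquiv.refl _)

noncomputable def toHN : F →* HN := FreeGroup.lift ![HNNExtension.of (ofAdd 1), HNNExtension.t]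

noncomputable def frHN : HN →* F :=
  HNNExtension.lift (zpowersHom F (FreeGroup.of 0)) (FreeGroup.of 1) (by
    rintro ⟨a, ha⟩
    rw [Subgroup.mem_bot] at ha
    subst ha
    simp)

theorem frHN_toHN (w : F) : frHN (toHN w) = w := by
  have h : frHN.comp toHN = MonoidHom.id F := by
    apply FreeGroup.ext_hom
    intro k
    fin_cases k
    · simp [frHN, toHN]
    · simp [frHN, toHN]
  exact congrArg (fun φ : F →* F => φ w) h

theorem toHN_frHN (w : HN) : toHN (frHN w) = w := by
  have h : toHN.comp frHN = MonoidHom.id HN := by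
    apply HNNExtension.hom_ext
    · ext
      simp [frHN, toHN]
    · simp [frHN, toHN]
  exact congrArg (fun φ : HN →* HN => φ w) h

/-- the map of `F₂ × ℤ` to the HNN extension -/
noncomputable def prHN : F × Zm →* HN := toHN.comp (MonoidHom.fst F Zm)

theorem splits_F2Z : SplitsOverTwoEnded (F × Zm) := by
  let φ : (⊥ : Subgroup Zm) ≃* (⊥ : Subgroup Zm) := MulEquiv.refl _
  have hT : TreeAct HN (graph φ) := treeAct
  refine ⟨Vert φ, MulAction.compHom _ prHN, graph φ, ?_⟩
  letI act : MulAction (F × Zm) (Vert φ) := MulAction.compHom _ prHN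
  have hact : ∀ (g : F × Zm) (v : Vert φ), g • v = toHN g.1 • v := fun _ _ => rfl
  have hsurj : ∀ k : HN, ∃ g : F × Zm, ∀ v : Vert φ, g • v = k • v := fun k =>
    ⟨(frHN k, 1), fun v => by rw [hact, toHN_frHN]⟩
  refine ⟨hT.isTree, fun g => hT.adj (toHN g.1), fun g => hT.noInv (toHN g.1), ?_, ?_, ?_⟩
  · intro v
    obtain ⟨g, hg⟩ := hsurj HNNExtension.t
    exact ⟨g, by rw [hg]; exact no_fixed_vertex v⟩
  · intro v w v' w' h h'
    obtain ⟨k, hk⟩ := one_orbit h
    obtain ⟨k', hk'⟩ := one_orbit h'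
    obtain ⟨g, hg⟩ := hsurj (k' * k⁻¹)
    refine ⟨g, ?_⟩
    rw [hg, hg]
    rcases hk with ⟨rfl, rfl⟩ | ⟨rfl, rfl⟩ <;> rcases hk' with ⟨rfl, rfl⟩ | ⟨rfl, rfl⟩ <;>
      simp only [mul_smul, inv_smul_smul, and_self, true_or, or_true]
  · intro v w hvw
    -- the stabiliser is the second factor
    have hstab : ∀ g : F × Zm, g ∈ (MulAction.stabilizer (F × Zm) v ⊓ MulAction.stabilizer (F × Zm) w) ↔
        g.1 = 1 := by
      intro g
      rw [Subgroup.mem_inf, MulAction.mem_stabilizer_iff, MulAction.mem_stabilizer_iff, hact, hact]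
      constructor
      · rintro ⟨h1, h2⟩
        obtain ⟨k, hk⟩ := one_orbit hvw
        have h3 : k⁻¹ * toHN g.1 * k ∈ MulAction.stabilizer HN (vt 1 : Vert φ) ⊓
            MulAction.stabilizer HN (vt HNNExtension.t⁻¹ : Vert φ) := by
          rw [Subgroup.mem_inf, MulAction.mem_stabilizer_iff, MulAction.mem_stabilizer_iff,
            mul_smul, mul_smul, mul_smul, mul_smul, inv_smul_eq_iff, inv_smul_eq_iff]
          rcases hk with ⟨rfl, rfl⟩ | ⟨rfl, rfl⟩
          · exact ⟨h1, h2⟩
          · exact ⟨h2, h1⟩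
        rw [stab_edge, Subgroup.map_bot, Subgroup.mem_bot] at h3
        have h4 : toHN g.1 = 1 := by
          have : toHN g.1 = k * (k⁻¹ * toHN g.1 * k) * k⁻¹ := by group
          rw [this, h3]; group
        have h5 := congrArg frHN h4
        rwa [frHN_toHN, map_one] at h5
      · intro h
        rw [h, map_one, one_smul, one_smul]
        exact ⟨rfl, rfl⟩
    refine ⟨⊤, inferInstance, ⟨?_⟩⟩
    refine Subgroup.topEquiv.trans ?_
    exact
      { toFun := fun g => g.1.2
        invFun := fun n => ⟨(1, n), (hstab _).2 rfl⟩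
        left_inv := fun g => by
          apply Subtype.ext
          exact Prod.ext ((hstab g.1).1 g.2).symm rfl
        right_inv := fun n => rfl
        map_mul' := fun g h => rfl }

end Splits

end Pool.Agent.H872R2.ZB
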